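import Pool.Agent.Lib.MP_870895_nt.Poisson

set_option autoImplicit false

open Real Filter Topology Set MeasureTheory

namespace Pool.Agent.Lib.MP_870895_nt

noncomputable def Gs (w : ℝ) : ℝ := ∫ x in (0 : ℝ)..w, sig x

lemma hasDerivAt_Gs (w : ℝ) : HasDerivAt Gs (sig w) w :=
  (continuous_sig.integral_hasStrictDerivAt 0 w).hasDerivAt

lemma Gs_neg (w : ℝ) : Gs (-w) = -Gs w := by
  have := intervalIntegral.integral_comp_neg (a := 0) (b := w) sig
  simp only [sig_neg, neg_zero] at this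
  rw [Gs, Gs, this, intervalIntegral.integral_symm]

lemma Gs_tail {w : ℝ} (hw : 0 < w) : |Gs w - π ^ 2 / 4| ≤ 10 * exp (-w / 2) := by
  have h1 : IntegrableOn sig (Ioi w) := integrable_sig.integrableOn
  have h2 : Gs w + ∫ x in Ioi w, sig x = π ^ 2 / 4 := by
    rw [← integral_sig, Gs, intervalIntegral.integral_of_le hw.le,
      ← setIntegral_union (Ioc_disjoint_Ioi le_rfl) measurableSet_Ioi integrable_sig.integrableOn h1,
      Ioc_union_Ioi_eq_Ioi hw.le]
  have h3 : 0 ≤ ∫ x in Ioi w, sig x := integral_nonneg fun x => (sig_pos x).le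
  have h4 : ∫ x in Ioi w, sig x ≤ ∫ x in Ioi w, 5 * exp (-(1 / 2) * x) := by
    refine setIntegral_mono_on h1 ((integrableOn_exp_mul_Ioi (by norm_num) w).const_mul 5)
      measurableSet_Ioi fun x hx => ?_
    have := sig_le x
    rw [abs_of_pos (hw.trans hx)] at this
    refine this.trans (le_of_eq ?_); ring_nf
  rw [integral_const_mul, integral_exp_mul_Ioi (by norm_num)] at h4
  rw [abs_sub_comm, abs_of_nonneg (by linarith)]
  have : exp (-w / 2) = exp (-(1 / 2) * w) := by ring_nf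
  rw [this]; linarith

lemma exAt_Gs : ExAt 1 fun w => Gs w - π ^ 2 / 4 * sgr w := by
  refine ⟨10, fun w hw => ?_⟩
  beta_reduce
  rcases lt_trichotomy w 0 with h | rfl | h
  · have := Gs_tail (neg_pos.2 h)
    rw [Gs_neg, ← abs_neg] at this
    rw [sgr_of_neg h, abs_of_neg h]
    convert this using 2; ring
  · norm_num at hw
  · rw [sgr_pos h, abs_of_pos h, mul_one]; exact Gs_tail h

lemma lat_neg {e s x t : ℝ} {G : ℝ → ℝ} (he : Sgn e) (hG : ∀ w, G (-w) = -G w) :
    lat e G s (-x) t = -lat e G s x t := by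
  unfold lat
  rw [← (Equiv.neg ℤ).tsum_eq, ← tsum_neg]
  refine tsum_congr fun k => ?_
  simp only [Equiv.neg_apply, Int.cast_neg, sg_neg, he.neg]
  rw [show (-(k : ℝ) + -x) = -(k + x) by ring, neg_mul, hG]; ring

lemma lat_at_zero {e s t : ℝ} {G : ℝ → ℝ} (he : Sgn e) (hG : ∀ w, G (-w) = -G w) :
    lat e G s 0 t = 0 := by
  have := lat_neg (s := s) (x := 0) (t := t) he hG
  rw [neg_zero] at this; linarith

noncomputable def aa (e v t : ℝ) : ℝ := lat e Gs (π ^ 2 / 4) v t - kap e * v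

lemma mom_sig_one (e v t : ℝ) (ht : 0 < t) : mom e sig 1 v t = t * mom e csch 2 v t := by
  unfold mom M
  rw [← tsum_mul_left]
  refine tsum_congr fun k => ?_
  have := mul_sig ((k + v) * t)
  have h2 : (k + v) * sig ((k + v) * t) = t * ((k + v) ^ 2 * csch ((k + v) * t)) := by
    refine mul_right_cancel₀ ht.ne' ?_
    linear_combination this
  rw [pow_one, h2]; ring

lemma mom_sig_zero (e : ℝ) {v t : ℝ} (hv : NI v) (ht : 0 < t) :
    mom e sig 0 v t = t * mom e csch 1 v t := by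
  unfold mom M
  rw [← tsum_mul_left]
  refine tsum_congr fun k => ?_
  beta_reduce
  rw [sig_of_ne (ni_mul hv ht k)]; ring

lemma mom_sig_zero_zero {e t : ℝ} (he : Sgn e) (ht : 0 < t) :
    mom e sig 0 0 t = 1 + t * mom e csch 1 0 t := by
  have h := (hasSum_ite_eq (0 : ℤ) (1 : ℝ)).add ((M_hasSum he (dec_csch 0 ht) 0 1).mul_left t)
  refine (hs_congr h (fun k => ?_) rfl).tsum_eq
  rcases eq_or_ne k 0 with rfl | hk
  · simp [sig]
  · have : ((k : ℝ) + 0) * t ≠ 0 := mul_ne_zero (by simpa using hk) ht.ne'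
    beta_reduce
    rw [sig_of_ne this, if_neg hk]; ring

lemma hasFDerivAt_aa {e : ℝ} (he : Sgn e) (v : ℝ) {t : ℝ} (ht : 0 < t) :
    HasFDerivAt (fun p : ℝ × ℝ => aa e p.1 p.2)
      (D2 (t * mom e sig 0 v t - kap e) (t * mom e csch 2 v t)) (v, t) := by
  have h := (hasFDerivAt_lat_reg he hasDerivAt_Gs exAt_sig exAt_Gs v ht).sub
    ((hasFDerivAt_fst (𝕜 := ℝ) (p := (v, t))).const_mul (kap e))
  refine h.congr_fderiv (ContinuousLinearMap.ext fun p => ?_)
  rw [mom_sig_one e v t ht]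
  simp; ring

lemma summable_s2_nat {c : ℝ} (hc : 0 < c) : Summable fun m : ℕ => s2 (c * (m + 1 : ℕ)) := by
  have := (summable_s2 hc).comp_injective (i := fun m : ℕ => ((m + 1 : ℕ) : ℤ))
    fun a b h => by simpa using h
  simpa [Function.comp_def] using this

lemma hasSum_int_of_bound {F : ℕ → ℝ → ℝ} {f : ℝ → ℝ} {b : ℕ → ℝ} (hF : ∀ n, Continuous (F n))
    (hb : ∀ n x, |F n x| ≤ b n) (hs : Summable b) (h : ∀ x, HasSum (fun n => F n x) (f x))
    (x y : ℝ) : Continuous f ∧ HasSum (fun n => ∫ v in x..y, F n v) (∫ v in x..y, f v) := by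
  constructor
  · have := continuous_tsum hF hs hb
    exact this.congr fun x => (h x).tsum_eq
  · exact intervalIntegral.hasSum_integral_of_dominated_convergence (fun n _ => b n)
      (fun n => (hF n).aestronglyMeasurable) (fun n => ae_of_all _ fun x _ => hb n x)
      (ae_of_all _ fun _ _ => hs) intervalIntegrable_const (ae_of_all _ fun x _ => h x)

lemma abs_iot_le {e : ℝ} (he : Sgn e) (m : ℕ) : |iot e m| ≤ 1 := by
  rw [abs_of_nonneg (iot_nonneg he m).1]; exact (iot_nonneg he m).2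

lemma hasSum_aa {e : ℝ} (he : Sgn e) (v : ℝ) {t : ℝ} (ht : 0 < t) :
    HasSum (fun m : ℕ => π * (iot e (m + 1) * (sin (π * (m + 1 : ℕ) * v) / (m + 1 : ℕ)) *
      s2 (π ^ 2 / (2 * t) * (m + 1 : ℕ)))) (aa e v t) := by
  have hc0 : 0 < π ^ 2 / (2 * t) := by positivity
  have h := hasSum_int_of_bound (fun m => by fun_prop) (fun m x => ?_)
    ((summable_s2_nat hc0).mul_left (π ^ 2)) (fun v => poisson he v ht) 0 v
  · have h1 := intervalIntegral.integral_eq_sub_of_hasDerivAt (a := 0) (b := v)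
      (fun x _ => fd_x (hasFDerivAt_aa he x ht)) (h.1.intervalIntegrable _ _)
    have h0 : aa e 0 t = 0 := by simp [aa, lat_at_zero he Gs_neg]
    refine hs_congr h.2 (fun m => ?_) (by rw [h1]; simp [h0])
    have hm : (0 : ℝ) < (m + 1 : ℕ) := by positivity
    have hd : ∀ x ∈ uIcc 0 v, HasDerivAt (fun x => π * (iot e (m + 1) *
        (sin (π * (m + 1 : ℕ) * x) / (m + 1 : ℕ)) * s2 (π ^ 2 / (2 * t) * (m + 1 : ℕ))))
        (π ^ 2 * (iot e (m + 1) * cos (π * (m + 1 : ℕ) * x) *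
          s2 (π ^ 2 / (2 * t) * (m + 1 : ℕ)))) x := fun x _ => by
      have := ((((((hasDerivAt_id x).const_mul (π * (m + 1 : ℕ))).sin).div_const
        ((m + 1 : ℕ) : ℝ)).const_mul (iot e (m + 1))).mul_const
        (s2 (π ^ 2 / (2 * t) * (m + 1 : ℕ)))).const_mul π
      refine this.congr_deriv ?_
      simp only [id]; field_simp
    rw [intervalIntegral.integral_eq_sub_of_hasDerivAt hd (Continuous.intervalIntegrable
      (by fun_prop) _ _)]
    simp
  · rw [abs_mul, abs_mul, abs_mul, abs_of_pos (s2_pos _), abs_of_pos (by positivity : 0 < π ^ 2)]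
    have h1 := abs_iot_le he (m + 1)
    have h2 := abs_cos_le_one (π * (m + 1 : ℕ) * x)
    have h3 := s2_pos (π ^ 2 / (2 * t) * (m + 1 : ℕ))
    calc _ ≤ π ^ 2 * (1 * 1 * s2 (π ^ 2 / (2 * t) * (m + 1 : ℕ))) := by gcongr
      _ = _ := by ring

lemma aa_term_le {e : ℝ} (he : Sgn e) (v c : ℝ) (m : ℕ) :
    |π * (iot e (m + 1) * (sin (π * (m + 1 : ℕ) * v) / (m + 1 : ℕ)) * s2 (c * (m + 1 : ℕ)))| ≤
      π * s2 (c * (m + 1 : ℕ)) := by
  rw [abs_mul, abs_mul, abs_mul, abs_of_pos (s2_pos _), abs_of_pos pi_pos, abs_div]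
  have h1 := abs_iot_le he (m + 1)
  have h2 : |sin (π * (m + 1 : ℕ) * v)| / |((m + 1 : ℕ) : ℝ)| ≤ 1 := by
    rw [div_le_one (by positivity), Nat.abs_cast]
    exact (abs_sin_le_one _).trans (by exact_mod_cast Nat.succ_pos m)
  have h3 := s2_pos (c * (m + 1 : ℕ))
  have := pi_pos
  calc _ ≤ π * (1 * 1 * s2 (c * (m + 1 : ℕ))) := by gcongr
    _ = _ := by ring

noncomputable def gam (e : ℝ) (m : ℕ) : ℝ := iot e m * (cos (π * m / 3) - cos (π * m / 2))

noncomputable def bet (e t : ℝ) : ℝ := ∫ v in (1 / 3 : ℝ)..(1 / 2), aa e v t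

lemma hasSum_bet {e : ℝ} (he : Sgn e) {t : ℝ} (ht : 0 < t) :
    HasSum (fun m : ℕ => gam e (m + 1) / ((m + 1 : ℕ) : ℝ) ^ 2 * s2 (π ^ 2 / (2 * t) * (m + 1 : ℕ)))
      (bet e t) := by
  have hc0 : 0 < π ^ 2 / (2 * t) := by positivity
  have h := hasSum_int_of_bound (fun m => by fun_prop) (fun m x => aa_term_le he x _ m)
    ((summable_s2_nat hc0).mul_left π) (fun v => hasSum_aa he v ht) (1 / 3) (1 / 2)
  refine hs_congr h.2 (fun m => ?_) rfl
  have hm : (0 : ℝ) < (m + 1 : ℕ) := by positivity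
  have hd : ∀ x ∈ uIcc (1 / 3 : ℝ) (1 / 2), HasDerivAt (fun x => -(iot e (m + 1) *
      (cos (π * (m + 1 : ℕ) * x) / ((m + 1 : ℕ) : ℝ) ^ 2) * s2 (π ^ 2 / (2 * t) * (m + 1 : ℕ))))
      (π * (iot e (m + 1) * (sin (π * (m + 1 : ℕ) * x) / (m + 1 : ℕ)) *
        s2 (π ^ 2 / (2 * t) * (m + 1 : ℕ)))) x := fun x _ => by
    have := ((((((hasDerivAt_id x).const_mul (π * (m + 1 : ℕ))).cos).div_const
      (((m + 1 : ℕ) : ℝ) ^ 2)).const_mul (iot e (m + 1))).mul_const
      (s2 (π ^ 2 / (2 * t) * (m + 1 : ℕ)))).neg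
    refine this.congr_deriv ?_
    simp only [id]; field_simp
  rw [intervalIntegral.integral_eq_sub_of_hasDerivAt hd (Continuous.intervalIntegrable
    (by fun_prop) _ _), gam, mul_one_div, mul_one_div]
  ring

lemma tsum_s2_le {c : ℝ} (hc : 0 < c) (n : ℕ) :
    ∑' m : ℕ, s2 (c * (m + 1 : ℕ)) ≤ 4 * (n + 1).factorial / (2 * c) ^ (n + 1) := by
  have h1 : exp (-(2 * c)) < 1 := exp_lt_one_iff.2 (by linarith)
  have h := (hasSum_geometric_of_lt_one (exp_pos _).le h1).mul_left (4 * exp (-(2 * c)))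
  refine (hasSum_le (fun m => ?_) (summable_s2_nat hc).hasSum h).trans ?_
  · refine (s2_le _).trans (le_of_eq ?_)
    rw [abs_of_pos (by positivity), mul_assoc, ← pow_succ', ← exp_nat_mul]; congr 2; ring
  · have h2 : 1 + (2 * c) ^ (n + 1) / (n + 1).factorial ≤ exp (2 * c) := by
      have := sum_le_exp_of_nonneg (x := 2 * c) (by positivity) (n + 2)
      refine le_trans ?_ this
      rw [Finset.sum_range_succ, Finset.sum_range_succ']
      have : 0 ≤ ∑ k ∈ Finset.range n, (2 * c) ^ (k + 1) / ((k + 1).factorial : ℝ) := by positivity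
      simp only [pow_zero, Nat.factorial_zero, Nat.cast_one, div_one]; linarith
    have h3 : exp (-(2 * c)) * (1 - exp (-(2 * c)))⁻¹ = (exp (2 * c) - 1)⁻¹ := by
      have : exp (2 * c) - 1 ≠ 0 := by
        have := one_lt_exp_iff.2 (show 0 < 2 * c by positivity); linarith
      rw [exp_neg]; field_simp
    rw [mul_assoc, h3, mul_div_assoc]
    gcongr
    rw [← inv_div]
    exact inv_anti₀ (by positivity) (by linarith)

lemma aa_le {e : ℝ} (he : Sgn e) (n : ℕ) :
    ∃ C, 0 ≤ C ∧ ∀ v t, 0 < t → |aa e v t| ≤ C * t ^ (n + 1) := by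
  refine ⟨π * (4 * (n + 1).factorial / (π ^ 2) ^ (n + 1)), by positivity, fun v t ht => ?_⟩
  have hc0 : 0 < π ^ 2 / (2 * t) := by positivity
  have h1 := tsum_of_norm_bounded ((summable_s2_nat hc0).mul_left π).hasSum
    (fun m => (Real.norm_eq_abs _).le.trans (aa_term_le he v _ m))
  rw [(hasSum_aa he v ht).tsum_eq, tsum_mul_left] at h1
  refine h1.trans ?_
  rw [mul_assoc]
  gcongr
  refine (tsum_s2_le hc0 n).trans (le_of_eq ?_)
  rw [show 2 * (π ^ 2 / (2 * t)) = π ^ 2 / t by field_simp, div_pow]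
  field_simp

lemma tendsto_aa {e : ℝ} (he : Sgn e) :
    Tendsto (fun t => aa e (1 / 3) t) atTop (𝓝 (π ^ 2 / 4 - kap e * (1 / 3))) :=
  (tendsto_lat_atTop he exAt_Gs ⟨by norm_num, by norm_num⟩).sub_const _

lemma aa_half {t : ℝ} (ht : 0 < t) : aa 1 (1 / 2) t = 0 := by
  refine (hasSum_aa sgn_one (1 / 2) ht).unique (hs_congr hasSum_zero (fun m => ?_) rfl)
  rcases Nat.even_or_odd' (m + 1) with ⟨j, h | h⟩
  · rw [h, show π * ((2 * j : ℕ) : ℝ) * (1 / 2) = j * π by push_cast; ring, sin_nat_mul_pi]; simp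
  · rw [h]; simp [iot, pow_succ]

end Pool.Agent.Lib.MP_870895_nt
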