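import Mathlib

set_option autoImplicit false

open Real Filter Topology

namespace Pool.Agent.Lib.MP_870895_nt

noncomputable def sech (w : ℝ) : ℝ := (cosh w)⁻¹
noncomputable def csch (w : ℝ) : ℝ := (sinh w)⁻¹
noncomputable def coth (w : ℝ) : ℝ := cosh w * (sinh w)⁻¹
noncomputable def th (w : ℝ) : ℝ := sinh w * (cosh w)⁻¹
noncomputable def sg (k : ℤ) : ℝ := (Int.sign k : ℝ)
noncomputable def sgr (w : ℝ) : ℝ := if 0 < w then 1 else if w < 0 then -1 else 0

def Sgn (e : ℝ) : Prop := e = 1 ∨ e = -1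

lemma Sgn.ne {e : ℝ} (he : Sgn e) : e ≠ 0 := by rcases he with rfl | rfl <;> norm_num
lemma Sgn.abs {e : ℝ} (he : Sgn e) (k : ℤ) : |e ^ k| = 1 := by
  rcases he with rfl | rfl
  · simp
  · rw [abs_zpow]; simp
lemma Sgn.add {e : ℝ} (he : Sgn e) (k l : ℤ) : e ^ (k + l) = e ^ k * e ^ l := zpow_add₀ he.ne k l
lemma Sgn.sq {e : ℝ} (he : Sgn e) : e * e = 1 := by rcases he with rfl | rfl <;> norm_num
lemma Sgn.neg {e : ℝ} (he : Sgn e) (k : ℤ) : e ^ (-k) = e ^ k := by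
  rcases he with rfl | rfl
  · simp
  · rw [zpow_neg, ← inv_zpow]; norm_num
lemma sgn_one : Sgn 1 := Or.inl rfl
lemma sgn_neg_one : Sgn (-1) := Or.inr rfl

lemma sg_neg (k : ℤ) : sg (-k) = -sg k := by simp [sg]
lemma sg_zero : sg 0 = 0 := by simp [sg]
lemma sg_pos {k : ℤ} (h : 0 < k) : sg k = 1 := by simp [sg, Int.sign_eq_one_of_pos h]
lemma sg_of_neg {k : ℤ} (h : k < 0) : sg k = -1 := by simp [sg, Int.sign_eq_neg_one_of_neg h]
lemma abs_sg_le (k : ℤ) : |sg k| ≤ 1 := by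
  rcases lt_trichotomy k 0 with h | rfl | h
  · simp [sg_of_neg h]
  · simp [sg_zero]
  · simp [sg_pos h]
lemma sgr_pos {w : ℝ} (h : 0 < w) : sgr w = 1 := by simp [sgr, h]
lemma sgr_of_neg {w : ℝ} (h : w < 0) : sgr w = -1 := by simp [sgr, h, not_lt.2 h.le]

lemma sech_neg (w : ℝ) : sech (-w) = sech w := by simp [sech]
lemma csch_neg (w : ℝ) : csch (-w) = -csch w := by simp [csch]
lemma coth_neg (w : ℝ) : coth (-w) = -coth w := by simp [coth]
lemma th_neg (w : ℝ) : th (-w) = -th w := by simp [th]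
lemma sech_pos (w : ℝ) : 0 < sech w := inv_pos.2 (cosh_pos w)
lemma csch_zero : csch 0 = 0 := by simp [csch]
lemma coth_zero : coth 0 = 0 := by simp [coth]

lemma ss_id (A C : ℝ) (h : A + C ≠ 0) : sech A * sech C = (th A + th C) * csch (A + C) := by
  have h1 := (cosh_pos A).ne'
  have h2 := (cosh_pos C).ne'
  have h3 : sinh (A + C) ≠ 0 := by simpa using h
  unfold sech th csch
  field_simp
  rw [sinh_add]; ring

lemma sc_id (A C : ℝ) (h : C ≠ 0) : sech A * csch C = (th A + coth C) * sech (A + C) := by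
  have h1 := (cosh_pos A).ne'
  have h2 : sinh C ≠ 0 := by simpa using h
  have h3 := (cosh_pos (A + C)).ne'
  unfold sech th csch coth
  field_simp
  rw [cosh_add]; ring

lemma cc_id (A C : ℝ) (hA : A ≠ 0) (hC : C ≠ 0) (h : A + C ≠ 0) :
    csch A * csch C = (coth A + coth C) * csch (A + C) := by
  have h1 : sinh A ≠ 0 := by simpa using hA
  have h2 : sinh C ≠ 0 := by simpa using hC
  have h3 : sinh (A + C) ≠ 0 := by simpa using h
  unfold csch coth
  field_simp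
  rw [sinh_add]; ring

/-- exponential decay away from a neighbourhood of zero -/
def ExAt (δ : ℝ) (g : ℝ → ℝ) : Prop := ∃ C, ∀ w, δ ≤ |w| → |g w| ≤ C * exp (-|w| / 2)

lemma ExAt.mono {δ δ' : ℝ} {g : ℝ → ℝ} (h : ExAt δ g) (hd : δ ≤ δ') : ExAt δ' g := by
  obtain ⟨C, hC⟩ := h
  exact ⟨C, fun w hw => hC w (hd.trans hw)⟩

lemma ExAt.nonneg {δ : ℝ} {g : ℝ → ℝ} (h : ExAt δ g) :
    ∃ C, 0 ≤ C ∧ ∀ w, δ ≤ |w| → |g w| ≤ C * exp (-|w| / 2) := by
  obtain ⟨C, hC⟩ := h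
  refine ⟨max C 0, le_max_right _ _, fun w hw => (hC w hw).trans ?_⟩
  gcongr; exact le_max_left _ _

lemma ExAt.add {δ : ℝ} {g h : ℝ → ℝ} (hg : ExAt δ g) (hh : ExAt δ h) :
    ExAt δ (fun w => g w + h w) := by
  obtain ⟨C, hC⟩ := hg
  obtain ⟨D, hD⟩ := hh
  refine ⟨C + D, fun w hw => ?_⟩
  have := abs_add_le (g w) (h w)
  have := hC w hw
  have := hD w hw
  linarith

lemma ExAt.neg {δ : ℝ} {g : ℝ → ℝ} (hg : ExAt δ g) : ExAt δ (fun w => -g w) := by
  obtain ⟨C, hC⟩ := hg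
  exact ⟨C, fun w hw => by simpa using hC w hw⟩

lemma ExAt.bdd_mul {δ : ℝ} {g b : ℝ → ℝ} (hg : ExAt δ g) {B : ℝ} (hb : ∀ w, δ ≤ |w| → |b w| ≤ B) :
    ExAt δ (fun w => b w * g w) := by
  obtain ⟨C, hC0, hC⟩ := hg.nonneg
  refine ⟨B * C, fun w hw => ?_⟩
  rw [abs_mul, mul_assoc]
  exact mul_le_mul (hb w hw) (hC w hw) (abs_nonneg _) ((abs_nonneg _).trans (hb w hw))

/-- strong decay: bound by `exp (-|w|)` -/
def ExS (δ : ℝ) (g : ℝ → ℝ) : Prop := ∃ C, 0 ≤ C ∧ ∀ w, δ ≤ |w| → |g w| ≤ C * exp (-|w|)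

lemma pow_mul_exp_le (j : ℕ) (u : ℝ) (hu : 0 ≤ u) :
    u ^ j * exp (-u) ≤ (2 ^ j * j.factorial) * exp (-u / 2) := by
  have h1 : (u / 2) ^ j / j.factorial ≤ exp (u / 2) := pow_div_factorial_le_exp _ (by positivity) j
  have h2 : exp (-u / 2) = exp (u / 2) * exp (-u) := by rw [← exp_add]; ring_nf
  have hf : (0 : ℝ) < j.factorial := by positivity
  rw [div_le_iff₀ hf, div_pow, div_le_iff₀ (by positivity)] at h1
  rw [h2, ← mul_assoc]
  gcongr
  linarith

lemma ExS.pow_mul {δ : ℝ} {g : ℝ → ℝ} (hg : ExS δ g) (j : ℕ) : ExAt δ (fun w => w ^ j * g w) := by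
  obtain ⟨C, hC0, hC⟩ := hg
  refine ⟨C * (2 ^ j * j.factorial), fun w hw => ?_⟩
  rw [abs_mul, abs_pow]
  have h1 := pow_mul_exp_le j |w| (abs_nonneg w)
  calc |w| ^ j * |g w| ≤ |w| ^ j * (C * exp (-|w|)) := by gcongr; exact hC w hw
    _ = C * (|w| ^ j * exp (-|w|)) := by ring
    _ ≤ C * ((2 ^ j * j.factorial) * exp (-|w| / 2)) := by gcongr
    _ = _ := by ring

lemma ExS.exAt {δ : ℝ} {g : ℝ → ℝ} (hg : ExS δ g) : ExAt δ g := by
  simpa using hg.pow_mul 0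

lemma ExS.bdd_mul {δ : ℝ} {g b : ℝ → ℝ} (hg : ExS δ g) {B : ℝ} (hB : 0 ≤ B)
    (hb : ∀ w, δ ≤ |w| → |b w| ≤ B) : ExS δ (fun w => b w * g w) := by
  obtain ⟨C, hC0, hC⟩ := hg
  refine ⟨B * C, by positivity, fun w hw => ?_⟩
  rw [abs_mul, mul_assoc]
  exact mul_le_mul (hb w hw) (hC w hw) (abs_nonneg _) hB

lemma sech_le (w : ℝ) : sech w ≤ 2 * exp (-|w|) := by
  rw [sech, ← cosh_abs, cosh_eq, inv_le_comm₀ (by positivity) (by positivity), exp_neg]
  have := exp_pos |w|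
  have : 0 < (exp |w|)⁻¹ := by positivity
  rw [mul_inv, inv_inv]; linarith

lemma sech_le_one (w : ℝ) : sech w ≤ 1 := inv_le_one_of_one_le₀ (one_le_cosh w)

lemma exS_sech : ExS 0 sech :=
  ⟨2, by norm_num, fun w _ => by rw [abs_of_pos (sech_pos w)]; exact sech_le w⟩

lemma abs_th_le (w : ℝ) : |th w| ≤ 1 := by
  rw [th, abs_mul, abs_inv, abs_of_pos (cosh_pos w), ← div_eq_mul_inv, div_le_one (cosh_pos w),
    abs_sinh, ← cosh_abs]
  exact (sinh_lt_cosh _).le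

lemma csch_le {u : ℝ} (hu : 0 < u) : csch u ≤ (2 + u⁻¹) * exp (-u) := by
  have hs : 0 < sinh u := sinh_pos_iff.2 hu
  rw [csch, inv_le_iff_one_le_mul₀ hs, sinh_eq]
  have h1 : exp (-u) * exp u = 1 := by rw [← exp_add]; simp
  have h2 : 2 * u + 1 ≤ exp u * exp u := by rw [← exp_add]; linarith [add_one_le_exp (u + u)]
  have h3 : exp (-u) * exp (-u) * (2 * u + 1) ≤ 1 := by
    calc _ ≤ exp (-u) * exp (-u) * (exp u * exp u) := by gcongr
      _ = (exp (-u) * exp u) * (exp (-u) * exp u) := by ring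
      _ = 1 := by rw [h1]; ring
  have h4 : (2 + u⁻¹) * exp (-u) * ((exp u - exp (-u)) / 2)
      = (2 * u + 1) * (1 - exp (-u) * exp (-u)) / (2 * u) := by
    field_simp; nlinarith
  rw [h4, le_div_iff₀ (by positivity)]
  nlinarith

lemma csch_pos {u : ℝ} (hu : 0 < u) : 0 < csch u := inv_pos.2 (sinh_pos_iff.2 hu)

lemma abs_csch (w : ℝ) : |csch w| = csch |w| := by rw [csch, csch, abs_inv, abs_sinh]

lemma exS_csch {δ : ℝ} (hδ : 0 < δ) : ExS δ csch := by
  refine ⟨2 + δ⁻¹, by positivity, fun w hw => ?_⟩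
  rw [abs_csch]
  refine (csch_le (hδ.trans_le hw)).trans ?_
  gcongr

lemma coth_sub_one (u : ℝ) (hu : u ≠ 0) : coth u - 1 = exp (-u) * csch u := by
  have h1 : sinh u ≠ 0 := by simpa using hu
  unfold coth csch
  field_simp
  rw [cosh_sub_sinh]

lemma th_sub_one (u : ℝ) : th u - 1 = -(exp (-u) * sech u) := by
  have h1 := (cosh_pos u).ne'
  unfold th sech
  field_simp
  rw [← cosh_sub_sinh]; ring

lemma abs_coth_le {δ : ℝ} (hδ : 0 < δ) (w : ℝ) (hw : δ ≤ |w|) : |coth w| ≤ 3 + δ⁻¹ := by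
  have hu : 0 < |w| := hδ.trans_le hw
  have h0 : |coth w| = coth |w| := by
    rw [coth, coth, abs_mul, abs_inv, abs_sinh, cosh_abs, abs_of_pos (cosh_pos w)]
  have h1 := coth_sub_one |w| hu.ne'
  have h2 := csch_le hu
  have h3 : exp (-|w|) ≤ 1 := exp_le_one_iff.2 (by linarith)
  have h4 : |w|⁻¹ ≤ δ⁻¹ := by gcongr
  have h5 := csch_pos hu
  have h6 : csch |w| ≤ 2 + δ⁻¹ := by
    calc _ ≤ (2 + |w|⁻¹) * exp (-|w|) := h2
      _ ≤ (2 + δ⁻¹) * 1 := by gcongr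
      _ = _ := by ring
  rw [h0]; nlinarith

lemma exS_th : ExS 1 (fun w => th w - sgr w) := by
  refine ⟨1, by norm_num, fun w hw => ?_⟩
  beta_reduce
  have key : ∀ u : ℝ, 0 < u → |th u - 1| ≤ 1 * exp (-u) := fun u _ => by
    rw [th_sub_one, abs_neg, abs_of_pos (mul_pos (exp_pos _) (sech_pos _)), mul_comm]
    gcongr; exact sech_le_one u
  rcases lt_trichotomy w 0 with h | rfl | h
  · have := key (-w) (by linarith)
    rw [sgr_of_neg h, abs_of_neg h]
    rw [th_neg, ← abs_neg] at this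
    convert this using 2; ring
  · norm_num at hw
  · rw [sgr_pos h, abs_of_pos h]; exact key w h

lemma exS_coth : ExS 1 (fun w => coth w - sgr w) := by
  refine ⟨3, by norm_num, fun w hw => ?_⟩
  beta_reduce
  have key : ∀ u : ℝ, 1 ≤ u → |coth u - 1| ≤ 3 * exp (-u) := fun u hu => by
    have hu0 : 0 < u := by linarith
    rw [coth_sub_one u hu0.ne', abs_of_pos (mul_pos (exp_pos _) (csch_pos hu0)), mul_comm]
    gcongr
    have h3 : exp (-u) ≤ 1 := exp_le_one_iff.2 (by linarith)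
    have h4 : u⁻¹ ≤ 1 := inv_le_one_of_one_le₀ hu
    calc _ ≤ (2 + u⁻¹) * exp (-u) := csch_le hu0
      _ ≤ (2 + 1) * 1 := by gcongr
      _ = _ := by ring
  rcases lt_trichotomy w 0 with h | rfl | h
  · rw [abs_of_neg h] at hw
    have := key (-w) hw
    rw [sgr_of_neg h, abs_of_neg h]
    rw [coth_neg, ← abs_neg] at this
    convert this using 2; ring
  · norm_num at hw
  · rw [abs_of_pos h] at hw
    rw [sgr_pos h, abs_of_pos h]; exact key w hw

/-- rapidly decreasing sequences -/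
def Dec (f : ℤ → ℝ) : Prop := ∀ j : ℕ, Summable fun k : ℤ => (1 + |(k : ℝ)|) ^ j * |f k|

lemma summable_poly_exp (j : ℕ) {c : ℝ} (hc : 0 < c) :
    Summable fun k : ℤ => (1 + |(k : ℝ)|) ^ j * exp (-c * |(k : ℝ)|) := by
  have h : Summable fun n : ℕ => (1 + (n : ℝ)) ^ j * exp (-c * (n : ℝ)) := by
    have h1 := (summable_nat_add_iff 1).2 (summable_pow_mul_exp_neg_nat_mul j hc)
    refine (h1.mul_left (exp c)).congr fun n => ?_
    push_cast
    rw [mul_left_comm, ← exp_add]; ring_nf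
  refine Summable.of_nat_of_neg ?_ ?_ <;> simpa using h

lemma exp_shift {x t t0 B : ℝ} (k : ℤ) (ht0 : 0 < t0) (ht : t0 ≤ t) (hx : |x| ≤ B) :
    exp (-|(k + x) * t| / 2) ≤ exp (B * t0 / 2) * exp (-(t0 / 2) * |(k : ℝ)|) := by
  rw [← exp_add, exp_le_exp, abs_mul, abs_of_pos (ht0.trans_le ht)]
  have h1 : |(k : ℝ)| - B ≤ |k + x| := by
    have := abs_add_le ((k : ℝ) + x) (-x)
    simp only [add_neg_cancel_right, abs_neg] at this
    linarith
  have h2 : |k + x| * t0 ≤ |k + x| * t := by gcongr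
  nlinarith

lemma eventually_large (x : ℝ) {t : ℝ} (ht : 0 < t) (δ : ℝ) :
    ∀ᶠ k : ℤ in cofinite, δ ≤ |(k + x) * t| ∧ |x| < |(k : ℝ)| := by
  have h1 : Tendsto (fun k : ℤ => |(k : ℝ)|) cofinite atTop := by
    have := (tendsto_norm_cocompact_atTop (E := ℝ)).comp Int.tendsto_coe_cofinite
    simpa [Function.comp_def] using this
  filter_upwards [h1.eventually_gt_atTop (|x| + |δ| / t)] with k hk
  have h2 : |(k : ℝ)| - |x| ≤ |k + x| := by
    have := abs_add_le ((k : ℝ) + x) (-x)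
    simp only [add_neg_cancel_right, abs_neg] at this
    linarith
  have h3 : 0 ≤ |δ| / t := by positivity
  refine ⟨?_, by linarith⟩
  rw [abs_mul, abs_of_pos ht]
  have : |δ| / t ≤ |k + x| := by linarith
  rw [div_le_iff₀ ht] at this
  exact (le_abs_self δ).trans this

lemma Dec.congr_cofinite {f g : ℤ → ℝ} (hf : Dec f) (h : f =ᶠ[cofinite] g) : Dec g := fun j =>
  (hf j).congr_cofinite (by filter_upwards [h] with k hk; rw [hk])

lemma dec_comp {δ : ℝ} {g : ℝ → ℝ} (hg : ExAt δ g) (x : ℝ) {t : ℝ} (ht : 0 < t) :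
    Dec fun k => g ((k + x) * t) := by
  intro j
  obtain ⟨C, hC0, hC⟩ := hg.nonneg
  refine Summable.of_norm_bounded_eventually
    ((summable_poly_exp j (half_pos ht)).mul_left (C * exp (|x| * t / 2))) ?_
  filter_upwards [eventually_large x ht δ] with k hk
  rw [Real.norm_of_nonneg (by positivity)]
  have h1 := hC _ hk.1
  have h2 := exp_shift k ht le_rfl (le_refl |x|)
  calc _ ≤ (1 + |(k : ℝ)|) ^ j * (C * (exp (|x| * t / 2) * exp (-(t / 2) * |(k : ℝ)|))) := by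
        gcongr; exact h1.trans (by gcongr)
    _ = _ := by ring

lemma dec_comp_sg {δ s : ℝ} {G : ℝ → ℝ} (hg : ExAt δ fun w => G w - s * sgr w) (x : ℝ) {t : ℝ}
    (ht : 0 < t) : Dec fun k => G ((k + x) * t) - s * sg k := by
  refine (dec_comp hg x ht).congr_cofinite ?_
  filter_upwards [eventually_large x ht δ] with k hk
  have h := hk.2
  have hx := abs_lt.1 (lt_of_le_of_lt le_rfl h)
  rcases lt_trichotomy k 0 with h0 | rfl | h0
  · have h1 : (k : ℝ) < 0 := by exact_mod_cast h0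
    rw [abs_of_neg h1] at hx
    rw [sg_of_neg h0, sgr_of_neg (mul_neg_of_neg_of_pos (by linarith) ht)]
  · simp at h; exact absurd h (not_lt.2 (abs_nonneg x))
  · have h1 : (0 : ℝ) < k := by exact_mod_cast h0
    rw [abs_of_pos h1] at hx
    rw [sg_pos h0, sgr_pos (mul_pos (by linarith) ht)]

lemma Dec.summable_mom {f : ℤ → ℝ} (hf : Dec f) {e : ℝ} (he : Sgn e) (a : ℝ) (j : ℕ) :
    Summable fun k : ℤ => ‖e ^ k * ((k + a) ^ j * f k)‖ := by
  refine Summable.of_nonneg_of_le (fun _ => norm_nonneg _) (fun k => ?_)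
    ((hf j).mul_left ((1 + |a|) ^ j))
  rw [Real.norm_eq_abs, abs_mul, he.abs, one_mul, abs_mul, abs_pow, ← mul_assoc, ← mul_pow]
  gcongr
  have := abs_add_le (k : ℝ) a
  have := abs_nonneg (k : ℝ)
  have := abs_nonneg a
  nlinarith

lemma Dec.summable_mom' {f : ℤ → ℝ} (hf : Dec f) {e : ℝ} (he : Sgn e) (a : ℝ) (j : ℕ) :
    Summable fun k : ℤ => e ^ k * ((k + a) ^ j * f k) := (hf.summable_mom he a j).of_norm

lemma Dec.summable {f : ℤ → ℝ} (hf : Dec f) : Summable f := by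
  simpa using hf.summable_mom' sgn_one 0 0

lemma Dec.summable_e {f : ℤ → ℝ} (hf : Dec f) {e : ℝ} (he : Sgn e) :
    Summable fun k : ℤ => e ^ k * f k := by
  simpa using hf.summable_mom' he 0 0

end Pool.Agent.Lib.MP_870895_nt
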