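import Pool.Agent.Lib.MP_870895_nt.Green

set_option autoImplicit false

open Real Filter Topology Set MeasureTheory

namespace Pool.Agent.Lib.MP_870895_nt

variable {e t x : ℝ}

noncomputable def ind (d m : ℕ) : ℝ := if d ∣ m then 1 else 0

lemma hasSum_ind {f : ℕ → ℝ} {d : ℕ} (hd : 0 < d) {s : ℝ} (h : HasSum (fun k => f (d * k)) s) :
    HasSum (fun m => ind d m * f m) s := by
  refine (Function.Injective.hasSum_iff (mul_right_injective₀ hd.ne') fun m hm => ?_).1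
    (hs_congr h (fun k => by simp [ind]) rfl)
  rw [ind, if_neg, zero_mul]
  rintro ⟨k, rfl⟩; exact hm ⟨k, rfl⟩

lemma hs_shift {F : ℕ → ℝ} {s : ℝ} (h0 : F 0 = 0) : HasSum (fun m => F (m + 1)) s ↔ HasSum F s := by
  rw [← hasSum_nat_add_iff' 1 (f := F)]; simp [h0]

lemma neg_one_pow_ind (m : ℕ) : (-1 : ℝ) ^ m = 2 * ind 2 m - 1 := by
  rcases Nat.even_or_odd m with h | h
  · rw [h.neg_one_pow, ind, if_pos h.two_dvd]; norm_num
  · rw [h.neg_one_pow, ind, if_neg h.not_two_dvd_nat]; norm_num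

lemma cos_third (m : ℕ) : cos (π * m / 3) = 1 / 2 - ind 2 m - 3 / 2 * ind 3 m + 3 * ind 6 m := by
  have h : ∀ n : ℕ, cos (π * (n + 2 : ℕ) / 3) = cos (π * (n + 1 : ℕ) / 3) - cos (π * n / 3) := by
    intro n
    have h1 := cos_add (π * (n + 1 : ℕ) / 3) (π / 3)
    have h2 := cos_sub (π * (n + 1 : ℕ) / 3) (π / 3)
    rw [cos_pi_div_three] at h1 h2
    rw [show π * (n + 2 : ℕ) / 3 = π * (n + 1 : ℕ) / 3 + π / 3 by push_cast; ring,
      show π * n / 3 = π * (n + 1 : ℕ) / 3 - π / 3 by push_cast; ring]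
    linarith
  induction m using Nat.twoStepInduction with
  | zero => simp [ind]; norm_num
  | one => simp [ind]
  | more n h1 h2 =>
    rw [h, h1, h2]
    have h3 : ∀ d i : ℕ, d ∣ 6 → ind d (n + i) = ind d (n % 6 + i) := fun d i hd => by
      simp only [ind, ← Nat.dvd_mod_iff hd (m := n + i), ← Nat.dvd_mod_iff hd (m := n % 6 + i),
        Nat.mod_add_mod]
    have h4 := h3 2 0; have h5 := h3 3 0; have h6 := h3 6 0
    rw [add_zero] at h4 h5 h6
    rw [h3 2 1, h3 3 1, h3 6 1, h3 2 2, h3 3 2, h3 6 2, h4, h5, h6] <;> try norm_num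
    have : n % 6 < 6 := Nat.mod_lt _ (by norm_num)
    generalize n % 6 = r at this
    interval_cases r <;> norm_num [ind]

lemma cos_half (m : ℕ) : cos (π * m / 2) = 2 * ind 4 m - ind 2 m := by
  induction m using Nat.twoStepInduction with
  | zero => simp [ind]; norm_num
  | one => simp [ind]
  | more n h1 h2 =>
    rw [show π * (n + 2 : ℕ) / 2 = π * n / 2 + π by push_cast; ring, cos_add_pi, h1]
    simp only [ind]
    split_ifs <;> first | omega | norm_num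

lemma gam_one (m : ℕ) : gam 1 m = 1 / 2 * ind 2 m + 3 / 2 * ind 6 m - 2 * ind 4 m := by
  rw [gam, iot, cos_third, cos_half, neg_one_pow_ind]
  simp only [ind]
  split_ifs <;> first | omega | norm_num

lemma gam_neg_one (m : ℕ) :
    gam (-1) m = 1 / 2 - 1 / 2 * ind 2 m - 3 / 2 * ind 3 m + 3 / 2 * ind 6 m := by
  rw [gam, iot, cos_third, cos_half, neg_one_pow_ind]
  simp only [ind]
  split_ifs <;> first | omega | norm_num

lemma abs_gam_le (he : Sgn e) (m : ℕ) : |gam e m| ≤ 2 := by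
  rw [gam, abs_mul]
  have h1 := abs_iot_le he m
  have h2 : |cos (π * m / 3) - cos (π * m / 2)| ≤ 2 :=
    (abs_sub _ _).trans (by linarith [abs_cos_le_one (π * m / 3), abs_cos_le_one (π * m / 2)])
  nlinarith [abs_nonneg (iot e m), abs_nonneg (cos (π * m / 3) - cos (π * m / 2))]

noncomputable def zt (s : ℕ) : ℝ := ∑' n : ℕ, 1 / (n : ℝ) ^ s

lemma hasSum_zt {s : ℕ} (hs : 2 ≤ s) : HasSum (fun n : ℕ => 1 / (n : ℝ) ^ s) (zt s) :=
  (summable_one_div_nat_pow.2 hs).hasSum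

lemma hasSum_zt' {s : ℕ} (hs : 2 ≤ s) : HasSum (fun n : ℕ => 1 / ((n + 1 : ℕ) : ℝ) ^ s) (zt s) :=
  (hs_shift (F := fun n : ℕ => 1 / (n : ℝ) ^ s) (by simp; omega)).2 (hasSum_zt hs)

lemma zt_two : zt 2 = π ^ 2 / 6 := hasSum_zeta_two.tsum_eq
lemma zt_four : zt 4 = π ^ 4 / 90 := hasSum_zeta_four.tsum_eq

lemma hasSum_zt_mul {s : ℕ} (hs : 2 ≤ s) (d : ℕ) :
    HasSum (fun n : ℕ => 1 / ((d * n : ℕ) : ℝ) ^ s) (1 / (d : ℝ) ^ s * zt s) :=
  hs_congr ((hasSum_zt hs).mul_left _) (fun n => by push_cast; rw [mul_pow, one_div_mul_one_div]) rfl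

lemma hasSum_zt_odd {s : ℕ} (hs : 2 ≤ s) :
    HasSum (fun n : ℕ => 1 / (2 * (n : ℝ) + 1) ^ s) ((1 - 1 / 2 ^ s) * zt s) := by
  have h1 : Summable fun n : ℕ => 1 / ((2 * n + 1 : ℕ) : ℝ) ^ s :=
    (hasSum_zt hs).summable.comp_injective (i := fun n : ℕ => 2 * n + 1) fun a b h => by simpa using h
  have h2 := (HasSum.even_add_odd (f := fun n : ℕ => 1 / (n : ℝ) ^ s) (hasSum_zt_mul hs 2)
    h1.hasSum).unique (hasSum_zt hs)
  refine hs_congr h1.hasSum (fun n => by push_cast; rfl) ?_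
  push_cast at h2 ⊢; linarith

lemma int_series {ι : Type*} [Countable ι] {F : ι → ℝ → ℝ} {f : ℝ → ℝ}
    (h : ∀ x, 0 < x → HasSum (fun i => F i x) (f x)) (hF : ∀ i, IntegrableOn (F i) (Ioi 0))
    (hs : Summable fun i => ∫ x in Ioi 0, ‖F i x‖) :
    IntegrableOn f (Ioi 0) ∧ HasSum (fun i => ∫ x in Ioi 0, F i x) (∫ x in Ioi 0, f x) := by
  refine ⟨IntegrableOn.congr_fun (integrable_tsum' hF hs) (fun x hx => (h x hx).tsum_eq)
    measurableSet_Ioi, hs_congr (hasSum_integral_of_summable_integral_norm hF hs) (fun _ => rfl) ?_⟩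
  exact setIntegral_congr_fun measurableSet_Ioi fun x hx => (h x hx).tsum_eq.symm

/-- series with terms `c i * g i x`, where `g i` is nonnegative -/
lemma int_series' {ι : Type*} [Countable ι] {g : ι → ℝ → ℝ} {c b : ι → ℝ} {f : ℝ → ℝ}
    (h : ∀ x, 0 < x → HasSum (fun i => c i * g i x) (f x))
    (hg : ∀ i, IntegrableOn (g i) (Ioi 0) ∧ ∫ x in Ioi 0, g i x = b i)
    (h0 : ∀ i x, 0 < x → 0 ≤ g i x) (hs : Summable fun i => |c i| * b i) :
    IntegrableOn f (Ioi 0) ∧ HasSum (fun i => c i * b i) (∫ x in Ioi 0, f x) := by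
  have h1 := int_series h (fun i => (hg i).1.const_mul _) (hs.congr fun i => by
    rw [← (hg i).2, ← integral_const_mul]
    exact setIntegral_congr_fun measurableSet_Ioi fun x hx => by
      simp only [norm_mul, Real.norm_eq_abs, abs_of_nonneg (h0 i x hx)])
  exact ⟨h1.1, hs_congr h1.2 (fun i => by rw [integral_const_mul, (hg i).2]) rfl⟩

lemma hasSum_csch (hx : 0 < x) : HasSum (fun n : ℕ => 2 * exp (-((2 * n + 1) * x))) (csch x) := by
  refine hs_congr ((hasSum_sig hx).mul_left x⁻¹) (fun n => by field_simp) ?_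
  rw [sig_of_ne hx.ne']; field_simp

lemma mellin_csch {j : ℕ} (hj : 1 ≤ j) : IntegrableOn (fun x => x ^ j * csch x) (Ioi 0) ∧
    ∫ x in Ioi 0, x ^ j * csch x = 2 * j.factorial * ((1 - 1 / 2 ^ (j + 1)) * zt (j + 1)) := by
  have h1 := (hasSum_zt_odd (s := j + 1) (by omega)).mul_left (2 * j.factorial : ℝ)
  have h := int_series' (g := fun (n : ℕ) x => x ^ j * exp (-((2 * n + 1) * x))) (c := fun _ => 2)
    (f := fun x => x ^ j * csch x)
    (fun x hx => hs_congr ((hasSum_csch hx).mul_left (x ^ j)) (fun n => by ring) rfl)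
    (fun n => ⟨mellin_exp_int j (by positivity), mellin_exp j (by positivity)⟩)
    (fun n x hx => by positivity) (h1.summable.congr fun n => by rw [abs_two]; ring)
  exact ⟨h.1, h.2.unique (hs_congr h1 (fun n => by ring) rfl)⟩

lemma int_scale {j : ℕ} {f : ℝ → ℝ} (h : IntegrableOn (fun x => x ^ j * f x) (Ioi 0)) {d : ℝ}
    (hd : 0 < d) : IntegrableOn (fun x => x ^ j * f (d * x)) (Ioi 0) := by
  have := ((integrableOn_Ioi_comp_mul_left_iff (fun x => x ^ j * f x) 0 hd).2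
    (by simpa using h)).const_mul (d ^ j)⁻¹
  refine IntegrableOn.congr_fun this (fun x _ => ?_) measurableSet_Ioi
  simp only [mul_pow]; field_simp

lemma hasSum_mom0 (he : Sgn e) (ht : 0 < t) (j : ℕ) :
    HasSum (fun m : ℕ => 2 * (e ^ m * ((m : ℝ) ^ (2 * j + 1) * csch (m * t))))
      (mom e csch (2 * j + 1) 0 t) := by
  refine hs_congr (M_hasSum he (dec_csch 0 ht) 0 (2 * j + 1)).nat_add_neg (fun m => ?_) ?_
  · simp only [he.neg, zpow_natCast, Int.cast_natCast, Int.cast_neg, add_zero, neg_mul, csch_neg,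
      (odd_two_mul_add_one j).neg_pow]
    ring
  · simp [mom]

noncomputable def Zf (x : ℝ) : ℝ := ∑' m : ℕ, m * csch (m * x)

lemma hasSum_Zf (hx : 0 < x) : HasSum (fun m : ℕ => m * csch (m * x)) (Zf x) :=
  (((hasSum_mom0 sgn_one hx 0).summable.mul_left (1 / 2)).congr fun m => by simp).hasSum

lemma hasSum_Zf' (hx : 0 < x) : HasSum (fun m : ℕ => (m + 1 : ℕ) * csch ((m + 1 : ℕ) * x)) (Zf x) :=
  (hs_shift (F := fun m : ℕ => m * csch (m * x)) (by simp)).2 (hasSum_Zf hx)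

lemma hasSum_Zf_ind (hx : 0 < x) {d : ℕ} (hd : 0 < d) :
    HasSum (fun m : ℕ => ind d m * (m * csch (m * x))) (d * Zf (d * x)) :=
  hasSum_ind hd (hs_congr ((hasSum_Zf (mul_pos (Nat.cast_pos.2 hd) hx)).mul_left (d : ℝ))
    (fun m => by push_cast; ring_nf) rfl)

lemma inv_one_sub_exp_le {c : ℝ} (hc : 0 < c) : (1 - exp (-c))⁻¹ ≤ 1 + c⁻¹ := by
  have h1 : exp (-c) < 1 := exp_lt_one_iff.2 (by linarith)
  have h5 : exp (-c) ≤ (1 + c)⁻¹ := by
    rw [exp_neg]; exact inv_anti₀ (by positivity) (by linarith [add_one_le_exp c])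
  rw [inv_le_comm₀ (by linarith) (by positivity)]
  have : (1 + c⁻¹)⁻¹ = 1 - (1 + c)⁻¹ := by field_simp; ring
  linarith

lemma Zf_term_nonneg (hx : 0 < x) (m : ℕ) : 0 ≤ (m + 1 : ℕ) * csch ((m + 1 : ℕ) * x) :=
  (mul_pos (by positivity) (csch_pos (by positivity))).le

lemma Zf_nonneg (hx : 0 < x) : 0 ≤ Zf x := (hasSum_Zf' hx).nonneg (Zf_term_nonneg hx)

lemma gd_Zf : Gd 2 Zf := by
  refine ⟨fun x hx => ?_, 10, 1 / 2, by norm_num, by norm_num, fun x hx => ?_⟩
  · have hx2 : 0 < x / 2 := half_pos hx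
    have h := continuousOn_tsum (s := Ioi (x / 2))
      (f := fun (m : ℕ) y => (m + 1 : ℕ) * csch ((m + 1 : ℕ) * y)) (fun m y hy => ?_)
      (hasSum_Zf' hx2).summable fun m y hy => ?_
    · refine ((h.congr fun y hy => (hasSum_Zf' (hx2.trans hy)).tsum_eq.symm).continuousAt
        (Ioi_mem_nhds (half_lt_self hx))).continuousWithinAt
    · have : ((m + 1 : ℕ) : ℝ) * y ≠ 0 := mul_ne_zero (by positivity) (hx2.trans hy).ne'
      exact (continuousAt_const.mul ((hasDerivAt_csch this).continuousAt.comp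
        (f := fun y => ((m + 1 : ℕ) : ℝ) * y) (by fun_prop))).continuousWithinAt
    · rw [Real.norm_of_nonneg (Zf_term_nonneg (hx2.trans hy) m)]
      gcongr
      exact (csch_anti (by positivity) (by gcongr; exact hy)).le
  · have h1 : exp (-(x / 2)) < 1 := exp_lt_one_iff.2 (by linarith)
    have h := (hasSum_geometric_of_lt_one (exp_pos _).le h1).mul_left (5 * x⁻¹ * exp (-(x / 2)))
    rw [abs_of_nonneg (Zf_nonneg hx)]
    refine (hasSum_le (fun m => ?_) (hasSum_Zf' hx) h).trans ?_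
    · have h2 := sig_le ((m + 1 : ℕ) * x)
      have h3 : 0 < ((m + 1 : ℕ) : ℝ) * x := by positivity
      rw [sig_of_ne h3.ne', abs_of_pos h3] at h2
      rw [mul_assoc, ← pow_succ', ← exp_nat_mul,
        show ((m + 1 : ℕ) : ℝ) * -(x / 2) = -((m + 1 : ℕ) * x) / 2 by ring]
      calc _ = x⁻¹ * ((m + 1 : ℕ) * x * csch ((m + 1 : ℕ) * x)) := by field_simp
        _ ≤ x⁻¹ * (5 * exp (-((m + 1 : ℕ) * x) / 2)) := by gcongr
        _ = _ := by ring
    · have h2 := inv_one_sub_exp_le (half_pos hx)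
      have h3 : (x / 2)⁻¹ = 2 * x⁻¹ := by field_simp
      have h4 : 0 < x⁻¹ := by positivity
      rw [show -(1 / 2 * x) = -(x / 2) by ring]
      calc _ ≤ 5 * (1 + x⁻¹) * exp (-(x / 2)) * (2 * (1 + x⁻¹)) := by
            gcongr <;> linarith
        _ = _ := by ring

lemma mellin_Zf {j : ℕ} (hj : 2 ≤ j) : ∫ x in Ioi 0, x ^ j * Zf x =
    zt j * (2 * j.factorial * ((1 - 1 / 2 ^ (j + 1)) * zt (j + 1))) := by
  have h0 := mellin_csch (j := j) (by omega)
  have h1 := (hasSum_zt' hj).mul_right (∫ x in Ioi 0, x ^ j * csch x)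
  have h2 : ∀ m : ℕ, ((m + 1 : ℕ) : ℝ) * ((((m + 1 : ℕ) : ℝ) ^ (j + 1))⁻¹ *
      ∫ x in Ioi 0, x ^ j * csch x) = 1 / ((m + 1 : ℕ) : ℝ) ^ j * ∫ x in Ioi 0, x ^ j * csch x :=
    fun m => by field_simp; ring
  have h := int_series' (g := fun (m : ℕ) x => x ^ j * csch ((m + 1 : ℕ) * x))
    (c := fun m => (m + 1 : ℕ)) (f := fun x => x ^ j * Zf x)
    (fun x hx => hs_congr ((hasSum_Zf' hx).mul_left (x ^ j)) (fun n => by ring) rfl)
    (fun n => ⟨int_scale h0.1 (by positivity), mellin_scale j _ (by positivity)⟩)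
    (fun n x hx => (mul_pos (by positivity) (csch_pos (by positivity))).le)
    (h1.summable.congr fun n => by rw [Nat.abs_cast, h2])
  rw [← h0.2]
  exact h.2.unique (hs_congr h1 h2 rfl)

lemma mellin_Zf2 : ∫ x in Ioi 0, x ^ 2 * Zf x = 7 / 12 * π ^ 2 * zt 3 := by
  rw [mellin_Zf le_rfl, zt_two]; norm_num [Nat.factorial]; ring

lemma mellin_Zf3 : ∫ x in Ioi 0, x ^ 3 * Zf x = 1 / 8 * π ^ 4 * zt 3 := by
  rw [mellin_Zf (by norm_num), zt_four]; norm_num [Nat.factorial]; ring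

end Pool.Agent.Lib.MP_870895_nt
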