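import Pool.Agent.Lib.MP_870895_nt.Elem

set_option autoImplicit false

open Real Filter Topology Set MeasureTheory

namespace Pool.Agent.Lib.MP_870895_nt

variable {e t x : ℝ}

noncomputable def km (w : ℝ) : ℝ :=
  -(exp (-w) * (1 - 4 * exp (-w) + exp (-w) ^ 2) / (1 + exp (-w)) ^ 4)

lemma hasSum_km (hx : 0 < x) :
    HasSum (fun d : ℕ => (-1) ^ d * ((d : ℝ) ^ 3 * exp (-(d * x)))) (km x) := by
  have hr : ‖-exp (-x)‖ < 1 := by
    rw [norm_neg, Real.norm_of_nonneg (exp_pos _).le]; exact exp_lt_one_iff.2 (by linarith)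
  have h := fun k => hasSum_choose_mul_geometric_of_norm_lt_one k hr
  refine hs_congr (((((h 3).mul_left 6).sub ((h 2).mul_left 12)).add ((h 1).mul_left 7)).sub (h 0))
    (fun d => ?_) ?_
  · have h3 := congrArg (Nat.cast : ℕ → ℝ) (Nat.ascFactorial_eq_factorial_mul_choose d 3)
    have h2 := congrArg (Nat.cast : ℕ → ℝ) (Nat.ascFactorial_eq_factorial_mul_choose d 2)
    simp only [Nat.ascFactorial, Nat.factorial] at h3 h2
    push_cast at h3 h2
    rw [neg_pow (exp (-x)), ← exp_nat_mul, mul_neg]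
    simp only [Nat.choose_one_right, Nat.choose_zero_right]
    push_cast
    linear_combination ((-1) ^ d * exp (-(d * x))) * (h3 - 6 * h2)
  · have : 1 + exp (-x) ≠ 0 := by positivity
    rw [km, sub_neg_eq_add]; field_simp; ring

lemma km_le (hx : 0 < x) : |km x| ≤ 6 * exp (-x) := by
  have h0 := exp_pos (-x)
  have h1 : exp (-x) < 1 := exp_lt_one_iff.2 (by linarith)
  rw [km, abs_neg, abs_div, abs_mul, abs_of_pos h0, 
    abs_of_pos (by positivity : 0 < (1 + exp (-x)) ^ 4),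
    div_le_iff₀ (by positivity)]
  have h2 : |1 - 4 * exp (-x) + exp (-x) ^ 2| ≤ 6 := by rw [abs_le]; constructor <;> nlinarith
  have h3 : 1 ≤ (1 + exp (-x)) ^ 4 := one_le_pow₀ (by linarith)
  nlinarith

lemma continuous_km : Continuous km := by
  unfold km
  refine (Continuous.div (by fun_prop) (by fun_prop) fun x => by positivity).neg

lemma gd_km : Gd 0 km :=
  ⟨continuous_km.continuousOn, 6, 1, by norm_num, one_pos, fun x hx => by simpa using km_le hx⟩

lemma int_km : ∫ x in Ioi 0, x ^ 2 * km x = -1 := by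
  have h := integral_Ioi_of_hasDerivAt_of_tendsto' (a := 0) (m := 0)
    (f := fun w => w ^ 2 * exp (-w) * ((1 - exp (-w)) / (1 + exp (-w)) ^ 3) +
      2 * (w ^ 1 * exp (-w)) / (1 + exp (-w)) ^ 2 + 2 * exp (-w) / (1 + exp (-w)))
    (fun w _ => ?_) (gd_km.int (Nat.zero_le 2)) ?_
  · rw [h]; norm_num
  · have hq : HasDerivAt (fun w => exp (-w)) (exp (-w) * -1) w := (hasDerivAt_neg w).exp
    have h0 : 1 + exp (-w) ≠ 0 := by positivity
    have h1 := hq.const_add 1
    refine (((((hasDerivAt_pow 2 w).mul hq).mul ((hq.const_sub 1).div (h1.pow 3)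
      (pow_ne_zero _ h0))).add ((((hasDerivAt_pow 1 w).mul hq).const_mul 2).div (h1.pow 2)
      (pow_ne_zero _ h0))).add ((hq.const_mul 2).div h1 h0)).congr_deriv ?_
    simp only [km, Pi.mul_apply, Pi.pow_apply, Pi.div_apply]
    push_cast
    field_simp; ring
  · have h0 := tendsto_exp_neg_atTop_nhds_zero
    have h1 := tendsto_pow_mul_exp_neg_atTop_nhds_zero
    have h2 := h0.const_add 1
    have := (((h1 2).mul ((h0.const_sub 1).div (h2.pow 3) (by norm_num))).add
      (((h1 1).const_mul 2).div (h2.pow 2) (by norm_num))).add ((h0.const_mul 2).div h2 (by norm_num))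
    simpa using this

lemma hasSum_c2_km (ht : 0 < t) : HasSum (fun n : ℕ => 4 * km ((2 * n + 1) * t)) (c2 (-1) t) := by
  have h1 : ∀ d : ℕ, HasSum (fun n : ℕ => 4 * ((d : ℝ) ^ 3 * exp (-(d * ((2 * n + 1) * t)))))
      (2 * (d ^ 3 * csch (d * t))) := fun d => by
    rcases Nat.eq_zero_or_pos d with rfl | hd
    · simp
    · exact hs_congr ((hasSum_csch (mul_pos (Nat.cast_pos.2 hd) ht)).mul_left (2 * (d : ℝ) ^ 3))
        (fun n => by ring_nf) (by ring)
  have h2 : Summable fun p : ℕ × ℕ => 4 * ((p.1 : ℝ) ^ 3 * exp (-(p.1 * ((2 * p.2 + 1) * t)))) := by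
    rw [summable_prod_of_nonneg fun p => by positivity]
    refine ⟨fun d => (h1 d).summable, (hasSum_mom0 sgn_one ht 1).summable.congr fun d => ?_⟩
    rw [(h1 d).tsum_eq]; simp
  have h3 : Summable fun p : ℕ × ℕ =>
      (-1) ^ p.1 * (4 * ((p.1 : ℝ) ^ 3 * exp (-(p.1 * ((2 * p.2 + 1) * t))))) :=
    Summable.of_norm_bounded h2 fun p => by
      rw [norm_mul, norm_pow, norm_neg, norm_one, one_pow, one_mul,
        Real.norm_of_nonneg (by positivity)]
  have h4 := (h3.hasSum.prod_fiberwise fun d => (h1 d).mul_left ((-1) ^ d)).unique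
    (hs_congr (hasSum_mom0 sgn_neg_one ht 1) (fun d => by ring) rfl)
  rw [c2, ← h4]
  exact ((Equiv.prodComm ℕ ℕ).hasSum_iff.2 h3.hasSum).prod_fiberwise fun n =>
    hs_congr ((hasSum_km (by positivity)).mul_left 4) (fun d => by simp; ring) rfl

lemma int_Ia : ∫ t in Ioi 0, t ^ 2 * c2 (-1) t = -(7 / 2) * zt 3 ∧
    IntegrableOn (fun t => t ^ 2 * c2 (-1) t) (Ioi 0) := by
  have h0 := hasSum_zt_odd (s := 3) (by norm_num)
  have h := int_series (F := fun (n : ℕ) t => 4 * (t ^ 2 * km ((2 * n + 1) * t)))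
    (f := fun t => t ^ 2 * c2 (-1) t)
    (fun t ht => hs_congr ((hasSum_c2_km ht).mul_left (t ^ 2)) (fun n => by ring) rfl)
    (fun n => (int_scale (gd_km.int (Nat.zero_le 2)) (by positivity)).const_mul 4)
    ((h0.summable.mul_right (4 * ∫ x in Ioi 0, x ^ 2 * |km x|)).congr fun n => by
      have := mellin_scale 2 (fun x => |km x|) (d := 2 * n + 1) (by positivity)
      simp only [norm_mul, norm_pow, Real.norm_eq_abs, sq_abs]
      rw [integral_const_mul, this]; norm_num; ring)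
  refine ⟨h.2.unique (hs_congr (h0.mul_left (-4)) (fun n => ?_) (by ring)), h.1⟩
  rw [integral_const_mul, mellin_scale 2 km (by positivity), int_km]; ring

lemma c2_rel (ht : 0 < t) : c2 (-1) t = 16 * c2 1 (2 * t) - c2 1 t := by
  have h1 := hasSum_ind (f := fun m => 4 * ((m : ℝ) ^ 3 * csch (m * t))) two_pos
    (hs_congr ((hasSum_mom0 sgn_one (mul_pos two_pos ht) 1).mul_left 16)
      (fun m => by push_cast; ring_nf) rfl)
  refine (hasSum_mom0 sgn_neg_one ht 1).unique (hs_congr (h1.sub (hasSum_mom0 sgn_one ht 1))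
    (fun m => ?_) rfl)
  rw [neg_one_pow_ind]; ring

lemma sum_s2_le (n : ℕ) : ∃ C, 0 ≤ C ∧ ∀ t, 0 < t →
    ∑' m : ℕ, s2 (π ^ 2 / (2 * t) * (m + 1 : ℕ)) ≤ C * t ^ (n + 1) := by
  refine ⟨4 * (n + 1).factorial / (π ^ 2) ^ (n + 1), by positivity, fun t ht => ?_⟩
  refine (tsum_s2_le (by positivity) n).trans (le_of_eq ?_)
  rw [show 2 * (π ^ 2 / (2 * t)) = π ^ 2 / t by field_simp, div_pow]
  field_simp

lemma av_le (he : Sgn e) (n : ℕ) : ∃ C, 0 ≤ C ∧ ∀ v t, 0 < t →
    |t * mom e sig 0 v t - kap e| ≤ C * t ^ (n + 1) := by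
  obtain ⟨C, hC0, hC⟩ := sum_s2_le n
  refine ⟨π ^ 2 * C, by positivity, fun v t ht => ?_⟩
  have h1 := tsum_of_norm_bounded ((summable_s2_nat (c := π ^ 2 / (2 * t))
    (by positivity)).mul_left (π ^ 2)).hasSum (f := fun m : ℕ => π ^ 2 * (iot e (m + 1) *
      cos (π * (m + 1 : ℕ) * v) * s2 (π ^ 2 / (2 * t) * (m + 1 : ℕ)))) fun m => by
    rw [Real.norm_eq_abs, abs_mul, abs_mul, abs_mul, abs_of_pos (s2_pos _),
      abs_of_pos (by positivity : 0 < π ^ 2)]
    have h1 := abs_iot_le he (m + 1)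
    have h2 := abs_cos_le_one (π * (m + 1 : ℕ) * v)
    have h3 := s2_pos (π ^ 2 / (2 * t) * (m + 1 : ℕ))
    calc _ ≤ π ^ 2 * (1 * 1 * s2 (π ^ 2 / (2 * t) * (m + 1 : ℕ))) := by gcongr
      _ = _ := by ring
  rw [(poisson he v ht).tsum_eq, tsum_mul_left] at h1
  refine h1.trans ?_
  rw [mul_assoc]; gcongr; exact hC t ht

noncomputable def F2 (t : ℝ) : ℝ := t ^ 2 * c2 1 t - kap 1 ^ 2 / t ^ 2

lemma int_F2 : IntegrableOn F2 (Ioi 0) := by
  have hc : ContinuousOn F2 (Ioi 0) := ((continuousOn_pow 2).mul (gd_c2 sgn_one).1).sub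
    (continuousOn_const.div (continuousOn_pow 2) fun t ht => pow_ne_zero 2 (ne_of_gt ht))
  rw [← Ioc_union_Ioi_eq_Ioi zero_le_one]
  refine IntegrableOn.union ?_ ?_
  · obtain ⟨C, hC0, hC⟩ := av_le sgn_one 1
    refine (integrableOn_const (C := C * (C + 2 * |kap 1|)) (by simp)).mono'
      ((hc.mono Ioc_subset_Ioi_self).aestronglyMeasurable measurableSet_Ioc) ?_
    filter_upwards [ae_restrict_mem measurableSet_Ioc] with t ht
    have hn : NI (1 / 2) := ni_of_Ioo ⟨by norm_num, by norm_num⟩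
    have h1 := CCd sgn_one ht.1 hn
    have h2 := U_half (t := t) sgn_one 0
    have h3 := hC (1 / 2) t ht.1
    have h0 := ht.1
    rw [show mom 1 csch 0 (1 / 2) t = 0 by linarith] at h1
    rw [mom_sig_zero 1 hn ht.1] at h3
    set a := t * (t * mom 1 csch 1 (1 / 2) t) - kap 1 with ha
    have h4 : F2 t = a / t ^ 2 * (a + 2 * kap 1) := by
      rw [F2, c2, ← h1, ha]; field_simp; ring
    have h5 : |a| ≤ C := h3.trans (mul_le_of_le_one_right hC0 (pow_le_one₀ h0.le ht.2))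
    rw [h4, Real.norm_eq_abs, abs_mul, abs_div, abs_of_pos (pow_pos h0 2)]
    refine mul_le_mul (by rw [div_le_iff₀ (pow_pos h0 2)]; exact h3) ((abs_add_le _ _).trans ?_)
      (abs_nonneg _) hC0
    rw [abs_mul, abs_two]; linarith
  · refine IntegrableOn.sub ?_ ?_
    · have h1 := ((gd_c2 sgn_one).int le_rfl).mono_set (Ioi_subset_Ioi zero_le_one)
      refine h1.norm.mono' ((((continuousOn_pow 2).mul (gd_c2 sgn_one).1).mono
        (Ioi_subset_Ioi zero_le_one)).aestronglyMeasurable measurableSet_Ioi) ?_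
      filter_upwards [ae_restrict_mem measurableSet_Ioi] with t ht
      have h2 : (1 : ℝ) ≤ t := le_of_lt ht
      rw [norm_mul, norm_mul, norm_pow, norm_pow, Real.norm_of_nonneg (by linarith)]
      gcongr; norm_num
    · refine IntegrableOn.congr_fun ((integrableOn_Ioi_rpow_of_lt (a := -2) (by norm_num)
        one_pos).const_mul (kap 1 ^ 2)) (fun t ht => ?_) measurableSet_Ioi
      simp only [rpow_neg (zero_le_one.trans (le_of_lt ht)), rpow_two, div_eq_mul_inv]

lemma int_Ib : ∫ t in Ioi 0, F2 t = -(7 / 2) * zt 3 := by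
  have h1 := mellin_scale 0 F2 two_pos
  have h2 := int_scale (j := 0) (f := F2) (by simpa using int_F2) two_pos
  simp only [pow_zero, one_mul, zero_add, pow_one] at h1 h2
  rw [← int_Ia.1, setIntegral_congr_fun (f := fun t => t ^ 2 * c2 (-1) t) measurableSet_Ioi
    (g := fun t => 4 * F2 (2 * t) - F2 t)
    fun t ht => ?_, integral_sub (h2.const_mul 4) int_F2, integral_const_mul, h1]
  · ring
  · have : t ≠ 0 := ne_of_gt ht
    simp only [c2_rel ht, F2]; field_simp; ring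

lemma int_s2 : IntegrableOn s2 (Ioi 0) ∧ ∫ x in Ioi 0, s2 x = 1 := by
  have hl : Tendsto th atTop (𝓝 1) := by
    have h : Tendsto (fun u => th u - 1) atTop (𝓝 0) := by
      refine squeeze_zero_norm (fun u => ?_) tendsto_exp_neg_atTop_nhds_zero
      rw [th_sub_one, norm_neg, Real.norm_of_nonneg (mul_pos (exp_pos _) (sech_pos _)).le]
      exact mul_le_of_le_one_right (exp_pos _).le (sech_le_one u)
    simpa using h.add_const 1
  refine ⟨integrableOn_Ioi_deriv_of_nonneg' (fun x _ => hasDerivAt_th x) (fun x _ => (s2_pos x).le) hl, ?_⟩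
  have := integral_Ioi_of_hasDerivAt_of_nonneg' (a := 0) (fun x _ => hasDerivAt_th x)
    (fun x _ => (s2_pos x).le) hl
  simpa [th, s2] using this

lemma int_s2_inv {c : ℝ} (hc : 0 < c) : IntegrableOn (fun t => s2 (c * t⁻¹) / t ^ 2) (Ioi 0) ∧
    ∫ t in Ioi 0, s2 (c * t⁻¹) / t ^ 2 = c⁻¹ := by
  have h0 : ∀ t ∈ Ioi (0 : ℝ), (|(-1 : ℝ)| * t ^ ((-1 : ℝ) - 1)) • s2 (c * t ^ (-1 : ℝ)) =
      s2 (c * t⁻¹) / t ^ 2 := fun t ht => by
    rw [rpow_neg_one, show (-1 : ℝ) - 1 = -2 by norm_num, rpow_neg (le_of_lt ht), rpow_two]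
    simp [div_eq_inv_mul]
  have h1 := (integrableOn_Ioi_comp_rpow_iff (fun y => s2 (c * y)) (p := -1) (by norm_num)).2
    ((integrableOn_Ioi_comp_mul_left_iff s2 0 hc).2 (by simpa using int_s2.1))
  have h2 := integral_comp_rpow_Ioi (fun y => s2 (c * y)) (p := -1) (by norm_num)
  rw [integral_comp_mul_left_Ioi s2 0 hc, mul_zero, int_s2.2, setIntegral_congr_fun measurableSet_Ioi h0] at h2
  exact ⟨h1.congr_fun h0 measurableSet_Ioi, by simpa using h2⟩

lemma hasSum_ind_zt {s : ℕ} (hs : 2 ≤ s) {d : ℕ} (hd : 0 < d) :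
    HasSum (fun n : ℕ => ind d n * (1 / (n : ℝ) ^ s)) (1 / (d : ℝ) ^ s * zt s) :=
  hasSum_ind hd (hasSum_zt_mul hs d)

lemma int_Bb : IntegrableOn (fun t => bet 1 t / t ^ 2) (Ioi 0) ∧
    ∫ t in Ioi 0, bet 1 t / t ^ 2 = 11 / (144 * π ^ 2) * zt 3 := by
  have h3 : (2 : ℕ) ≤ 3 := by norm_num
  have h1 : HasSum (fun m : ℕ => gam 1 m * (1 / (m : ℝ) ^ 3)) (11 / 288 * zt 3) :=
    hs_congr ((((hasSum_ind_zt h3 (d := 2) (by norm_num)).mul_left (1 / 2)).add
      ((hasSum_ind_zt h3 (d := 6) (by norm_num)).mul_left (3 / 2))).sub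
      ((hasSum_ind_zt h3 (d := 4) (by norm_num)).mul_left 2)) (fun m => by rw [gam_one]; ring)
      (by push_cast; ring)
  have h2 := ((hs_shift (F := fun m : ℕ => gam 1 m * (1 / (m : ℝ) ^ 3)) (by simp)).2 h1).mul_left
    (2 / π ^ 2)
  have h := int_series' (g := fun (m : ℕ) t => s2 (π ^ 2 / 2 * (m + 1 : ℕ) * t⁻¹) / t ^ 2)
    (c := fun m => gam 1 (m + 1) / ((m + 1 : ℕ) : ℝ) ^ 2) (f := fun t => bet 1 t / t ^ 2)
    (fun t ht => hs_congr ((hasSum_bet sgn_one ht).div_const (t ^ 2)) (fun n => by ring_nf) rfl)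
    (fun n => int_s2_inv (by positivity))
    (fun n x hx => (div_pos (s2_pos _) (by positivity)).le)
    (h2.summable.abs.congr fun n => by
      simp only [abs_mul, abs_div, abs_pow, Nat.abs_cast, abs_two, abs_one, abs_of_pos pi_pos]
      field_simp)
  exact ⟨h.1, h.2.unique (hs_congr h2 (fun n => by field_simp) (by field_simp; ring))⟩

end Pool.Agent.Lib.MP_870895_nt
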