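import Pool.Agent.Lib.MP_870895_nt.ModId

set_option autoImplicit false

open Real Filter Topology Set Asymptotics ModularForm
open Complex (I)
open scoped UpperHalfPlane

namespace Pool.Agent.Lib.MP_870895_nt

variable {z : ℂ} {x : ℝ}

lemma hasDerivAt_eta (hz : 0 < z.im) : HasDerivAt eta (π * I / 12 * EE z * eta z) z := by
  have h := logDeriv_eta_eq_E2 ⟨z, hz⟩
  rw [← EE_eq, logDeriv_apply, div_eq_iff (eta_ne_zero hz)] at h
  exact (differentiableAt_eta_of_mem_upperHalfPlaneSet hz).hasDerivAt.congr_deriv h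

lemma hasDerivAt_etaN (N : ℕ) [NeZero N] (hz : 0 < z.im) :
    HasDerivAt (fun w => eta (N * w) ^ 2) (π * I / 6 * (N * eN N z) * eta (N * z) ^ 2) z :=
  (((hasDerivAt_eta (im_mul_pos (NeZero.pos N) hz)).comp z
    ((hasDerivAt_id z).const_mul (N : ℂ))).pow 2).congr_deriv (by simp [eN]; ring)

noncomputable def PE (z : ℂ) : ℂ := eta ((1 : ℕ) * z) ^ 2 * eta ((2 : ℕ) * z) ^ 2 *
  eta ((3 : ℕ) * z) ^ 2 * eta ((6 : ℕ) * z) ^ 2

lemma PE_ne (hz : 0 < z.im) : PE z ≠ 0 := by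
  have h : ∀ N : ℕ, 0 < N → eta (N * z) ^ 2 ≠ 0 := fun N hN =>
    pow_ne_zero _ (eta_ne_zero (im_mul_pos hN hz))
  exact mul_ne_zero (mul_ne_zero (mul_ne_zero (h 1 (by norm_num)) (h 2 (by norm_num)))
    (h 3 (by norm_num))) (h 6 (by norm_num))

lemma hasDerivAt_PE (hz : 0 < z.im) :
    HasDerivAt PE (π * I / 6 * (eN 1 z + 2 * eN 2 z + 3 * eN 3 z + 6 * eN 6 z) * PE z) z := by
  refine ((((hasDerivAt_etaN 1 hz).mul (hasDerivAt_etaN 2 hz)).mul (hasDerivAt_etaN 3 hz)).mul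
    (hasDerivAt_etaN 6 hz)).congr_deriv ?_
  simp only [PE, Pi.mul_apply]
  generalize eta ((1 : ℕ) * z) = a; generalize eta ((2 : ℕ) * z) = b
  generalize eta ((3 : ℕ) * z) = c; generalize eta ((6 : ℕ) * z) = d
  push_cast; ring

noncomputable def TP (q : ℂ) : ℂ := ∏' n : ℕ, (1 - q ^ (n + 1))

lemma eta_eq (z : ℂ) : eta z = Complex.exp (2 * π * I * z / 24) * TP (qq z) := by
  simp only [eta, eta_q_eq_pow, TP, qq, Function.Periodic.qParam]; rfl

lemma PE_eq (z : ℂ) : PE z = qq z * (TP (qq z ^ 1) * TP (qq z ^ 2) * TP (qq z ^ 3) *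
    TP (qq z ^ 6)) ^ 2 := by
  have h : qq z = Complex.exp (2 * π * I * z / 24) ^ 24 := by
    rw [← Complex.exp_nat_mul, qq]; congr 1; push_cast; ring
  have h2 : ∀ N : ℕ, Complex.exp (2 * π * I * (N * z) / 24) = Complex.exp (2 * π * I * z / 24) ^ N :=
    fun N => by rw [← Complex.exp_nat_mul]; congr 1; ring
  simp only [PE, eta_eq, qq_mul, h2]
  generalize TP (qq z ^ 1) = a; generalize TP (qq z ^ 2) = b
  generalize TP (qq z ^ 3) = c; generalize TP (qq z ^ 6) = d
  rw [h]; ring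

noncomputable def zz (x : ℝ) : ℂ := I * (x / (2 * π) : ℝ)

lemma zz_im (x : ℝ) : (zz x).im = x / (2 * π) := by
  rw [zz, Complex.I_mul_im, Complex.ofReal_re]

lemma zz_pos (hx : 0 < x) : 0 < (zz x).im := by rw [zz_im]; positivity

lemma zz_mul (N : ℕ) (x : ℝ) : N * zz x = zz (N * x) := by simp only [zz]; push_cast; ring

lemma two_pi_zz (x : ℝ) : 2 * π * I * zz x = -x := by
  have hp : (π : ℂ) ≠ 0 := by exact_mod_cast pi_pos.ne'
  simp only [zz]; push_cast; field_simp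
  linear_combination (x : ℂ) * Complex.I_mul_I

lemma qq_zz (x : ℝ) : qq (zz x) = (exp (-x) : ℝ) := by rw [qq, two_pi_zz]; simp

lemma gg_eq (hz : 0 < z.im) : gg z = 288 * PE z := by
  have hd : ∀ w : ℂ, 0 < w.im → HasDerivAt (fun w => gg w / PE w) 0 w := fun w hw =>
    ((hasDerivAt_gg hw).div (hasDerivAt_PE hw) (PE_ne hw)).congr_deriv (by ring)
  obtain ⟨c, hc⟩ := (isOpen_im 0).exists_is_const_of_deriv_eq_zero
    (convex_halfSpace_im_gt 0).isPreconnected (f := fun w => gg w / PE w)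
    (fun w hw => (hd w hw).differentiableAt.differentiableWithinAt) fun w hw => (hd w hw).deriv
  have hq : Tendsto (fun x : ℝ => qq (zz x)) atTop (𝓝 0) := by
    simp only [qq_zz]
    exact_mod_cast (Complex.continuous_ofReal.tendsto 0).comp tendsto_exp_neg_atTop_nhds_zero
  have hT : Tendsto TP (𝓝 0) (𝓝 1) := by
    have := (differentiableOn_tprod_one_sub_pow.differentiableAt
      (Metric.ball_mem_nhds (0 : ℂ) one_pos)).continuousAt
    unfold TP
    simpa [ContinuousAt] using this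
  have hN : ∀ N : ℕ, N ≠ 0 → Tendsto (fun x : ℝ => TP (qq (zz x) ^ N)) atTop (𝓝 1) := fun N hN =>
    hT.comp (by simpa [hN] using hq.pow N)
  have h1 := ((((hN 1 (by norm_num)).mul (hN 2 (by norm_num))).mul (hN 3 (by norm_num))).mul
    (hN 6 (by norm_num))).pow 2
  obtain ⟨C, hC⟩ := gg_decay
  have hq0 : ∀ w, qq w ≠ 0 := fun w => Complex.exp_ne_zero _
  have h2 : Tendsto (fun x : ℝ => (gg (zz x) - 288 * qq (zz x)) / qq (zz x)) atTop (𝓝 0) := by
    have h3 := hq.norm.const_mul C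
    rw [norm_zero, mul_zero] at h3
    refine squeeze_zero_norm' ?_ h3
    filter_upwards [eventually_ge_atTop (2 * π)] with x hx
    rw [norm_div, div_le_iff₀ (norm_pos_iff.2 (hq0 _)), mul_assoc, ← sq]
    exact hC _ (by rw [zz_im, one_le_div (by positivity)]; exact hx)
  have h3 := (h2.add_const 288).div h1 (by norm_num)
  have h4 : c = 288 := by
    refine tendsto_nhds_unique (tendsto_const_nhds (f := atTop (α := ℝ))) ?_
    refine (show (0 + 288 : ℂ) / (1 * 1 * 1 * 1) ^ 2 = 288 by norm_num) ▸ h3.congr' ?_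
    filter_upwards [eventually_gt_atTop 0] with x hx
    rw [← hc _ (zz_pos hx), PE_eq, ← div_div, Pi.div_apply]
    congr 1
    have := hq0 (zz x)
    field_simp; ring
  rw [← h4, ← hc z hz, div_mul_cancel₀ _ (PE_ne hz)]

noncomputable def etaR (s : ℝ) : ℝ := exp (-s / 24) * ∏' n : ℕ, (1 - exp (-((n : ℝ) + 1) * s))

lemma eta_zz (s : ℝ) : eta (zz s) = etaR s := by
  have h := Topology.IsClosedEmbedding.map_tprod (g := Complex.ofRealHom)
    (fun n : ℕ => 1 - exp (-((n : ℝ) + 1) * s)) (L := SummationFilter.unconditional ℕ)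
    Complex.isometry_ofReal.isClosedEmbedding
  rw [eta_eq, two_pi_zz, qq_zz, etaR, Complex.ofReal_mul]
  congr 1
  · simp
  · refine (tprod_congr fun n => ?_).trans h.symm
    rw [Complex.ofRealHom_eq_coe, Complex.ofReal_sub, ← Complex.ofReal_pow, ← exp_nat_mul]
    push_cast; ring_nf

noncomputable def FR (t : ℝ) : ℝ := etaR t ^ 2 * etaR (2 * t) ^ 2 * etaR (3 * t) ^ 2 * etaR (6 * t) ^ 2

lemma PE_zz (x : ℝ) : PE (zz x) = FR x := by
  simp only [PE, zz_mul, eta_zz, FR]; push_cast; rw [one_mul]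

end Pool.Agent.Lib.MP_870895_nt
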