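import Pool.Agent.Lib.MP_870895_nt.Eta

set_option autoImplicit false

open Real Filter Topology Set MeasureTheory
open scoped ArithmeticFunction.sigma

namespace Pool.Agent.Lib.MP_870895_nt

variable {x : ℝ}

/-- real series with coefficients `n ^ i * σ n` -/
noncomputable def Sr (i : ℕ) (x : ℝ) : ℝ := ∑' n : ℕ, (n : ℝ) ^ i * (σ 1 n : ℕ) * exp (-x) ^ n

lemma Sr_term_le (i n : ℕ) (x : ℝ) : ((n + 1 : ℕ) : ℝ) ^ i * (σ 1 (n + 1) : ℕ) * exp (-x) ^ (n + 1) ≤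
    exp (-x) * (((n : ℝ) + 1) ^ (i + 2) * exp (-x) ^ n) := by
  have h := sigma_le (n + 1)
  calc _ ≤ ((n + 1 : ℕ) : ℝ) ^ i * ((n + 1 : ℕ) : ℝ) ^ 2 * exp (-x) ^ (n + 1) := by gcongr
    _ = _ := by push_cast; ring

lemma hasSum_Sr' (i : ℕ) (hx : 0 < x) : HasSum
    (fun n : ℕ => ((n + 1 : ℕ) : ℝ) ^ i * (σ 1 (n + 1) : ℕ) * exp (-x) ^ (n + 1)) (Sr i x) := by
  have h := Summable.of_nonneg_of_le (fun n => by positivity) (fun n => Sr_term_le i n x)
    ((geo_bound (i + 2) hx).1.mul_left _)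
  exact (hs_shift (F := fun n : ℕ => (n : ℝ) ^ i * (σ 1 n : ℕ) * exp (-x) ^ n) (by simp)).2
    ((summable_nat_add_iff (f := fun n : ℕ => (n : ℝ) ^ i * (σ 1 n : ℕ) * exp (-x) ^ n) 1).1 h).hasSum

lemma hasSum_Sr (i : ℕ) (hx : 0 < x) :
    HasSum (fun n : ℕ => (n : ℝ) ^ i * (σ 1 n : ℕ) * exp (-x) ^ n) (Sr i x) :=
  (hs_shift (F := fun n : ℕ => (n : ℝ) ^ i * (σ 1 n : ℕ) * exp (-x) ^ n) (by simp)).1 (hasSum_Sr' i hx)

lemma EE_zz (hx : 0 < x) : EE (zz x) = (1 - 24 * Sr 0 x : ℝ) := by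
  refine (rep_EE.2 _ (zz_pos hx)).unique (hs_congrC (Complex.hasSum_ofReal.2
    ((hasSum_ite_eq 0 1).sub ((hasSum_Sr 0 hx).mul_left 24))) (fun n => ?_) rfl)
  rw [qq_zz, cE]
  split_ifs with h
  · simp [h]
  · push_cast; ring

lemma DE_zz (hx : 0 < x) : DE (zz x) = (-24 * Sr 1 x : ℝ) := by
  refine (rep_DE.2 _ (zz_pos hx)).unique (hs_congrC (Complex.hasSum_ofReal.2
    ((hasSum_Sr 1 hx).mul_left (-24))) (fun n => ?_) rfl)
  rw [qq_zz, cD, cE]
  split_ifs with h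
  · simp [h]
  · push_cast; ring

lemma eN_zz (N : ℕ) [NeZero N] (hx : 0 < x) : eN N (zz x) = (1 - 24 * Sr 0 (N * x) : ℝ) := by
  rw [eN, zz_mul, EE_zz (mul_pos (Nat.cast_pos.2 (NeZero.pos N)) hx)]

lemma fN_zz (N : ℕ) [NeZero N] (hx : 0 < x) : fN N (zz x) = (N * (-24 * Sr 1 (N * x)) : ℝ) := by
  rw [fN, zz_mul, DE_zz (mul_pos (Nat.cast_pos.2 (NeZero.pos N)) hx)]; push_cast; rfl

lemma Sr_nonneg (i : ℕ) (x : ℝ) : 0 ≤ Sr i x := tsum_nonneg fun n => by positivity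

lemma gd_Sr (i : ℕ) : Gd (i + 3) (Sr i) := by
  refine ⟨fun x hx => ?_, (i + 2).factorial, 1, by positivity, one_pos, fun x hx => ?_⟩
  · have hx2 : 0 < x / 2 := half_pos hx
    have h := continuousOn_tsum (s := Ioi (x / 2))
      (f := fun (n : ℕ) y => (n : ℝ) ^ i * (σ 1 n : ℕ) * exp (-y) ^ n) (fun m => by fun_prop)
      (hasSum_Sr i hx2).summable fun m y hy => by
        rw [Real.norm_of_nonneg (by positivity)]
        have : x / 2 < y := hy
        gcongr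
    exact (h.continuousAt (Ioi_mem_nhds (half_lt_self hx))).continuousWithinAt
  · have h := geo_bound (i + 2) hx
    rw [abs_of_nonneg (Sr_nonneg i x), one_mul]
    refine (hasSum_le (fun n => Sr_term_le i n x) (hasSum_Sr' i hx) (h.1.hasSum.mul_left _)).trans ?_
    calc _ ≤ exp (-x) * ((i + 2).factorial * (1 + x⁻¹) ^ (i + 2 + 1)) := by gcongr; exact h.2
      _ = _ := by ring

lemma hasSum_lambert (hx : 0 < x) :
    HasSum (fun n : ℕ => (n : ℝ) * exp (-x) ^ n / (1 - exp (-x) ^ n)) (Sr 0 x) := by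
  have hr : ‖exp (-x)‖ < 1 := by
    rw [Real.norm_of_nonneg (exp_pos _).le]; exact exp_lt_one_iff.2 (by linarith)
  have h1 := summable_norm_pow_mul_geometric_div_one_sub 1 hr
  have h2 := tsum_pow_div_one_sub_eq_tsum_sigma hr 1
  rw [tsum_pnat_eq_tsum_succ (f := fun n : ℕ => (n : ℝ) ^ 1 * exp (-x) ^ n / (1 - exp (-x) ^ n)),
    tsum_pnat_eq_tsum_succ (f := fun n : ℕ => ((σ 1 n : ℕ) : ℝ) * exp (-x) ^ n)] at h2
  have h3 := (hasSum_Sr' 0 hx).tsum_eq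
  simp only [pow_zero, one_mul] at h3
  rw [h3] at h2
  simp only [pow_one] at h1 h2
  refine (hs_shift (F := fun n : ℕ => (n : ℝ) * exp (-x) ^ n / (1 - exp (-x) ^ n)) (by simp)).1 ?_
  rw [← h2]
  exact ((summable_nat_add_iff 1).2 h1).hasSum

lemma csch_eq {y : ℝ} (hy : 0 < y) : csch y = 2 * exp (-y) / (1 - exp (-y) ^ 2) := by
  have h1 : exp (-y) < 1 := exp_lt_one_iff.2 (by linarith)
  have h2 := exp_pos (-y)
  have h3 : 1 - exp (-y) ^ 2 ≠ 0 := by nlinarith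
  rw [csch, sinh_eq, show exp y = (exp (-y))⁻¹ by rw [exp_neg, inv_inv]]
  field_simp

lemma Zf_eq (hx : 0 < x) : Zf x = 2 * (Sr 0 x - Sr 0 (2 * x)) := by
  refine (hasSum_Zf hx).unique (hs_congr (((hasSum_lambert hx).sub
    (hasSum_lambert (mul_pos two_pos hx))).mul_left 2) (fun n => ?_) rfl)
  rcases Nat.eq_zero_or_pos n with rfl | hn
  · simp
  have hy : 0 < (n : ℝ) * x := by positivity
  have h1 : exp (-(n * x)) < 1 := exp_lt_one_iff.2 (by linarith)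
  have h2 := exp_pos (-(n * x))
  rw [csch_eq hy, ← exp_nat_mul (-x), ← exp_nat_mul (-(2 * x)), mul_neg,
    show n * -(2 * x) = (2 : ℕ) * -(n * x) by push_cast; ring, exp_nat_mul]
  generalize exp (-(n * x)) = r at h1 h2
  have h3 : 1 - r ^ 2 ≠ 0 := by nlinarith
  have h4 : 1 - r ≠ 0 := by linarith
  field_simp; ring

lemma gd_S : Gd 2 (Sr 0) := by
  refine gd_Zf.of_le (gd_Sr 0).1 fun x hx => ?_
  rw [abs_of_nonneg (Sr_nonneg 0 x), abs_of_nonneg (Zf_nonneg hx)]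
  refine hasSum_le (fun n => ?_) (hasSum_lambert hx) (hasSum_Zf hx)
  rcases Nat.eq_zero_or_pos n with rfl | hn
  · simp
  have hy : 0 < (n : ℝ) * x := by positivity
  have h1 : exp (-(n * x)) < 1 := exp_lt_one_iff.2 (by linarith)
  have h2 := exp_pos (-(n * x))
  rw [csch_eq hy, ← exp_nat_mul (-x), mul_neg, mul_div_assoc]
  generalize exp (-(n * x)) = r at h1 h2
  refine mul_le_mul_of_nonneg_left ?_ n.cast_nonneg
  rw [div_le_div_iff₀ (by linarith) (by nlinarith)]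
  nlinarith [mul_pos h2 (mul_pos (sub_pos.2 h1) (sub_pos.2 h1))]

lemma mellin_Sr (i : ℕ) : HasSum (fun n : ℕ => ((σ 1 (n + 1) : ℕ) : ℝ) / ((n + 1 : ℕ) : ℝ) ^ 4 *
    (i + 3).factorial) (∫ x in Ioi 0, x ^ (i + 3) * Sr i x) := by
  have h0 : ∀ n : ℕ, ((n + 1 : ℕ) : ℝ) ^ i * (σ 1 (n + 1) : ℕ) *
      ((i + 3).factorial / ((n + 1 : ℕ) : ℝ) ^ (i + 3 + 1)) =
      ((σ 1 (n + 1) : ℕ) : ℝ) / ((n + 1 : ℕ) : ℝ) ^ 4 * (i + 3).factorial := fun n => by
    field_simp; ring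
  refine hs_congr (int_series' (g := fun (n : ℕ) x => x ^ (i + 3) * exp (-((n + 1 : ℕ) * x)))
    (c := fun n => ((n + 1 : ℕ) : ℝ) ^ i * (σ 1 (n + 1) : ℕ)) (f := fun x => x ^ (i + 3) * Sr i x)
    (fun x hx => hs_congr ((hasSum_Sr' i hx).mul_left (x ^ (i + 3))) (fun n => by
      rw [← exp_nat_mul, mul_neg]; ring) rfl)
    (fun n => ⟨mellin_exp_int _ (by positivity), mellin_exp _ (by positivity)⟩)
    (fun n x hx => by positivity) ?_).2 (fun n => (h0 n).symm) rfl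
  refine Summable.of_nonneg_of_le (fun n => by positivity) (fun n => ?_)
    ((hasSum_zt' le_rfl).summable.mul_right ((i + 3).factorial : ℝ))
  rw [abs_of_nonneg (by positivity), h0]
  gcongr ?_ * _
  rw [div_le_div_iff₀ (by positivity) (by positivity)]
  calc _ ≤ ((n + 1 : ℕ) : ℝ) ^ 2 * ((n + 1 : ℕ) : ℝ) ^ 2 := by gcongr; exact sigma_le _
    _ = _ := by ring

lemma hi_T : HI (fun x => x ^ 4 * Sr 1 x) (4 / 15 * π ^ 4 * zt 3) := by
  have h1 := gd_S.hi (j := 3) (by norm_num)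
  have h2 := ((h1.sub (h1.scale two_pos)).smul 2).congr (g := fun x => x ^ 3 * Zf x)
    (fun x hx => by rw [Zf_eq hx]; ring) rfl
  have h3 := h2.2
  rw [mellin_Zf3] at h3
  have h4 := (mellin_Sr 1).unique (hs_congr ((mellin_Sr 0).mul_left 4)
    (fun n => by norm_num [Nat.factorial]; ring) rfl)
  refine ⟨(gd_Sr 1).int le_rfl, ?_⟩
  norm_num at h3 h4
  linarith

lemma FR_eq (hx : 0 < x) : 288 * FR x =
    30 * (24 * Sr 0 x - 48 * Sr 0 (2 * x)) - 20 * (24 * Sr 0 x - 72 * Sr 0 (3 * x)) +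
    2 * (24 * Sr 0 x - 144 * Sr 0 (6 * x)) -
    5 * ((24 * Sr 0 x - 48 * Sr 0 (2 * x)) * (24 * Sr 0 x - 72 * Sr 0 (3 * x))) +
    8 * ((24 * Sr 0 x - 48 * Sr 0 (2 * x)) * (24 * Sr 0 x - 144 * Sr 0 (6 * x))) -
    3 * ((24 * Sr 0 x - 72 * Sr 0 (3 * x)) * (24 * Sr 0 x - 144 * Sr 0 (6 * x))) := by
  have h := gg_eq (zz_pos hx)
  simp only [gg, g4, g3, eN_zz _ hx, PE_zz, Nat.cast_one, one_mul, Nat.cast_ofNat] at h
  apply Complex.ofReal_injective
  push_cast at h ⊢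
  linear_combination -h

lemma gd_FR : Gd 4 FR := by
  have a := (gd_S.const_mul 24).sub ((gd_S.scale two_pos).const_mul 48)
  have b := (gd_S.const_mul 24).sub ((gd_S.scale three_pos).const_mul 72)
  have c := (gd_S.const_mul 24).sub ((gd_S.scale (d := 6) (by norm_num)).const_mul 144)
  refine (((((((a.const_mul 30).sub (b.const_mul 20)).add (c.const_mul 2)).mono
    (show 2 ≤ 4 by norm_num)).sub ((a.mul b).const_mul 5)).add ((a.mul c).const_mul 8)).sub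
    ((b.mul c).const_mul 3)).const_mul (1 / 288) |>.congr fun x hx => ?_
  linear_combination (1 / 288) * FR_eq hx

noncomputable def vv (x : ℝ) : ℝ := -48 * Sr 0 x + 576 * (Sr 0 x * Sr 0 x) + 288 * Sr 1 x

lemma gd_vv : Gd 4 vv :=
  (((gd_S.const_mul (-48)).mono (show 2 ≤ 4 by norm_num)).add ((gd_S.mul gd_S).const_mul 576)).add
    ((gd_Sr 1).const_mul 288)

lemma MZ_eq (hx : 0 < x) : 7200 * MZ x = 15 * 288 * FR x + 720 * 288 * FR (2 * x) +
    3 * (-vv x + 33 * vv (2 * x) + 81 * vv (3 * x) - 32 * vv (4 * x) - 2673 * vv (6 * x) +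
      2592 * vv (12 * x)) + 3600 * (-Sr 1 x + 18 * Sr 1 (2 * x) - 27 * Sr 1 (3 * x) -
      32 * Sr 1 (4 * x) + 54 * Sr 1 (6 * x)) := by
  have h := id4 (zz_pos hx)
  simp only [g4, g3, eN_zz _ hx, fN_zz _ hx, Nat.cast_one, one_mul, Nat.cast_ofNat] at h
  have h1 := FR_eq hx
  have h2 := FR_eq (mul_pos two_pos hx)
  have z1 := Zf_eq hx
  have z2 := Zf_eq (mul_pos two_pos hx)
  have z3 := Zf_eq (mul_pos three_pos hx)
  have z6 := Zf_eq (mul_pos (show (0 : ℝ) < 6 by norm_num) hx)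
  rw [show 2 * (2 * x) = 4 * x by ring] at h2 z2
  rw [show 3 * (2 * x) = 6 * x by ring, show 6 * (2 * x) = 12 * x by ring] at h2
  rw [show 2 * (3 * x) = 6 * x by ring] at z3
  rw [show 2 * (6 * x) = 12 * x by ring] at z6
  norm_cast at h
  simp only [MZ, Y1, Y2, vv, z1, z2, z3, z6]
  push_cast at h
  linear_combination h - 15 * h1 - 720 * h2

lemma int_MZ : ∫ x in Ioi 0, x ^ 4 * MZ x =
    3 / 2 * (∫ x in Ioi 0, x ^ 4 * FR x) - 11 / 144 * π ^ 4 * zt 3 := by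
  have f := gd_FR.hi le_rfl
  have v := gd_vv.hi le_rfl
  have t := hi_T
  have p4 : (0 : ℝ) < 4 := by norm_num
  have p6 : (0 : ℝ) < 6 := by norm_num
  have p12 : (0 : ℝ) < 12 := by norm_num
  have hf := (f.smul (15 * 288)).add ((f.scale two_pos).smul (720 * 288))
  have hv := (((((v.smul (-1)).add ((v.scale two_pos).smul 33)).add ((v.scale three_pos).smul 81)).sub
    ((v.scale p4).smul 32)).sub ((v.scale p6).smul 2673)).add ((v.scale p12).smul 2592)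
  have ht := ((((t.smul (-1)).add ((t.scale two_pos).smul 18)).sub ((t.scale three_pos).smul 27)).sub
    ((t.scale p4).smul 32)).add ((t.scale p6).smul 54)
  exact ((((hf.add (hv.smul 3)).add (ht.smul 3600)).smul (1 / 7200)).congr
    (g := fun x => x ^ 4 * MZ x) (fun x hx => by linear_combination x ^ 4 / 7200 * MZ_eq hx)
    (by ring)).2

theorem main : ∫ θ in Icc (0 : Fin 5 → ℝ) 1, log ‖(1 : ℂ) + ∑ j : Fin 5, ee (θ j)‖ =
    (3 / π ^ 2) ^ 3 * ∫ t in Ioi 0, FR t * t ^ 4 := by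
  have hp := pi_pos.ne'
  rw [stepA, stepC, int_MZ]
  simp only [mul_comm (FR _)]
  field_simp; ring

end Pool.Agent.Lib.MP_870895_nt
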