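import Pool.Agent.Lib.MP_870895_nt.Jensen

set_option autoImplicit false

open Real Filter Topology Set MeasureTheory

namespace Pool.Agent.Lib.MP_870895_nt

/-- continuous, pole of order at most `k` at zero, exponential decay at infinity -/
def Gd (k : ℕ) (f : ℝ → ℝ) : Prop := ContinuousOn f (Ioi 0) ∧
  ∃ C c, 0 ≤ C ∧ 0 < c ∧ ∀ x, 0 < x → |f x| ≤ C * ((1 + x⁻¹) ^ k * exp (-(c * x)))

variable {k l : ℕ} {f g : ℝ → ℝ}

lemma Gd.mono (h : Gd k f) (hk : k ≤ l) : Gd l f := by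
  obtain ⟨h0, C, c, hC, hc, h⟩ := h
  refine ⟨h0, C, c, hC, hc, fun x hx => (h x hx).trans ?_⟩
  have : 0 < x⁻¹ := by positivity
  gcongr; linarith

lemma Gd.add (hf : Gd k f) (hg : Gd k g) : Gd k fun x => f x + g x := by
  obtain ⟨h0, C, c, hC, hc, h⟩ := hf
  obtain ⟨h0', D, d, hD, hd, h'⟩ := hg
  refine ⟨h0.add h0', C + D, min c d, by positivity, lt_min hc hd, fun x hx => ?_⟩
  have h1 : exp (-(c * x)) ≤ exp (-(min c d * x)) := by gcongr; exact min_le_left _ _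
  have h2 : exp (-(d * x)) ≤ exp (-(min c d * x)) := by gcongr; exact min_le_right _ _
  calc _ ≤ |f x| + |g x| := abs_add_le _ _
    _ ≤ C * ((1 + x⁻¹) ^ k * exp (-(min c d * x))) + D * ((1 + x⁻¹) ^ k * exp (-(min c d * x))) :=
      add_le_add ((h x hx).trans (by gcongr)) ((h' x hx).trans (by gcongr))
    _ = _ := by ring

lemma Gd.const_mul (hf : Gd k f) (a : ℝ) : Gd k fun x => a * f x := by
  obtain ⟨h0, C, c, hC, hc, h⟩ := hf
  refine ⟨continuousOn_const.mul h0, |a| * C, c, by positivity, hc, fun x hx => ?_⟩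
  rw [abs_mul, mul_assoc]; gcongr; exact h x hx

lemma Gd.congr (hf : Gd k f) (h : ∀ x, 0 < x → g x = f x) : Gd k g := by
  obtain ⟨h0, C, c, hC, hc, h'⟩ := hf
  exact ⟨h0.congr h, C, c, hC, hc, fun x hx => by rw [h x hx]; exact h' x hx⟩

lemma Gd.sub (hf : Gd k f) (hg : Gd k g) : Gd k fun x => f x - g x :=
  (hf.add (hg.const_mul (-1))).congr fun x _ => by ring

lemma Gd.mul (hf : Gd k f) (hg : Gd l g) : Gd (k + l) fun x => f x * g x := by
  obtain ⟨h0, C, c, hC, hc, h⟩ := hf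
  obtain ⟨h0', D, d, hD, hd, h'⟩ := hg
  refine ⟨h0.mul h0', C * D, c + d, by positivity, by positivity, fun x hx => ?_⟩
  rw [abs_mul, show -((c + d) * x) = -(c * x) + -(d * x) by ring, exp_add]
  calc _ ≤ (C * ((1 + x⁻¹) ^ k * exp (-(c * x)))) * (D * ((1 + x⁻¹) ^ l * exp (-(d * x)))) :=
      mul_le_mul (h x hx) (h' x hx) (abs_nonneg _) (by positivity)
    _ = _ := by ring

lemma Gd.scale (hf : Gd k f) {d : ℝ} (hd : 0 < d) : Gd k fun x => f (d * x) := by
  obtain ⟨h0, C, c, hC, hc, h⟩ := hf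
  refine ⟨h0.comp (by fun_prop) fun x hx => mul_pos hd hx, C * (1 + d⁻¹) ^ k, c * d,
    by positivity, by positivity, fun x hx => (h _ (mul_pos hd hx)).trans ?_⟩
  have h1 : 1 + (d * x)⁻¹ ≤ (1 + d⁻¹) * (1 + x⁻¹) := by
    have : 0 < d⁻¹ := by positivity
    have : 0 < x⁻¹ := by positivity
    rw [mul_inv]; nlinarith
  calc _ ≤ C * (((1 + d⁻¹) * (1 + x⁻¹)) ^ k * exp (-(c * (d * x)))) := by gcongr
    _ = _ := by rw [mul_pow, mul_assoc c]; ring

lemma Gd.of_le (hf : Gd k f) (hg : ContinuousOn g (Ioi 0)) (h : ∀ x, 0 < x → |g x| ≤ |f x|) :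
    Gd k g := by
  obtain ⟨-, C, c, hC, hc, h'⟩ := hf
  exact ⟨hg, C, c, hC, hc, fun x hx => (h x hx).trans (h' x hx)⟩

lemma Gd.bound (hf : Gd k f) {j : ℕ} (hj : k ≤ j) : ∃ C c, 0 ≤ C ∧ 0 < c ∧ ∀ x, 0 < x →
    |x ^ j * f x| ≤ C * ((1 + x) ^ j * exp (-(c * x))) := by
  obtain ⟨h0, C, c, hC, hc, h⟩ := hf.mono hj
  refine ⟨C, c, hC, hc, fun x hx => ?_⟩
  rw [abs_mul, abs_of_pos (by positivity), ← inv_mul_pow hx]
  calc _ ≤ x ^ j * (C * ((1 + x⁻¹) ^ j * exp (-(c * x)))) := by gcongr; exact h x hx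
    _ = _ := by ring

lemma Gd.int (hf : Gd k f) {j : ℕ} (hj : k ≤ j) : IntegrableOn (fun x => x ^ j * f x) (Ioi 0) := by
  obtain ⟨C, c, -, hc, h⟩ := hf.bound hj
  exact int_of_bound ((continuousOn_pow j).mul hf.1) C j hc h

lemma mellin_scale (j : ℕ) (f : ℝ → ℝ) {d : ℝ} (hd : 0 < d) :
    ∫ x in Ioi 0, x ^ j * f (d * x) = (d ^ (j + 1))⁻¹ * ∫ x in Ioi 0, x ^ j * f x := by
  have h := integral_comp_mul_left_Ioi (fun x => x ^ j * f x) 0 hd
  simp only [mul_zero, smul_eq_mul, mul_pow, mul_assoc] at h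
  rw [integral_const_mul] at h
  have : d ^ j ≠ 0 := by positivity
  field_simp at h ⊢
  rw [← h]; ring

lemma gd_U {e : ℝ} (he : Sgn e) (j : ℕ)
    (hc : ContinuousOn (fun t => mom e csch j (1 / 3) t) (Ioi 0)) :
    Gd (j + 2) fun t => mom e csch j (1 / 3) t := by
  obtain ⟨C, hC0, hC⟩ := U_le he j
  refine ⟨hc, C, 1 / 12, hC0, by norm_num, fun t ht => ?_⟩
  rw [← mul_assoc, show -(1 / 12 * t) = -t / 12 by ring]
  exact hC _ ⟨le_rfl, by norm_num⟩ t ht

noncomputable def c2 (e t : ℝ) : ℝ := mom e csch 3 0 t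

lemma gd_c2 {e : ℝ} (he : Sgn e) : Gd 6 (c2 e) := by
  have h3 : (1 / 3 : ℝ) ∈ Ioo (0 : ℝ) 1 := ⟨by norm_num, by norm_num⟩
  have h0 := gd_U he 0 fun t ht => by
    obtain ⟨d, hd⟩ := hasFDerivAt_U0 he h3 ht
    exact (fd_t hd).continuousAt.continuousWithinAt
  have h1 := gd_U he 1 (continuousOn_uu he)
  have h2 := gd_U he 2 fun t ht => ((continuousAt_U2 he h3 ht).comp
    (f := fun t : ℝ => ((1 / 3 : ℝ), t)) (by fun_prop)).continuousWithinAt
  refine ((h1.mul h1).sub (h0.mul h2)).congr fun t ht => ?_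
  rw [c2, ← CCd he ht ni_third]; ring

/-- the improper integral of a function with primitive vanishing at both ends -/
lemma int_Ioi_zero {h G : ℝ → ℝ} (hi : IntegrableOn h (Ioi 0))
    (hG : ∀ a b, 0 < a → a ≤ b → ∫ t in a..b, h t = G b - G a)
    {E c : ℝ} {n : ℕ} (hc : 0 < c)
    (hb : ∀ t, 0 < t → |G t| ≤ E * (t * ((1 + t) ^ n * exp (-(c * t))))) :
    ∫ t in Ioi 0, h t = 0 := by
  have h1 : Tendsto (fun t : ℝ => t⁻¹) atTop (𝓝 0) := tendsto_inv_atTop_zero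
  have h2 : AECover (volume.restrict (Ioi (0 : ℝ))) atTop fun t : ℝ => Ioi t⁻¹ ∩ Iic t :=
    (aecover_Ioi_of_Ioi h1).inter (aecover_Iic tendsto_id)
  have h3 := h2.integral_tendsto_of_countably_generated hi
  have h4 : Tendsto G atTop (𝓝 0) := by
    have h5 : Tendsto (fun t : ℝ => (c * (1 + t)) ^ (n + 1) * exp (-(c * (1 + t)))) atTop (𝓝 0) :=
      (tendsto_pow_mul_exp_neg_atTop_nhds_zero (n + 1)).comp
        ((tendsto_atTop_add_const_left _ 1 tendsto_id).const_mul_atTop hc)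
    have h6 := h5.const_mul (|E| * exp c / c ^ (n + 1))
    rw [mul_zero] at h6
    refine squeeze_zero_norm' ?_ h6
    filter_upwards [eventually_gt_atTop 0] with t ht
    refine (hb t ht).trans ?_
    calc _ ≤ |E| * ((1 + t) * ((1 + t) ^ n * exp (-(c * t)))) := by
          gcongr
          · exact le_abs_self E
          · linarith
      _ = _ := by
          rw [show -(c * (1 + t)) = -(c * t) - c by ring, exp_sub, mul_pow]; field_simp; ring
  have h5 : Tendsto (fun t : ℝ => G t⁻¹) atTop (𝓝 0) := by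
    have h6 : Continuous fun t : ℝ => E * (t * ((1 + t) ^ n * exp (-(c * t)))) := by fun_prop
    have h7 := (h6.tendsto 0).comp h1
    simp only [zero_mul, mul_zero] at h7
    refine squeeze_zero_norm' ?_ h7
    filter_upwards [eventually_gt_atTop 0] with t ht using hb _ (inv_pos.2 ht)
  have h6 := h4.sub h5
  rw [sub_zero] at h6
  refine tendsto_nhds_unique h3 (h6.congr' ?_)
  filter_upwards [eventually_ge_atTop 1] with t ht
  have ht0 : 0 < t⁻¹ := by positivity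
  have ht1 : t⁻¹ ≤ t := (inv_le_one_of_one_le₀ ht).trans ht
  rw [← hG _ _ ht0 ht1, intervalIntegral.integral_of_le ht1, Ioi_inter_Iic,
    Measure.restrict_restrict measurableSet_Ioc,
    inter_eq_self_of_subset_left (show Ioc t⁻¹ t ⊆ Ioi 0 from fun x hx => ht0.trans hx.1)]

end Pool.Agent.Lib.MP_870895_nt
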