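import Pool.Agent.Lib.MP_870895_nt.Gd

set_option autoImplicit false

open Real Filter Topology Set MeasureTheory

namespace Pool.Agent.Lib.MP_870895_nt

variable {e t v : ℝ}

noncomputable def mu (e : ℝ) : ℝ := π ^ 2 / 3 * (1 - e)
noncomputable def ff (e v t : ℝ) : ℝ := aa e v t * (aa e v t + (2 * kap e * (v - 1 / 3) - mu e))
noncomputable def PP (e : ℝ) (p : ℝ × ℝ) : ℝ := ff e p.2 p.1 * mom e csch 1 p.2 p.1
noncomputable def QQ (e : ℝ) (p : ℝ × ℝ) : ℝ := -(ff e p.2 p.1 * (p.1 * mom e csch 0 p.2 p.1))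
noncomputable def Rd (e : ℝ) (p : ℝ × ℝ) : ℝ :=
  (2 * aa e p.2 p.1 + 2 * kap e * (p.2 - 1 / 3) - mu e) * (p.1 ^ 2 * c2 e p.1) -
    2 * kap e ^ 2 * (p.2 - 1 / 3) * mom e csch 1 p.2 p.1
noncomputable def rd (e t : ℝ) : ℝ :=
  2 * (t ^ 2 * c2 e t * bet e t) + 2 * kap e ^ 2 * (bet e t / t ^ 2) +
    ((kap e / 36 - mu e / 6) * (t ^ 2 * c2 e t) - kap e ^ 3 / 36 / t ^ 2)

lemma kap_mu (he : Sgn e) : kap e * mu e = 0 := by
  rcases he with rfl | rfl <;> simp [kap, mu]

lemma fd_swap {F : ℝ × ℝ → ℝ} {a b : ℝ} (h : HasFDerivAt F (D2 a b) (v, t)) :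
    HasFDerivAt (fun p : ℝ × ℝ => F (p.2, p.1)) (D2 b a) (t, v) := by
  have h1 := (hasFDerivAt_snd (𝕜 := ℝ) (p := (t, v))).prodMk (hasFDerivAt_fst (𝕜 := ℝ) (p := (t, v)))
  refine (HasFDerivAt.comp (t, v) h h1).congr_fderiv (ContinuousLinearMap.ext fun p => ?_)
  simp; ring

lemma green_key (he : Sgn e) (hv : v ∈ Ioo (0 : ℝ) 1) (ht : 0 < t) :
    DifferentiableAt ℝ (QQ e) (t, v) ∧ DifferentiableAt ℝ (PP e) (t, v) ∧
    fderiv ℝ (QQ e) (t, v) (1, 0) + fderiv ℝ (PP e) (t, v) (0, 1) = Rd e (t, v) ∧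
    ContinuousAt (Rd e) (t, v) := by
  have ha := fd_swap (hasFDerivAt_aa he v ht)
  obtain ⟨d0, h0⟩ := hasFDerivAt_U0 he hv ht
  obtain ⟨d1, h1⟩ := hasFDerivAt_U1 he hv ht
  replace h0 := fd_swap h0
  replace h1 := fd_swap h1
  have hf : HasFDerivAt (fun p : ℝ × ℝ => ff e p.2 p.1) _ (t, v) :=
    ha.mul (ha.add (((hasFDerivAt_snd.sub_const (1 / 3)).const_mul (2 * kap e)).sub_const (mu e)))
  have hP : HasFDerivAt (PP e) _ (t, v) := hf.mul h1
  have hQ : HasFDerivAt (QQ e) _ (t, v) := (hf.mul (hasFDerivAt_fst.mul h0)).neg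
  refine ⟨hQ.differentiableAt, hP.differentiableAt, ?_, ?_⟩
  · rw [hP.fderiv, hQ.fderiv]
    have h2 := CCd he ht (ni_of_Ioo hv)
    have h3 := mom_sig_zero e (ni_of_Ioo hv) ht
    have h4 := kap_mu he
    simp [Rd, c2, h3, ← h2]
    linear_combination mom e csch 1 v t * h4
  · have h2 : ContinuousAt (fun p : ℝ × ℝ => c2 e p.1) (t, v) :=
      ((gd_c2 he).1.continuousAt (Ioi_mem_nhds ht)).comp (f := fun p : ℝ × ℝ => p.1) (by fun_prop)
    have h3 := ha.continuousAt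
    have h4 := h1.continuousAt
    unfold Rd
    fun_prop

lemma kap_aa_half (he : Sgn e) (ht : 0 < t) : kap e * aa e (1 / 2) t = 0 := by
  rcases he with rfl | rfl
  · rw [aa_half ht, mul_zero]
  · simp [kap]

lemma U_half (he : Sgn e) (j : ℕ) :
    mom e csch j (1 / 2) t = -(e * (-1) ^ j) * mom e csch j (1 / 2) t := by
  have h1 := mom_add_one (t := t) he csch j (-(1 / 2))
  rw [mom_neg he (s := -1) (fun w => by simp [csch_neg]),
    show -(1 / 2 : ℝ) + 1 = 1 / 2 by norm_num] at h1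
  linear_combination h1

lemma PP_half (he : Sgn e) (ht : 0 < t) : PP e (t, 1 / 2) = 0 := by
  rcases he with rfl | rfl
  · simp only [PP, ff, aa_half ht, zero_mul]
  · have := U_half (t := t) sgn_neg_one 1
    simp only [PP, show mom (-1) csch 1 (1 / 2) t = 0 by linarith, mul_zero]

lemma sub_Ioo : uIcc (1 / 3 : ℝ) (1 / 2) ⊆ Ioo 0 1 := by
  rw [uIcc_of_le (by norm_num)]
  exact fun x hx => ⟨by linarith [hx.1], by linarith [hx.2]⟩

lemma int_Rd (he : Sgn e) (ht : 0 < t) : ∫ v in (1 / 3 : ℝ)..(1 / 2), Rd e (t, v) = rd e t := by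
  have hd : ∀ v ∈ uIcc (1 / 3 : ℝ) (1 / 2), HasDerivAt (fun v =>
      (kap e * (v - 1 / 3) ^ 2 - mu e * v) * (t ^ 2 * c2 e t) -
        2 * kap e ^ 2 / t ^ 2 * ((v - 1 / 3) * aa e v t + kap e * (v - 1 / 3) ^ 2 / 2))
      (Rd e (t, v) - (2 * (t ^ 2 * c2 e t) + 2 * kap e ^ 2 / t ^ 2) * aa e v t) v := by
    intro v hv
    have h1 := fd_x (hasFDerivAt_aa he v ht)
    have h2 := (hasDerivAt_id v).sub_const (1 / 3)
    have h3 := (((((h2.pow 2).const_mul (kap e)).sub ((hasDerivAt_id v).const_mul (mu e))).mul_const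
      (t ^ 2 * c2 e t)).sub (((h2.mul h1).add (((h2.pow 2).const_mul (kap e)).div_const 2)).const_mul
        (2 * kap e ^ 2 / t ^ 2)))
    refine h3.congr_deriv ?_
    rw [mom_sig_zero e (ni_of_Ioo (sub_Ioo hv)) ht]
    simp only [Rd, id]
    push_cast
    field_simp; ring
  have hc : ContinuousOn (fun v => Rd e (t, v)) (uIcc (1 / 3 : ℝ) (1 / 2)) := fun v hv =>
    ((green_key he (sub_Ioo hv) ht).2.2.2.comp (f := fun v : ℝ => (t, v))
      (by fun_prop)).continuousWithinAt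
  have hc2 : Continuous fun v => aa e v t :=
    continuous_iff_continuousAt.2 fun v => (fd_x (hasFDerivAt_aa he v ht)).continuousAt
  have h := intervalIntegral.integral_eq_sub_of_hasDerivAt hd
    (hc.intervalIntegrable.sub ((hc2.intervalIntegrable _ _).const_mul _))
  rw [intervalIntegral.integral_sub hc.intervalIntegrable
    ((hc2.intervalIntegrable _ _).const_mul _), intervalIntegral.integral_const_mul] at h
  have h2 := kap_aa_half he ht
  rw [rd, bet]
  linear_combination h - kap e / (3 * t ^ 2) * h2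

lemma ff_le (he : Sgn e) : ∃ D, 0 ≤ D ∧ ∀ v ∈ Icc (1 / 3 : ℝ) (1 / 2), ∀ t, 0 < t →
    |ff e v t| ≤ D * (t ^ 3 * (1 + t)) := by
  obtain ⟨C, hC0, hC⟩ := aa_le he 2
  obtain ⟨D, hD0, hD⟩ := aa_le he 0
  refine ⟨C * (D + (2 * |kap e| + |mu e|)), by positivity, fun v hv t ht => ?_⟩
  have h1 := hC v t ht
  have h2 := hD v t ht
  have h3 : |2 * kap e * (v - 1 / 3) - mu e| ≤ 2 * |kap e| + |mu e| := by
    refine (abs_sub _ _).trans ?_
    rw [abs_mul, abs_mul, abs_two]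
    have : |v - 1 / 3| ≤ 1 := by rw [abs_le]; constructor <;> linarith [hv.1, hv.2]
    linarith [mul_le_of_le_one_right (by positivity : 0 ≤ 2 * |kap e|) this]
  have h4 : |aa e v t + (2 * kap e * (v - 1 / 3) - mu e)| ≤
      (D + (2 * |kap e| + |mu e|)) * (1 + t) := by
    refine (abs_add_le _ _).trans ?_
    have : 0 ≤ (2 * |kap e| + |mu e|) * t := by positivity
    simp only [zero_add, pow_one] at h2
    nlinarith
  rw [ff, abs_mul]
  calc _ ≤ (C * t ^ (2 + 1)) * ((D + (2 * |kap e| + |mu e|)) * (1 + t)) :=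
        mul_le_mul h1 h4 (abs_nonneg _) (by positivity)
    _ = _ := by ring

lemma green (he : Sgn e) (hr : IntegrableOn (rd e) (Ioi 0)) :
    ∫ t in Ioi 0, ff e (1 / 3) t * uu e t = -∫ t in Ioi 0, rd e t := by
  obtain ⟨D, hD0, hD⟩ := ff_le he
  have hi : IntegrableOn (fun t => ff e (1 / 3) t * uu e t) (Ioi 0) := by
    obtain ⟨C, hC0, hC⟩ := U_le he 1
    have := continuousOn_aa he (1 / 3)
    refine int_of_bound (ContinuousOn.mul (by unfold ff; fun_prop) (continuousOn_uu he)) (D * C) 4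
      (c := 1 / 12) (by norm_num) fun s hs => ?_
    have h1 := hC (1 / 3) ⟨le_rfl, by norm_num⟩ s hs
    have h2 := hD (1 / 3) ⟨le_rfl, by norm_num⟩ s hs
    rw [abs_mul, pow_succ, ← inv_mul_pow hs, show -(1 / 12 * s) = -s / 12 by ring]
    calc _ ≤ (D * (s ^ 3 * (1 + s))) * (C * (1 + s⁻¹) ^ (1 + 2) * exp (-s / 12)) :=
          mul_le_mul h2 h1 (abs_nonneg _) (by positivity)
      _ = _ := by ring
  obtain ⟨C, hC0, hC⟩ := U_le he 0
  have h := int_Ioi_zero (hi.add hr) (G := fun t => ∫ v in (1 / 3 : ℝ)..(1 / 2), QQ e (t, v))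
    (fun a b ha hab => ?_) (E := D * C) (c := 1 / 12) (n := 4) (by norm_num) fun t ht => ?_
  · simp only [Pi.add_apply] at h
    rw [integral_add hi hr] at h
    linarith
  · have hm : ∀ p ∈ uIcc a b ×ˢ uIcc (1 / 3 : ℝ) (1 / 2), p.2 ∈ Ioo (0 : ℝ) 1 ∧ 0 < p.1 :=
      fun p hp => ⟨sub_Ioo hp.2, by rw [uIcc_of_le hab] at hp; exact ha.trans_le hp.1.1⟩
    have hk := fun p hp => green_key he (hm p hp).1 (hm p hp).2
    have hs : Ioo (min a b) (max a b) ×ˢ Ioo (min (1 / 3 : ℝ) (1 / 2)) (max (1 / 3) (1 / 2)) ⊆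
        uIcc a b ×ˢ uIcc (1 / 3 : ℝ) (1 / 2) := prod_mono Ioo_subset_Icc_self Ioo_subset_Icc_self
    have h1 := integral2_divergence_prod_of_hasFDerivAt (QQ e) (PP e) (fderiv ℝ (QQ e))
      (fderiv ℝ (PP e)) a (1 / 3) b (1 / 2)
      (fun p hp => (hk p hp).1.continuousAt.continuousWithinAt)
      (fun p hp => (hk p hp).2.1.continuousAt.continuousWithinAt)
      (fun p hp => (hk p (hs hp)).1.hasFDerivAt) (fun p hp => (hk p (hs hp)).2.1.hasFDerivAt)
      ((ContinuousOn.integrableOn_compact (isCompact_uIcc.prod isCompact_uIcc)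
        fun p hp => (hk p hp).2.2.2.continuousWithinAt).congr_fun
        (fun p hp => (hk p hp).2.2.1.symm) (measurableSet_uIcc.prod measurableSet_uIcc))
    have hab' : ∀ t ∈ uIcc a b, 0 < t := fun t ht => by
      rw [uIcc_of_le hab] at ht; exact ha.trans_le ht.1
    rw [intervalIntegral.integral_congr (g := rd e) (fun t ht => by
        rw [← int_Rd he (hab' t ht)]
        exact intervalIntegral.integral_congr fun v hv => (hk (t, v) ⟨ht, hv⟩).2.2.1),
      intervalIntegral.integral_congr (g := fun _ => 0) (fun t ht => PP_half he (hab' t ht))] at h1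
    have hsub : Ioc a b ⊆ Ioi 0 := fun t ht => ha.trans ht.1
    simp only [Pi.add_apply]
    rw [intervalIntegral.integral_add
      ((intervalIntegrable_iff_integrableOn_Ioc_of_le hab).2 (hi.mono_set hsub))
      ((intervalIntegrable_iff_integrableOn_Ioc_of_le hab).2 (hr.mono_set hsub)), h1]
    simp [PP, uu]; ring
  · have h1 := intervalIntegral.norm_integral_le_of_norm_le_const (a := 1 / 3) (b := 1 / 2)
      (f := fun v => QQ e (t, v)) (C := D * C * (t * ((1 + t) ^ 4 * exp (-(1 / 12 * t)))))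
      fun v hv => ?_
    · refine h1.trans (mul_le_of_le_one_right (by positivity) ?_)
      norm_num [abs_le]
    · rw [uIoc_of_le (by norm_num)] at hv
      have h1 := hC v (Ioc_subset_Icc_self hv) t ht
      have h2 := hD v (Ioc_subset_Icc_self hv) t ht
      simp only [QQ, norm_neg, Real.norm_eq_abs, abs_mul, abs_of_pos ht]
      rw [show -(1 / 12 * t) = -t / 12 by ring]
      calc _ ≤ (D * (t ^ 3 * (1 + t))) * (t * (C * (1 + t⁻¹) ^ (0 + 2) * exp (-t / 12))) := by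
            gcongr
        _ = D * C * (t * (t * ((1 + t⁻¹) ^ 2 * t ^ 2) * (1 + t) * exp (-t / 12))) := by ring
        _ ≤ D * C * (t * ((1 + t) * (1 + t) ^ 2 * (1 + t) * exp (-t / 12))) := by
            rw [inv_mul_pow ht]; gcongr; linarith
        _ = _ := by ring

lemma stepB (h1 : IntegrableOn (rd 1) (Ioi 0)) (h2 : IntegrableOn (rd (-1)) (Ioi 0)) :
    ∫ w, log (MX w) ∂(μ2.prod μ2) =
      18 / π ^ 4 * ((∫ t in Ioi 0, rd (-1) t) + ∫ t in Ioi 0, rd 1 t) := by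
  have hp := pi_pos.ne'
  have a1 : ∀ s, 2 * uu (-1) s * (2 * pp (-1) s - pp (-1) s ^ 2) =
      -(18 / π ^ 4) * (ff (-1) (1 / 3) s * uu (-1) s) := fun s => by
    simp only [pp, ff, mu]; field_simp; ring
  have a2 : ∀ s, 2 * uu 1 s * pp 1 s ^ 2 = 18 / π ^ 4 * (ff 1 (1 / 3) s * uu 1 s) := fun s => by
    simp only [pp, ff, mu]; field_simp; ring
  rw [logmax.2]
  simp only [a1, a2, integral_const_mul]
  rw [green sgn_one h1, green sgn_neg_one h2]; ring

end Pool.Agent.Lib.MP_870895_nt
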