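import Pool.Agent.Lib.MP_870895_nt.Final

set_option autoImplicit false

open Real Filter Topology Set MeasureTheory

namespace Pool.Agent.Lib.MP_870895_nt.Hedge

lemma cnt (c : ℂ) : (volume {x : ℝ | Complex.exp (2 * π * Complex.I * x) = c}) = 0 := by
  apply Set.Countable.measure_zero
  by_cases h : ∃ x0 : ℝ, Complex.exp (2 * π * Complex.I * x0) = c
  · obtain ⟨x0, hx0⟩ := h
    refine (Set.countable_range fun n : ℤ => x0 + n).mono fun x hx => ?_
    have hx' : Complex.exp (2 * π * Complex.I * x) = Complex.exp (2 * π * Complex.I * x0) := by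
      rw [hx0]; exact hx
    obtain ⟨n, hn⟩ := Complex.exp_eq_exp_iff_exists_int.1 hx'
    refine ⟨n, ?_⟩
    have h2 : (2 * π * Complex.I : ℂ) ≠ 0 := Complex.two_pi_I_ne_zero
    have h3 : (x : ℂ) = x0 + n := by
      apply mul_left_cancel₀ h2
      rw [hn]; ring
    exact_mod_cast h3.symm
  · have : {x : ℝ | Complex.exp (2 * π * Complex.I * x) = c} = ∅ := by
      ext x; simp only [mem_ofPred_eq, mem_empty_iff_false, iff_false]
      exact fun hx => h ⟨x, hx⟩
    rw [this]; exact Set.countable_empty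

lemma null_zero : volume {θ : Fin 5 → ℝ |
    (1 : ℂ) + ∑ j : Fin 5, Complex.exp (2 * π * Complex.I * θ j) = 0} = 0 := by
  have hp := volume_preserving_piFinSuccAbove (fun _ : Fin 5 => ℝ) 0
  set T : Set (ℝ × (Fin 4 → ℝ)) := {p | (1 : ℂ) + (Complex.exp (2 * π * Complex.I * p.1) +
    ∑ j : Fin 4, Complex.exp (2 * π * Complex.I * p.2 j)) = 0} with hT
  have hm : MeasurableSet T := by
    apply IsClosed.measurableSet
    exact isClosed_eq (by fun_prop) continuous_const
  have h1 : {θ : Fin 5 → ℝ | (1 : ℂ) + ∑ j : Fin 5, Complex.exp (2 * π * Complex.I * θ j) = 0} =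
      (MeasurableEquiv.piFinSuccAbove (fun _ : Fin 5 => ℝ) 0) ⁻¹' T := by
    ext θ
    simp only [mem_ofPred_eq, mem_preimage, hT, Fin.sum_univ_succ (n := 4)]
    simp [MeasurableEquiv.piFinSuccAbove, Fin.insertNthEquiv, Fin.tail]
  rw [h1, hp.measure_preimage hm.nullMeasurableSet, Measure.volume_eq_prod,
    Measure.prod_apply_symm hm]
  refine (lintegral_congr fun y => ?_).trans lintegral_zero
  refine measure_mono_null (fun x hx => ?_)
    (cnt (-(1 + ∑ j : Fin 4, Complex.exp (2 * π * Complex.I * y j))))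
  simp only [mem_preimage, hT, mem_ofPred_eq] at hx ⊢
  linear_combination hx

lemma mult {t : ℝ} (ht : 0 < t) :
    Multipliable fun n : ℕ => 1 - Real.exp (-((n : ℝ) + 1) * t) := by
  have h : Summable fun n : ℕ => ‖-Real.exp (-((n : ℝ) + 1) * t)‖ := by
    have h1 : Summable fun n : ℕ => Real.exp (-t) * Real.exp (-t) ^ n :=
      (summable_geometric_of_lt_one (exp_pos _).le (exp_lt_one_iff.2 (by linarith))).mul_left _
    refine h1.congr fun n => ?_
    rw [norm_neg, Real.norm_of_nonneg (exp_pos _).le, ← exp_nat_mul, ← exp_add]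
    congr 1; ring
  simpa [sub_eq_add_neg] using multipliable_one_add_of_summable h

lemma int_log : IntegrableOn (fun θ : Fin 5 → ℝ => log ‖(1 : ℂ) + ∑ j : Fin 5, ee (θ j)‖)
    (Icc (0 : Fin 5 → ℝ) 1) := by
  have h0 : volume.restrict (Icc (0 : Fin 5 → ℝ) 1) = Measure.pi fun _ => ν1 := by
    rw [← pi_univ_Icc, volume_pi, Measure.restrict_pi_pi, ν1, restrict_Ioc_eq_restrict_Icc]; rfl
  have hm := measurable_ee
  have h1 := lint_pi measurable_GG 5 1
  have hb : ∀ w, 0 ≤ log 6 - log (MX w) := fun w => by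
    have h2 : 0 ≤ MX w := le_max_of_le_left (norm_nonneg _)
    have := GG_nonneg (z := MX w) (by
      rw [Complex.norm_real, Real.norm_of_nonneg h2]
      exact max_le (by linarith [RR_le w.1]) (by linarith [RR_le w.2]))
    rwa [Complex.norm_real, Real.norm_of_nonneg h2] at this
  rw [TL5, ← ofReal_integral_eq_lintegral_ofReal (f := fun w => log 6 - log (MX w))
    ((integrable_const _).sub logmax.1) (ae_of_all _ hb)] at h1
  have hb2 : 0 ≤ᵐ[Measure.pi fun _ => ν1] fun θ : Fin 5 → ℝ =>
      log 6 - log ‖(1 : ℂ) + ∑ j : Fin 5, ee (θ j)‖ := ae_of_all _ fun θ => by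
    refine GG_nonneg ((norm_add_le _ _).trans ?_)
    have := norm_sum_le Finset.univ fun j => ee (θ j)
    simp only [norm_ee, Finset.sum_const, Finset.card_univ, Fintype.card_fin, nsmul_eq_mul] at this
    rw [norm_one]; push_cast at this; linarith
  have hi : Integrable (fun θ : Fin 5 → ℝ => log 6 - log ‖(1 : ℂ) + ∑ j : Fin 5, ee (θ j)‖)
      (Measure.pi fun _ => ν1) := by
    refine ⟨Measurable.aestronglyMeasurable (by fun_prop), ?_⟩
    rw [hasFiniteIntegral_iff_ofReal hb2]
    exact h1.trans_lt ENNReal.ofReal_lt_top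
  rw [IntegrableOn, h0]
  exact ((integrable_const (log 6)).sub hi).congr (ae_of_all _ fun θ => by simp)

end Pool.Agent.Lib.MP_870895_nt.Hedge
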