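import Pool.Agent.Lib.MP_870895_nt.LogMax

set_option autoImplicit false

open Real Filter Topology Set MeasureTheory
open scoped ENNReal

namespace Pool.Agent.Lib.MP_870895_nt

noncomputable def ν1 : Measure ℝ := volume.restrict (Ioc 0 1)

instance : IsProbabilityMeasure ν1 := ⟨by simp [ν1]⟩

lemma μ2_eq : μ2 = ν1.prod ν1 := by
  rw [μ2, TT, ν1, Measure.volume_eq_prod, ← Measure.prod_restrict, restrict_Ico_eq_restrict_Ioc]

lemma ee_fourier (x : ℝ) : ee x = fourier 1 (x : UnitAddCircle) := by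
  rw [fourier_coe_apply, ee]; simp

lemma rot (g : ℂ → ℝ≥0∞) (φ : ℝ) : ∫⁻ x, g (ee φ * ee x) ∂ν1 = ∫⁻ x, g (ee x) ∂ν1 := by
  have h1 := UnitAddCircle.lintegral_preimage 0 fun b => g (fourier 1 b)
  have h2 := UnitAddCircle.lintegral_preimage 0 fun b => g (fourier 1 ((φ : UnitAddCircle) + b))
  rw [zero_add] at h1 h2
  rw [lintegral_add_left_eq_self (fun b : UnitAddCircle => g (fourier 1 b)), ← h1] at h2
  simp only [← ee_add]
  simp only [ee_fourier, AddCircle.coe_add]
  exact h2

noncomputable def TL (G : ℂ → ℝ≥0∞) (c : ℂ) : ℝ≥0∞ := ∫⁻ x, G (c + ee x) ∂ν1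

lemma measurable_ee : Measurable ee := continuous_ee.measurable

lemma lint_pi {G : ℂ → ℝ≥0∞} (hG : Measurable G) (n : ℕ) (c : ℂ) :
    ∫⁻ θ, G (c + ∑ j : Fin n, ee (θ j)) ∂(Measure.pi fun _ => ν1) = (TL^[n] G) c := by
  induction n generalizing c with
  | zero => simp
  | succ n ih =>
    have h := (measurePreserving_piFinSuccAbove (fun _ : Fin (n + 1) => ν1) 0).symm
    have hm := measurable_ee
    rw [← h.lintegral_comp_emb (MeasurableEquiv.measurableEmbedding _), lintegral_prod,
      Function.iterate_succ_apply', TL]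
    · refine lintegral_congr fun a => ?_
      rw [← ih]
      refine lintegral_congr fun y => ?_
      simp [Fin.sum_univ_succ, add_assoc]
    · refine Measurable.aemeasurable (hG.comp ?_)
      simp only [Fin.sum_univ_succ, MeasurableEquiv.piFinSuccAbove_symm_apply, Fin.insertNthEquiv,
        Equiv.coe_fn_mk, Fin.insertNth_zero', Fin.cons_zero, Fin.cons_succ]
      fun_prop

noncomputable def GG (z : ℂ) : ℝ≥0∞ := ENNReal.ofReal (log 6 - log ‖z‖)

lemma measurable_GG : Measurable GG := by unfold GG; fun_prop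

lemma GG_nonneg {z : ℂ} (hz : ‖z‖ ≤ 6) : 0 ≤ log 6 - log ‖z‖ := by
  rcases eq_or_lt_of_le (norm_nonneg z) with h | h
  · rw [← h, log_zero, sub_zero]; exact log_nonneg (by norm_num)
  · exact sub_nonneg.2 (log_le_log h hz)

lemma jensen {A B : ℂ} (hA : ‖A‖ ≤ 3) (hB : ‖B‖ ≤ 3) (hA0 : 0 < ‖A‖) (hB0 : 0 < ‖B‖) :
    ∫⁻ x, GG (A + ee x * B) ∂ν1 = ENNReal.ofReal (log 6 - log (max ‖A‖ ‖B‖)) := by
  have h1 : B = ‖B‖ * ee (Complex.arg B / (2 * π)) := by
    have hp : (π : ℂ) ≠ 0 := by exact_mod_cast pi_pos.ne'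
    conv_lhs => rw [← Complex.norm_mul_exp_arg_mul_I B]
    rw [ee]; congr 2; push_cast; field_simp
  have h2 := rot (fun z => GG (A + ‖B‖ * z)) (Complex.arg B / (2 * π))
  simp only [← mul_assoc, ← h1] at h2
  simp only [mul_comm _ B]
  rw [h2]
  have h3 : ∀ x : ℝ, A + ‖B‖ * ee x = circleMap A ‖B‖ (2 * π * x) - 0 := fun x => by
    rw [circleMap, ee, sub_zero]; congr 3; push_cast; ring
  have h4 := (circleIntegrable_log_norm_sub_const (a := 0) (c := A) ‖B‖).comp_mul_left
    (c := 2 * π)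
  have hp : (2 * π) ≠ 0 := by positivity
  rw [zero_div, div_self hp, intervalIntegrable_iff_integrableOn_Ioc_of_le zero_le_one] at h4
  have h5 := circleAverage_log_norm_sub_const_eq_log_radius_add_posLog (a := 0) (c := A) hB0.ne'
  have h6 := intervalIntegral.integral_comp_mul_left (a := 0) (b := 1)
    (fun θ => log ‖circleMap A ‖B‖ θ - 0‖) hp
  rw [mul_zero, mul_one, intervalIntegral.integral_of_le zero_le_one] at h6
  rw [circleAverage_def, ← h6] at h5
  simp only [← h3] at h4 h5
  unfold GG ν1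
  rw [← ofReal_integral_eq_lintegral_ofReal (f := fun x => log 6 - log ‖A + ‖B‖ * ee x‖)
    ((integrable_const _).sub h4) (ae_of_all _ fun x => ?_), integral_sub (integrable_const _) h4]
  · congr 1
    rw [h5]
    simp only [integral_const, measureReal_restrict_apply_univ, volume_real_Ioc, sub_zero,
      smul_eq_mul, posLog_def, Pi.sup_apply, Pi.zero_apply]
    rw [log_mul (inv_ne_zero hB0.ne') hA0.ne', log_inv]
    rcases le_total ‖A‖ ‖B‖ with h | h
    · have := log_le_log hA0 h
      rw [max_eq_right h, max_eq_left (by linarith : -log ‖B‖ + log ‖A‖ ≤ 0)]; simp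
    · have := log_le_log hB0 h
      rw [max_eq_left h, max_eq_right (by linarith : 0 ≤ -log ‖B‖ + log ‖A‖)]; simp
  · refine GG_nonneg ((norm_add_le _ _).trans ?_)
    rw [norm_mul, norm_ee, Complex.norm_real, norm_norm]; linarith

lemma RR_le (θ : ℝ × ℝ) : RR θ ≤ 3 := by
  have h1 := norm_add₃_le (a := (1 : ℂ)) (b := ee θ.1) (c := ee θ.2)
  rw [norm_ee, norm_ee, norm_one] at h1
  unfold RR S3; linarith

lemma TL5 : (TL^[5] GG) 1 = ∫⁻ w, ENNReal.ofReal (log 6 - log (MX w)) ∂(μ2.prod μ2) := by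
  have hm := measurable_ee
  have hG := measurable_GG
  have hS := continuous_S3.measurable
  have h1 : (TL^[5] GG) 1 = ∫⁻ θ, ∫⁻ x, ∫⁻ θ', GG (S3 θ + ee x * S3 θ') ∂μ2 ∂ν1 ∂μ2 := by
    rw [μ2_eq, lintegral_prod _ (Measurable.aemeasurable (by fun_prop))]
    simp only [Function.iterate_succ_apply', Function.iterate_zero, id, TL]
    refine lintegral_congr fun a => lintegral_congr fun b => lintegral_congr fun x => ?_
    rw [lintegral_prod _ (Measurable.aemeasurable (by fun_prop)),
      ← rot (fun z => ∫⁻ d, GG (1 + ee a + ee b + ee x + z + ee d) ∂ν1) x]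
    refine lintegral_congr fun c => ?_
    rw [← rot (fun z => GG (1 + ee a + ee b + ee x + ee x * ee c + z)) x]
    refine lintegral_congr fun d => ?_
    simp only [S3]; congr 1; ring
  have hpos : ∀ᵐ θ ∂μ2, 0 < RR θ := by
    filter_upwards [ae_RR] with θ ⟨e, he, t, ht, h⟩
    rw [h]; exact yy_pos he ht
  have hx := continuous_MX.measurable
  rw [h1, lintegral_prod _ (Measurable.aemeasurable (by fun_prop))]
  refine lintegral_congr_ae ?_
  filter_upwards [hpos] with θ h
  rw [lintegral_lintegral_swap (Measurable.aemeasurable (by fun_prop))]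
  refine lintegral_congr_ae ?_
  filter_upwards [hpos] with θ' h'
  exact jensen (RR_le θ) (RR_le θ') h h'

lemma stepA : ∫ θ in Icc (0 : Fin 5 → ℝ) 1, log ‖(1 : ℂ) + ∑ j : Fin 5, ee (θ j)‖ =
    ∫ w, log (MX w) ∂(μ2.prod μ2) := by
  have h0 : volume.restrict (Icc (0 : Fin 5 → ℝ) 1) = Measure.pi fun _ => ν1 := by
    rw [← pi_univ_Icc, volume_pi, Measure.restrict_pi_pi, ν1, restrict_Ioc_eq_restrict_Icc]; rfl
  have hm := measurable_ee
  have h1 := lint_pi measurable_GG 5 1
  have hb : ∀ w, 0 ≤ log 6 - log (MX w) := fun w => by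
    have h2 : 0 ≤ MX w := le_max_of_le_left (norm_nonneg _)
    have := GG_nonneg (z := MX w) (by
      rw [Complex.norm_real, Real.norm_of_nonneg h2]
      exact max_le (by linarith [RR_le w.1]) (by linarith [RR_le w.2]))
    rwa [Complex.norm_real, Real.norm_of_nonneg h2] at this
  rw [TL5, ← ofReal_integral_eq_lintegral_ofReal (f := fun w => log 6 - log (MX w))
    ((integrable_const _).sub logmax.1) (ae_of_all _ hb), integral_sub (integrable_const _) logmax.1] at h1
  have hb2 : 0 ≤ᵐ[Measure.pi fun _ => ν1] fun θ : Fin 5 → ℝ =>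
      log 6 - log ‖(1 : ℂ) + ∑ j : Fin 5, ee (θ j)‖ := ae_of_all _ fun θ => by
    refine GG_nonneg ((norm_add_le _ _).trans ?_)
    have := norm_sum_le Finset.univ fun j => ee (θ j)
    simp only [norm_ee, Finset.sum_const, Finset.card_univ, Fintype.card_fin, nsmul_eq_mul] at this
    rw [norm_one]; push_cast at this; linarith
  have hi : Integrable (fun θ : Fin 5 → ℝ => log 6 - log ‖(1 : ℂ) + ∑ j : Fin 5, ee (θ j)‖)
      (Measure.pi fun _ => ν1) := by
    refine ⟨Measurable.aestronglyMeasurable (by fun_prop), ?_⟩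
    rw [hasFiniteIntegral_iff_ofReal hb2]
    exact h1.trans_lt ENNReal.ofReal_lt_top
  have hi2 : Integrable (fun θ : Fin 5 → ℝ => log ‖(1 : ℂ) + ∑ j : Fin 5, ee (θ j)‖)
      (Measure.pi fun _ => ν1) := by
    exact ((integrable_const (log 6)).sub hi).congr (ae_of_all _ fun θ => by simp)
  unfold GG at h1
  rw [← ofReal_integral_eq_lintegral_ofReal hi hb2, ENNReal.ofReal_eq_ofReal_iff
    (integral_nonneg_of_ae hb2) (by
      rw [← integral_sub (integrable_const _) logmax.1]; exact integral_nonneg hb),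
    integral_sub (integrable_const _) hi2] at h1
  simp only [integral_const, probReal_univ, one_smul] at h1
  rw [h0]; linarith

end Pool.Agent.Lib.MP_870895_nt
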