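import Pool.Agent.Lib.MP_870895_nt.Tele

set_option autoImplicit false

open Real Filter Topology Set

namespace Pool.Agent.Lib.MP_870895_nt

noncomputable def lat (e : ℝ) (G : ℝ → ℝ) (s x t : ℝ) : ℝ :=
  ∑' k : ℤ, e ^ k * (G ((k + x) * t) - s * sg k)

noncomputable def D2 (a b : ℝ) : ℝ × ℝ →L[ℝ] ℝ :=
  a • ContinuousLinearMap.fst ℝ ℝ ℝ + b • ContinuousLinearMap.snd ℝ ℝ ℝ

@[simp] lemma D2_apply (a b : ℝ) (p : ℝ × ℝ) : D2 a b p = a * p.1 + b * p.2 := by simp [D2]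

lemma norm_D2_le (a b : ℝ) : ‖D2 a b‖ ≤ |a| + |b| := by
  refine ContinuousLinearMap.opNorm_le_bound _ (by positivity) fun p => ?_
  rw [D2_apply, Real.norm_eq_abs]
  have h1 : |p.1| ≤ ‖p‖ := norm_fst_le p
  have h2 : |p.2| ≤ ‖p‖ := norm_snd_le p
  calc _ ≤ |a * p.1| + |b * p.2| := abs_add_le _ _
    _ = |a| * |p.1| + |b| * |p.2| := by rw [abs_mul, abs_mul]
    _ ≤ |a| * ‖p‖ + |b| * ‖p‖ := by gcongr
    _ = _ := by ring

lemma lat_zero (e : ℝ) (G : ℝ → ℝ) (x t : ℝ) : lat e G 0 x t = mom e G 0 x t := by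
  simp [lat, mom, M]

lemma Zt_eq (G : ℝ → ℝ) (x t : ℝ) : Zt G x t = lat 1 G 1 x t - 2 * x := by simp [lat, Zt]

lemma hasFDerivAt_lat {e δ δ' s x t r : ℝ} {G g : ℝ → ℝ} (he : Sgn e) (ht : 0 < t) (hr : 0 < r)
    (hG : ∀ w, δ ≤ |w| → HasDerivAt G (g w) w) (hg : ExAt δ g)
    (hs : ExAt δ' fun w => G w - s * sgr w)
    (hd : ∀ k : ℤ, ∀ x' ∈ Ioo (x - r) (x + r), ∀ t' ∈ Ioo (t / 2) (2 * t), δ ≤ |(k + x') * t'|) :
    HasFDerivAt (fun p : ℝ × ℝ => lat e G s p.1 p.2) (D2 (t * mom e g 0 x t) (mom e g 1 x t))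
      (x, t) := by
  obtain ⟨C, hC0, hC⟩ := hg.nonneg
  set B := |x| + r with hB
  have hB0 : 0 ≤ B := by positivity
  have h := hasFDerivAt_tsum_of_isPreconnected (𝕜 := ℝ)
    (f := fun (k : ℤ) (p : ℝ × ℝ) => e ^ k * (G ((k + p.1) * p.2) - s * sg k))
    (f' := fun (k : ℤ) (p : ℝ × ℝ) => D2 (p.2 * (e ^ k * ((k + p.1) ^ 0 * g ((k + p.1) * p.2))))
      (e ^ k * ((k + p.1) ^ 1 * g ((k + p.1) * p.2))))
    (s := Ioo (x - r) (x + r) ×ˢ Ioo (t / 2) (2 * t)) (x₀ := (x, t)) (x := (x, t))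
    ((summable_poly_exp 1 (c := t / 2 / 2) (by positivity)).mul_left
      ((2 * t + (1 + B)) * (C * exp (B * (t / 2) / 2))))
    (isOpen_Ioo.prod isOpen_Ioo) (isPreconnected_Ioo.prod isPreconnected_Ioo) ?_ ?_
    ⟨⟨by linarith, by linarith⟩, ⟨by linarith, by linarith⟩⟩
    ((dec_comp_sg hs x ht).summable_e he)
    ⟨⟨by linarith, by linarith⟩, ⟨by linarith, by linarith⟩⟩
  · have hd := dec_comp hg x ht
    have h1 := (((M_hasSum he hd x 0).mul_left t).smul_const (ContinuousLinearMap.fst ℝ ℝ ℝ)).add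
      ((M_hasSum he hd x 1).smul_const (ContinuousLinearMap.snd ℝ ℝ ℝ))
    have h2 := h1.tsum_eq
    unfold lat mom
    unfold D2 at h ⊢
    rw [← h2]; exact h
  · rintro k ⟨x', t'⟩ ⟨hx', ht'⟩
    have h1 : HasFDerivAt (fun p : ℝ × ℝ => (k + p.1) * p.2) (D2 t' (k + x')) (x', t') := by
      have := ((hasFDerivAt_fst (𝕜 := ℝ) (p := (x', t'))).const_add (k : ℝ)).mul
        (hasFDerivAt_snd (𝕜 := ℝ) (p := (x', t')))
      refine this.congr_fderiv ?_
      ext <;> simp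
    have h2 := (((hG _ (hd k x' hx' t' ht')).comp_hasFDerivAt (x', t') h1).sub_const
      (s * sg k)).const_mul (e ^ k)
    refine h2.congr_fderiv (ContinuousLinearMap.ext fun p => ?_)
    simp only [smul_apply, D2_apply, smul_eq_mul]; ring
  · rintro k ⟨x', t'⟩ ⟨hx', ht'⟩
    refine (norm_D2_le _ _).trans ?_
    simp only at hx' ht' ⊢
    have hx1 : |x'| ≤ B := by
      rw [abs_le]; constructor
      · linarith [neg_abs_le x, hx'.1]
      · linarith [le_abs_self x, hx'.2]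
    have h1 := hC _ (hd k x' hx' t' ht')
    have h2 := exp_shift k (half_pos ht) ht'.1.le hx1
    have h3 : |g ((k + x') * t')| ≤ C * (exp (B * (t / 2) / 2) * exp (-(t / 2 / 2) * |(k : ℝ)|)) :=
      h1.trans (by gcongr)
    have ht0 : 0 < t' := by linarith [ht'.1]
    have h4 : |(k : ℝ) + x'| ≤ (1 + B) * (1 + |(k : ℝ)|) := by
      have := abs_add_le (k : ℝ) x'
      have := abs_nonneg (k : ℝ)
      nlinarith
    have h5 : t' ≤ 2 * t * (1 + |(k : ℝ)|) := by
      have := abs_nonneg (k : ℝ)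
      nlinarith [ht'.2]
    simp only [abs_mul, he.abs, pow_zero, pow_one, one_mul, abs_of_pos ht0]
    calc t' * |g ((k + x') * t')| + |k + x'| * |g ((k + x') * t')|
        = (t' + |k + x'|) * |g ((k + x') * t')| := by ring
      _ ≤ (2 * t * (1 + |(k : ℝ)|) + (1 + B) * (1 + |(k : ℝ)|)) *
          (C * (exp (B * (t / 2) / 2) * exp (-(t / 2 / 2) * |(k : ℝ)|))) := by gcongr
      _ = _ := by ring

lemma hasFDerivAt_lat_reg {e δ' s : ℝ} {G g : ℝ → ℝ} (he : Sgn e) (hG : ∀ w, HasDerivAt G (g w) w)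
    (hg : ExAt 0 g) (hs : ExAt δ' fun w => G w - s * sgr w) (x : ℝ) {t : ℝ} (ht : 0 < t) :
    HasFDerivAt (fun p : ℝ × ℝ => lat e G s p.1 p.2) (D2 (t * mom e g 0 x t) (mom e g 1 x t))
      (x, t) :=
  hasFDerivAt_lat he ht one_pos (fun w _ => hG w) hg hs fun _ _ _ _ _ => abs_nonneg _

lemma hasFDerivAt_lat_sing {e δ' s : ℝ} {G g : ℝ → ℝ} (he : Sgn e)
    (hG : ∀ w, w ≠ 0 → HasDerivAt G (g w) w)
    (hg : ∀ δ, 0 < δ → ExAt δ g) (hs : ExAt δ' fun w => G w - s * sgr w) {x t : ℝ}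
    (hx : x ∈ Ioo (0 : ℝ) 1) (ht : 0 < t) :
    HasFDerivAt (fun p : ℝ × ℝ => lat e G s p.1 p.2) (D2 (t * mom e g 0 x t) (mom e g 1 x t))
      (x, t) := by
  set r := min x (1 - x) / 2 with hr
  have hr0 : 0 < r := by have := hx.1; have := hx.2; rw [hr]; have : 0 < 1 - x := by linarith
                         positivity
  have hr1 : 2 * r ≤ x := by rw [hr]; linarith [min_le_left x (1 - x)]
  have hr2 : 2 * r ≤ 1 - x := by rw [hr]; linarith [min_le_right x (1 - x)]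
  have hδ : 0 < r * (t / 2) := by positivity
  refine hasFDerivAt_lat he ht hr0 (fun w hw => hG w ?_) (hg _ hδ) hs ?_
  · rintro rfl; simp at hw; linarith
  · intro k x' hx' t' ht'
    have ht0 : 0 < t' := by linarith [ht'.1]
    rw [abs_mul, abs_of_pos ht0]
    have : r ≤ |(k : ℝ) + x'| := by
      rcases le_or_gt 0 k with h | h
      · have : (0 : ℝ) ≤ k := by exact_mod_cast h
        exact le_trans (by linarith [hx'.1]) (le_abs_self _)
      · have : (k : ℝ) ≤ -1 := by exact_mod_cast (show k ≤ -1 by omega)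
        exact le_trans (by linarith [hx'.2]) (neg_le_abs _)
    exact mul_le_mul this ht'.1.le (by positivity) (abs_nonneg _)

lemma fd_x {F : ℝ × ℝ → ℝ} {a b x t : ℝ} (h : HasFDerivAt F (D2 a b) (x, t)) :
    HasDerivAt (fun y => F (y, t)) a x := by
  have h1 : HasDerivAt (fun y : ℝ => (y, t)) ((1 : ℝ), (0 : ℝ)) x :=
    (hasDerivAt_id x).prodMk (hasDerivAt_const x t)
  exact (h.comp_hasDerivAt x h1).congr_deriv (by simp)

lemma fd_t {F : ℝ × ℝ → ℝ} {a b x t : ℝ} (h : HasFDerivAt F (D2 a b) (x, t)) :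
    HasDerivAt (fun y => F (x, y)) b t := by
  have h1 : HasDerivAt (fun y : ℝ => (x, y)) ((0 : ℝ), (1 : ℝ)) t :=
    (hasDerivAt_const t x).prodMk (hasDerivAt_id t)
  exact (h.comp_hasDerivAt t h1).congr_deriv (by simp)

/-- limits of lattice sums as the period tends to infinity -/
lemma tendsto_mom_atTop {e x : ℝ} {ρ : ℝ → ℝ} (he : Sgn e) (hρ : ExAt 1 ρ) (hx : x ∈ Ioo (0 : ℝ) 1) :
    Tendsto (fun t => mom e ρ 0 x t) atTop (𝓝 0) := by
  obtain ⟨C, hC0, hC⟩ := hρ.nonneg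
  have hk : ∀ k : ℤ, min x (1 - x) ≤ |(k : ℝ) + x| := fun k => by
    rcases le_or_gt 0 k with h | h
    · have : (0 : ℝ) ≤ k := by exact_mod_cast h
      exact le_trans (by linarith [min_le_left x (1 - x)]) (le_abs_self _)
    · have : (k : ℝ) ≤ -1 := by exact_mod_cast (show k ≤ -1 by omega)
      exact le_trans (by linarith [min_le_right x (1 - x)]) (neg_le_abs _)
  have hm : 0 < min x (1 - x) := lt_min hx.1 (by linarith [hx.2])
  have hev : ∀ᶠ t : ℝ in atTop, ∀ k : ℤ, ‖e ^ k * ((k + x) ^ 0 * ρ ((k + x) * t))‖ ≤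
      C * exp (-|(k + x) * t| / 2) := by
    filter_upwards [eventually_ge_atTop (min x (1 - x))⁻¹] with t ht k
    have ht0 : 0 < t := (inv_pos.2 hm).trans_le ht
    rw [Real.norm_eq_abs, abs_mul, he.abs, pow_zero, one_mul, one_mul]
    refine hC _ ?_
    rw [abs_mul, abs_of_pos ht0]
    calc (1 : ℝ) = min x (1 - x) * (min x (1 - x))⁻¹ := (mul_inv_cancel₀ hm.ne').symm
      _ ≤ _ := mul_le_mul (hk k) ht (by positivity) (abs_nonneg _)
  have h := tendsto_tsum_of_dominated_convergence (𝓕 := atTop)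
    (f := fun (t : ℝ) (k : ℤ) => e ^ k * ((k + x) ^ 0 * ρ ((k + x) * t))) (g := fun _ => 0)
    ((summable_poly_exp 0 (c := 1 / 2) (by positivity)).mul_left (C * exp (|x| * 1 / 2))) ?_ ?_
  · simpa [mom, M] using h
  · intro k
    refine squeeze_zero_norm' (hev.mono fun t ht => ht k) ?_
    have h1 : Tendsto (fun t : ℝ => -|(k + x) * t| / 2) atTop atBot := by
      refine Tendsto.atBot_div_const two_pos (tendsto_neg_atTop_atBot.comp ?_)
      have h2 : Tendsto (fun t : ℝ => |k + x| * t) atTop atTop :=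
        tendsto_id.const_mul_atTop (hm.trans_le (hk k))
      refine h2.congr' ?_
      filter_upwards [eventually_ge_atTop 0] with t ht
      rw [abs_mul, abs_of_nonneg ht]
    simpa using (tendsto_exp_atBot.comp h1).const_mul C
  · filter_upwards [hev, eventually_ge_atTop 1] with t ht ht1 k
    refine (ht k).trans ?_
    have h2 := exp_shift k one_pos ht1 (le_refl |x|)
    calc _ ≤ C * (exp (|x| * 1 / 2) * exp (-(1 / 2) * |(k : ℝ)|)) := by gcongr
      _ = _ := by ring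

lemma tendsto_lat_atTop {e x s : ℝ} {G : ℝ → ℝ} (he : Sgn e)
    (hs : ExAt 1 fun w => G w - s * sgr w) (hx : x ∈ Ioo (0 : ℝ) 1) :
    Tendsto (fun t => lat e G s x t) atTop (𝓝 s) := by
  have h := (tendsto_mom_atTop he hs hx).add_const s
  rw [zero_add] at h
  refine h.congr' ?_
  filter_upwards [eventually_gt_atTop 0] with t ht
  have h1 := (M_hasSum he (dec_comp hs x ht) x 0).add (hasSum_ite_eq (0 : ℤ) s)
  refine ((hs_congr h1 (fun k => ?_) rfl).tsum_eq).symm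
  rcases lt_trichotomy k 0 with h0 | rfl | h0
  · have : (k : ℝ) ≤ -1 := by exact_mod_cast (show k ≤ -1 by omega)
    rw [sg_of_neg h0, sgr_of_neg (mul_neg_of_neg_of_pos (by linarith [hx.2]) ht), if_neg h0.ne]
    ring
  · rw [sgr_pos (mul_pos (by simpa using hx.1) ht), sg_zero]; simp
  · have : (0 : ℝ) < k := by exact_mod_cast h0
    rw [sg_pos h0, sgr_pos (mul_pos (by linarith [hx.1]) ht), if_neg h0.ne']
    ring

/-! derivatives of the elementary functions -/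

lemma hasDerivAt_th (w : ℝ) : HasDerivAt th (sech w * sech w) w := by
  have h := (hasDerivAt_sinh w).mul ((hasDerivAt_cosh w).inv (cosh_pos w).ne')
  refine h.congr_deriv ?_
  have := (cosh_pos w).ne'
  simp only [sech, Pi.inv_apply]
  field_simp
  linarith [cosh_sq w]

lemma hasDerivAt_sech (w : ℝ) : HasDerivAt sech (-(th w * sech w)) w := by
  have h := (hasDerivAt_cosh w).inv (cosh_pos w).ne'
  refine h.congr_deriv ?_
  have := (cosh_pos w).ne'
  simp only [sech, th]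
  field_simp

lemma hasDerivAt_csch {w : ℝ} (hw : w ≠ 0) : HasDerivAt csch (-(coth w * csch w)) w := by
  have h0 : sinh w ≠ 0 := by simpa using hw
  have h := (hasDerivAt_sinh w).inv h0
  refine h.congr_deriv ?_
  simp only [csch, coth]
  field_simp

lemma hasDerivAt_coth {w : ℝ} (hw : w ≠ 0) : HasDerivAt coth (-(csch w * csch w)) w := by
  have h0 : sinh w ≠ 0 := by simpa using hw
  have h := (hasDerivAt_cosh w).mul ((hasDerivAt_sinh w).inv h0)
  refine h.congr_deriv ?_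
  simp only [csch, Pi.inv_apply]
  field_simp
  linarith [cosh_sq w]

lemma exS_coth_csch {δ : ℝ} (hδ : 0 < δ) : ExS δ fun w => -(coth w * csch w) := by
  have := (exS_csch hδ).bdd_mul (b := fun w => -coth w) (B := 3 + δ⁻¹) (by positivity)
    fun w hw => by rw [abs_neg]; exact abs_coth_le hδ w hw
  simpa using this

lemma exAt_csch_sq {δ : ℝ} (hδ : 0 < δ) : ExAt δ fun w => -(csch w * csch w) := by
  refine ((exS_csch hδ).exAt.bdd_mul (B := 2 + δ⁻¹) fun w hw => ?_).neg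
  have hu : 0 < |w| := hδ.trans_le hw
  have h3 : exp (-|w|) ≤ 1 := exp_le_one_iff.2 (by linarith)
  rw [abs_csch]
  calc _ ≤ (2 + |w|⁻¹) * exp (-|w|) := csch_le hu
    _ ≤ (2 + δ⁻¹) * 1 := by gcongr
    _ = _ := by ring

lemma exAt_zero_sgr {δ : ℝ} {G : ℝ → ℝ} (h : ExAt δ G) : ExAt δ fun w => G w - 0 * sgr w := by
  simpa using h

lemma exAt_one_sgr {δ : ℝ} {G : ℝ → ℝ} (h : ExS δ fun w => G w - sgr w) :
    ExAt δ fun w => G w - 1 * sgr w := by
  simpa using h.exAt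

end Pool.Agent.Lib.MP_870895_nt
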