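import Pool.Agent.Lib.MP_870895_nt.Torus

set_option autoImplicit false

open Real Filter Topology Set MeasureTheory

namespace Pool.Agent.Lib.MP_870895_nt

variable {e t η : ℝ}

noncomputable def pp (e s : ℝ) : ℝ := 3 / π ^ 2 * aa e (1 / 3) s

def Im1 (e η : ℝ) (S : Set ℝ) : Set (ℝ × ℝ) := (fun p => fr (ang e η p)) '' (Ioo 0 1 ×ˢ S)
def Im (e : ℝ) (S : Set ℝ) : Set (ℝ × ℝ) := Im1 e 1 S ∪ Im1 e (-1) S

lemma ang_inj' (he : Sgn e) {η η' : ℝ} (hη : Sgn η) (hη' : Sgn η') {p q : ℝ × ℝ}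
    (hp : p ∈ Ioo (0 : ℝ) 1 ×ˢ Ioi (0 : ℝ)) (hq : q ∈ Ioo (0 : ℝ) 1 ×ˢ Ioi (0 : ℝ))
    (h : fr (ang e η p) = fr (ang e η' q)) : p = q ∧ η = η' := by
  obtain ⟨x, t⟩ := p
  obtain ⟨y, s⟩ := q
  have h1 := RR_ang he hη hp.2 x
  have h2 := RR_ang he hη' hq.2 y
  rw [h, h2] at h1
  obtain rfl : t = s := (yy_mono he).injOn hp.2 hq.2 (by simp only [h1])
  obtain ⟨rfl, h3⟩ := ang_inj he hη hη' hp.2 hp.1 hq.1 h
  exact ⟨rfl, h3⟩

lemma continuousOn_jac (he : Sgn e) :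
    ContinuousOn (fun t => t * mom e csch 2 (1 / 3) t) (Ioi 0) := fun t ht =>
  (continuousAt_id.mul ((continuousAt_U2 he (v := 1 / 3) ⟨by norm_num, by norm_num⟩ ht).comp
    (f := fun t : ℝ => ((1 / 3 : ℝ), t)) (by fun_prop))).continuousWithinAt

lemma vol_Im1 (he : Sgn e) (hη : Sgn η) {S : Set ℝ} (hS : MeasurableSet S) (hS0 : S ⊆ Ioi 0) :
    MeasurableSet (Im1 e η S) ∧ volume (Im1 e η S) =
      ∫⁻ t in S, ENNReal.ofReal (3 / (2 * π ^ 2) * (t * mom e csch 2 (1 / 3) t)) := by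
  have hD : MeasurableSet (Ioo (0 : ℝ) 1 ×ˢ S) := measurableSet_Ioo.prod hS
  have h := vol_fract_image (f := ang e η) (f' := fderiv ℝ (ang e η)) hD (fun p hp => by
      obtain ⟨L, hL, -⟩ := hasFDerivAt_ang he hη (hS0 hp.2) p.1
      exact hL.differentiableAt.hasFDerivAt)
    (fun p hp q hq h => (ang_inj' he hη hη ⟨hp.1, hS0 hp.2⟩ ⟨hq.1, hS0 hq.2⟩ h).1)
  refine ⟨h.1, h.2.trans ?_⟩
  rw [setLIntegral_congr_fun hD (g := fun p : ℝ × ℝ =>
    ENNReal.ofReal (3 / (2 * π ^ 2) * (p.2 * mom e csch 2 (1 / 3) p.2))) (fun p hp => by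
      obtain ⟨L, hL, hL'⟩ := hasFDerivAt_ang he hη (hS0 hp.2) p.1
      simp only [hL.fderiv, hL'])]
  have hm : AEMeasurable (fun t => ENNReal.ofReal (3 / (2 * π ^ 2) * (t * mom e csch 2 (1 / 3) t)))
      (volume.restrict S) :=
    ((((continuousOn_jac he).mono hS0).aemeasurable hS).const_mul _).ennreal_ofReal
  rw [Measure.volume_eq_prod, ← Measure.prod_restrict, lintegral_prod _ hm.comp_snd]
  simp

lemma vol_Im (he : Sgn e) {S : Set ℝ} (hS : MeasurableSet S) (hS0 : S ⊆ Ioi 0)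
    (hi : IntegrableOn (fun t => t * mom e csch 2 (1 / 3) t) S) :
    MeasurableSet (Im e S) ∧ volume (Im e S) =
      ENNReal.ofReal (3 / π ^ 2 * ∫ t in S, t * mom e csch 2 (1 / 3) t) := by
  have h1 := vol_Im1 he sgn_one hS hS0
  have h2 := vol_Im1 he sgn_neg_one hS hS0
  refine ⟨h1.1.union h2.1, ?_⟩
  have hd : Disjoint (Im1 e 1 S) (Im1 e (-1) S) := by
    rw [Set.disjoint_left]
    rintro _ ⟨p, hp, rfl⟩ ⟨q, hq, h⟩
    have := (ang_inj' he sgn_neg_one sgn_one ⟨hq.1, hS0 hq.2⟩ ⟨hp.1, hS0 hp.2⟩ h).2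
    norm_num at this
  have hpos : 0 ≤ᵐ[volume.restrict S] fun t => 3 / (2 * π ^ 2) * (t * mom e csch 2 (1 / 3) t) := by
    filter_upwards [ae_restrict_mem hS] with t ht
    have h0 : 0 < t := hS0 ht
    have := U2_pos he h0
    positivity
  rw [Im, measure_union hd h2.1, h1.2, h2.2,
    ← ofReal_integral_eq_lintegral_ofReal (hi.const_mul _) hpos,
    ← ENNReal.ofReal_add (integral_nonneg_of_ae hpos) (integral_nonneg_of_ae hpos),
    integral_const_mul]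
  congr 1; ring

lemma jac_integral (he : Sgn e) :
    IntegrableOn (fun t => t * mom e csch 2 (1 / 3) t) (Ioi 0) ∧
    (∫ t in Ioi 0, t * mom e csch 2 (1 / 3) t = π ^ 2 / 4 - kap e * (1 / 3)) ∧
    ∀ s, 0 < s → ∫ t in Ioo 0 s, t * mom e csch 2 (1 / 3) t = aa e (1 / 3) s := by
  set A : ℝ → ℝ := fun t => if 0 < t then aa e (1 / 3) t else 0 with hA
  have hd : ∀ t ∈ Ioi (0 : ℝ), HasDerivAt A (t * mom e csch 2 (1 / 3) t) t := fun t ht => by
    refine (fd_t (hasFDerivAt_aa he (1 / 3) ht)).congr_of_eventuallyEq ?_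
    filter_upwards [lt_mem_nhds ht] with s hs
    simp only [hA, if_pos hs]
  have hA0 : A 0 = 0 := by simp [hA]
  have hc : ContinuousWithinAt A (Ici 0) 0 := by
    obtain ⟨C, hC0, hC⟩ := aa_le he 0
    rw [ContinuousWithinAt, hA0]
    have h1 : Tendsto (fun t : ℝ => C * |t|) (𝓝[Ici 0] 0) (𝓝 0) := by
      have : Continuous fun t : ℝ => C * |t| := by fun_prop
      simpa using (this.tendsto 0).mono_left nhdsWithin_le_nhds
    refine squeeze_zero_norm (fun t => ?_) h1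
    simp only [hA]
    split_ifs with h
    · simpa [abs_of_pos h] using hC (1 / 3) t h
    · simp; positivity
  have hp : ∀ t ∈ Ioi (0 : ℝ), 0 ≤ t * mom e csch 2 (1 / 3) t := fun t ht =>
    (mul_pos ht (U2_pos he ht)).le
  have hl : Tendsto A atTop (𝓝 (π ^ 2 / 4 - kap e * (1 / 3))) := by
    refine (tendsto_aa he).congr' ?_
    filter_upwards [eventually_gt_atTop 0] with s hs
    simp only [hA, if_pos hs]
  have hi := integrableOn_Ioi_deriv_of_nonneg hc hd hp hl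
  refine ⟨hi, by rw [integral_Ioi_of_hasDerivAt_of_nonneg hc hd hp hl, hA0, sub_zero], fun s hs => ?_⟩
  have h := intervalIntegral.integral_eq_sub_of_hasDerivAt_of_le hs.le (f := A) (fun t ht => ?_)
    (fun t ht => hd t ht.1)
    ((intervalIntegrable_iff_integrableOn_Ioc_of_le hs.le).2 (hi.mono_set Ioc_subset_Ioi_self))
  · rw [intervalIntegral.integral_of_le hs.le, integral_Ioc_eq_integral_Ioo, hA0] at h
    simpa [hA, hs] using h
  · rcases eq_or_lt_of_le ht.1 with rfl | h0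
    · exact hc.mono Icc_subset_Ici_self
    · exact (hd t h0).continuousAt.continuousWithinAt

def TT : Set (ℝ × ℝ) := Ico 0 1 ×ˢ Ico 0 1
noncomputable def μ2 : Measure (ℝ × ℝ) := volume.restrict TT

lemma vol_TT : volume TT = 1 := by
  rw [TT, Measure.volume_eq_prod, Measure.prod_prod]; simp

instance : IsProbabilityMeasure μ2 := ⟨by rw [μ2, Measure.restrict_apply_univ, vol_TT]⟩

lemma Im_subset (e : ℝ) (S : Set ℝ) : Im e S ⊆ TT := by
  rintro _ (⟨p, -, rfl⟩ | ⟨p, -, rfl⟩) <;>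
    exact ⟨⟨Int.fract_nonneg _, Int.fract_lt_one _⟩, ⟨Int.fract_nonneg _, Int.fract_lt_one _⟩⟩

lemma RR_of_mem (he : Sgn e) {S : Set ℝ} (hS0 : S ⊆ Ioi 0) {θ : ℝ × ℝ} (h : θ ∈ Im e S) :
    ∃ t ∈ S, RR θ = yy e t := by
  rcases h with ⟨p, hp, rfl⟩ | ⟨p, hp, rfl⟩
  · exact ⟨p.2, hp.2, RR_ang he sgn_one (hS0 hp.2) p.1⟩
  · exact ⟨p.2, hp.2, RR_ang he sgn_neg_one (hS0 hp.2) p.1⟩

lemma ae_Im : ∀ᵐ θ ∂μ2, θ ∈ Im 1 (Ioi 0) ∪ Im (-1) (Ioi 0) := by
  have h1 := vol_Im sgn_one measurableSet_Ioi subset_rfl (jac_integral sgn_one).1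
  have h2 := vol_Im sgn_neg_one measurableSet_Ioi subset_rfl (jac_integral sgn_neg_one).1
  have hd : Disjoint (Im 1 (Ioi 0)) (Im (-1) (Ioi 0)) := by
    rw [Set.disjoint_left]
    intro θ ha hb
    obtain ⟨t, ht, h⟩ := RR_of_mem sgn_one subset_rfl ha
    obtain ⟨s, hs, h'⟩ := RR_of_mem sgn_neg_one subset_rfl hb
    have := yy_lt sgn_one ht
    have := yy_lt sgn_neg_one hs
    linarith
  have hm := h1.1.union h2.1
  refine (prob_compl_eq_zero_iff hm).2 ?_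
  rw [μ2, Measure.restrict_apply hm,
    inter_eq_self_of_subset_left (union_subset (Im_subset _ _) (Im_subset _ _)),
    measure_union hd h2.1, h1.2, h2.2, (jac_integral sgn_one).2.1, (jac_integral sgn_neg_one).2.1]
  have hp := pi_pos.ne'
  rw [show 3 / π ^ 2 * (π ^ 2 / 4 - kap 1 * (1 / 3)) = 1 / 4 by rw [kap]; field_simp; ring,
    show 3 / π ^ 2 * (π ^ 2 / 4 - kap (-1) * (1 / 3)) = 3 / 4 by rw [kap]; field_simp; ring,
    ← ENNReal.ofReal_add (by norm_num) (by norm_num)]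
  norm_num

lemma ae_RR : ∀ᵐ θ ∂μ2, ∃ e, Sgn e ∧ ∃ t, 0 < t ∧ RR θ = yy e t := by
  filter_upwards [ae_Im] with θ h
  rcases h with h | h
  · exact ⟨1, sgn_one, RR_of_mem sgn_one subset_rfl h⟩
  · exact ⟨-1, sgn_neg_one, RR_of_mem sgn_neg_one subset_rfl h⟩

lemma law (he : Sgn e) {s : ℝ} (hs : 0 < s) :
    μ2 {θ | e * RR θ < e * yy e s} = ENNReal.ofReal (pp e s) := by
  have h1 := vol_Im he (S := Ioo 0 s) measurableSet_Ioo Ioo_subset_Ioi_self
    ((jac_integral he).1.mono_set Ioo_subset_Ioi_self)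
  rw [(jac_integral he).2.2 s hs] at h1
  have h2 : {θ | e * RR θ < e * yy e s} =ᵐ[μ2] Im e (Ioo 0 s) := by
    filter_upwards [ae_Im] with θ h
    refine propext ⟨fun hθ => ?_, fun hθ => ?_⟩
    · have hθ' : e * RR θ < e * yy e s := hθ
      have h3 : θ ∈ Im e (Ioi 0) := by
        have h4 := yy_lt he hs
        rcases he with rfl | rfl
        · refine h.resolve_right fun hb => ?_
          obtain ⟨t, ht, h'⟩ := RR_of_mem sgn_neg_one subset_rfl hb
          have := yy_lt sgn_neg_one ht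
          linarith
        · refine h.resolve_left fun hb => ?_
          obtain ⟨t, ht, h'⟩ := RR_of_mem sgn_one subset_rfl hb
          have := yy_lt sgn_one ht
          linarith
      rcases h3 with ⟨p, hp, rfl⟩ | ⟨p, hp, rfl⟩
      · rw [RR_ang he sgn_one hp.2 p.1] at hθ'
        exact Or.inl ⟨p, ⟨hp.1, hp.2, ((yy_mono he).lt_iff_lt hp.2 hs).1 hθ'⟩, rfl⟩
      · rw [RR_ang he sgn_neg_one hp.2 p.1] at hθ'
        exact Or.inr ⟨p, ⟨hp.1, hp.2, ((yy_mono he).lt_iff_lt hp.2 hs).1 hθ'⟩, rfl⟩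
    · obtain ⟨t, ht, h'⟩ := RR_of_mem he Ioo_subset_Ioi_self hθ
      change e * RR θ < e * yy e s
      rw [h']; exact yy_mono he ht.1 hs ht.2
  rw [measure_congr h2, μ2, Measure.restrict_apply h1.1,
    inter_eq_self_of_subset_left (Im_subset _ _), h1.2, pp]

lemma pp_nonneg (he : Sgn e) {s : ℝ} (hs : 0 < s) : 0 ≤ pp e s := by
  rw [pp, ← (jac_integral he).2.2 s hs]
  refine mul_nonneg (by positivity) (setIntegral_nonneg measurableSet_Ioo fun t ht => ?_)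
  exact (mul_pos ht.1 (U2_pos he ht.1)).le

lemma law_real (he : Sgn e) {s : ℝ} (hs : 0 < s) :
    μ2.real {θ | e * RR θ < e * yy e s} = pp e s := by
  rw [Measure.real, law he hs, ENNReal.toReal_ofReal (pp_nonneg he hs)]

lemma pp_le_one (he : Sgn e) {s : ℝ} (hs : 0 < s) : pp e s ≤ 1 := by
  rw [← law_real he hs]; exact measureReal_le_one

end Pool.Agent.Lib.MP_870895_nt
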