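import Pool.Agent.Lib.MP_870895_nt.Law

set_option autoImplicit false

open Real Filter Topology Set MeasureTheory

namespace Pool.Agent.Lib.MP_870895_nt

variable {e t : ℝ}

lemma int_poly_exp (n : ℕ) {c : ℝ} (hc : 0 < c) :
    IntegrableOn (fun t : ℝ => (1 + t) ^ n * exp (-(c * t))) (Ioi 0) := by
  have h : IntegrableOn (fun t : ℝ => ∑ j ∈ Finset.range (n + 1),
      (n.choose j : ℝ) * (t ^ j * exp (-(c * t)))) (Ioi 0) :=
    integrable_finsetSum _ fun j _ => (mellin_exp_int j hc).const_mul _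
  refine h.congr_fun (fun t _ => ?_) measurableSet_Ioi
  beta_reduce
  rw [add_comm 1 t, add_pow, Finset.sum_mul]
  exact Finset.sum_congr rfl fun j _ => by ring

lemma int_of_bound {f : ℝ → ℝ} (hf : ContinuousOn f (Ioi 0)) (C : ℝ) (n : ℕ) {c : ℝ} (hc : 0 < c)
    (h : ∀ t, 0 < t → |f t| ≤ C * ((1 + t) ^ n * exp (-(c * t)))) : IntegrableOn f (Ioi 0) := by
  refine ((int_poly_exp n hc).const_mul C).mono' (hf.aestronglyMeasurable measurableSet_Ioi) ?_
  filter_upwards [ae_restrict_mem measurableSet_Ioi] with t ht using h t ht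

lemma continuousOn_uu (he : Sgn e) : ContinuousOn (uu e) (Ioi 0) := fun _ ht =>
  (continuousAt_uu he ht).continuousWithinAt

lemma continuousOn_yy (he : Sgn e) : ContinuousOn (yy e) (Ioi 0) := fun _ ht =>
  (hasDerivAt_yy he ht).continuousAt.continuousWithinAt

lemma continuousOn_aa (he : Sgn e) (v : ℝ) : ContinuousOn (aa e v) (Ioi 0) := fun _ ht =>
  (fd_t (hasFDerivAt_aa he v ht)).continuousAt.continuousWithinAt

lemma inv_mul_pow (ht : 0 < t) (n : ℕ) : (1 + t⁻¹) ^ n * t ^ n = (1 + t) ^ n := by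
  rw [← mul_pow]; congr 1; field_simp; ring

lemma int_uu_aa (he : Sgn e) : IntegrableOn (fun s => uu e s * aa e (1 / 3) s) (Ioi 0) := by
  obtain ⟨C, hC0, hC⟩ := U_le he 1
  obtain ⟨D, hD0, hD⟩ := aa_le he 2
  refine int_of_bound ((continuousOn_uu he).mul (continuousOn_aa he _)) (C * D) 3
    (c := 1 / 12) (by norm_num) fun s hs => ?_
  have h1 := hC (1 / 3) ⟨le_rfl, by norm_num⟩ s hs
  have h2 := hD (1 / 3) s hs
  rw [abs_mul, ← inv_mul_pow hs, show -(1 / 12 * s) = -s / 12 by ring]
  calc _ ≤ (C * (1 + s⁻¹) ^ (1 + 2) * exp (-s / 12)) * (D * s ^ (2 + 1)) :=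
        mul_le_mul h1 h2 (abs_nonneg _) (by positivity)
    _ = _ := by ring

noncomputable def HH (e M s : ℝ) : ℝ := if e * M < e * yy e s then 2 * uu e s else 0

lemma HH_same (he : Sgn e) (ht : 0 < t) :
    ∫ s in Ioi 0, HH e (yy e t) s = 2 * ∫ s in Ioi t, uu e s := by
  rw [setIntegral_congr_fun measurableSet_Ioi (g := indicator (Ioi t) fun s => 2 * uu e s)
    fun s hs => ?_, setIntegral_indicator measurableSet_Ioi, Ioi_inter_Ioi, max_eq_right ht.le,
    integral_const_mul]
  simp only [HH, indicator, mem_Ioi, (yy_mono he).lt_iff_lt ht hs]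

lemma HH_opp (he : Sgn e) (ht : 0 < t) : ∫ s in Ioi 0, HH (-e) (yy e t) s = 0 := by
  rw [setIntegral_congr_fun measurableSet_Ioi (g := fun _ => 0) fun s hs => ?_, integral_zero]
  have h1 := yy_lt he ht
  have h2 := yy_lt (e := -e) (by rcases he with rfl | rfl; exacts [sgn_neg_one, by simpa using sgn_one]) hs
  simp only [HH]
  rw [if_neg (by linarith)]

lemma log_eq_HH {M : ℝ} (h : ∃ e, Sgn e ∧ ∃ t, 0 < t ∧ M = yy e t) :
    log M = (∫ s in Ioi 0, HH (-1) M s) - ∫ s in Ioi 0, HH 1 M s := by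
  obtain ⟨e, he, t, ht, rfl⟩ := h
  rw [(log_yy he ht).2]
  rcases he with rfl | rfl
  · rw [HH_opp sgn_one ht, HH_same sgn_one ht]; ring
  · have := HH_opp sgn_neg_one ht
    rw [neg_neg] at this
    rw [this, HH_same sgn_neg_one ht]; ring

noncomputable def MX (w : (ℝ × ℝ) × (ℝ × ℝ)) : ℝ := max (RR w.1) (RR w.2)

lemma continuous_ee : Continuous ee := by unfold ee; fun_prop
lemma continuous_S3 : Continuous S3 := by have := continuous_ee; unfold S3; fun_prop
lemma continuous_RR : Continuous RR := continuous_S3.norm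
lemma continuous_MX : Continuous MX := by have := continuous_RR; unfold MX; fun_prop

lemma fub (he : Sgn e) {q : ℝ → ℝ} (hq : ∀ s, 0 < s →
      (μ2.prod μ2).real {w | e * MX w < e * yy e s} = q s)
    (hi : IntegrableOn (fun s => 2 * uu e s * q s) (Ioi 0)) :
    Integrable (fun w => ∫ s in Ioi 0, HH e (MX w) s) (μ2.prod μ2) ∧
      ∫ w, (∫ s in Ioi 0, HH e (MX w) s) ∂(μ2.prod μ2) = ∫ s in Ioi 0, 2 * uu e s * q s := by
  have hm : ∀ s, MeasurableSet {w | e * MX w < e * yy e s} := fun s =>
    measurableSet_lt (continuous_MX.measurable.const_mul e) measurable_const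
  have hH : ∀ s, (fun w => HH e (MX w) s) =
      indicator {w | e * MX w < e * yy e s} fun _ => 2 * uu e s := fun s => by
    funext w; simp only [HH, indicator, mem_ofPred_eq]
  have h1 : ∀ s, 0 < s → ∫ w, HH e (MX w) s ∂(μ2.prod μ2) = 2 * uu e s * q s := fun s hs => by
    rw [hH, integral_indicator_const _ (hm s), hq s hs, smul_eq_mul, mul_comm]
  have hmeas : AEStronglyMeasurable (Function.uncurry fun w s => HH e (MX w) s)
      ((μ2.prod μ2).prod (volume.restrict (Ioi 0))) := by
    have hu := ((continuousOn_uu he).aemeasurable measurableSet_Ioi (μ := volume)).comp_snd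
      (μ := μ2.prod μ2)
    have hy := ((continuousOn_yy he).aemeasurable measurableSet_Ioi (μ := volume)).comp_snd
      (μ := μ2.prod μ2)
    have h2 := (hu.const_mul 2).indicator₀ (nullMeasurableSet_lt
      ((continuous_MX.comp continuous_fst).measurable.aemeasurable.const_mul e) (hy.const_mul e))
    exact h2.aestronglyMeasurable
  have hint : Integrable (Function.uncurry fun w s => HH e (MX w) s)
      ((μ2.prod μ2).prod (volume.restrict (Ioi 0))) := by
    rw [integrable_prod_iff' hmeas]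
    refine ⟨ae_of_all _ fun s => ?_, hi.congr_fun (fun s hs => ?_) measurableSet_Ioi⟩
    · simp only [Function.uncurry]
      rw [hH]; exact (integrable_const _).indicator (hm s)
    · beta_reduce
      rw [← h1 s hs]
      refine integral_congr_ae (ae_of_all _ fun w => ?_)
      simp only [Function.uncurry, HH]
      have := uu_pos he hs
      split_ifs
      · rw [Real.norm_of_nonneg (by positivity)]
      · simp
  refine ⟨hint.integral_prod_left, ?_⟩
  rw [integral_integral_swap hint]
  exact setIntegral_congr_fun measurableSet_Ioi h1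

lemma logmax : Integrable (fun w => log (MX w)) (μ2.prod μ2) ∧
    ∫ w, log (MX w) ∂(μ2.prod μ2) =
      (∫ s in Ioi 0, 2 * uu (-1) s * (2 * pp (-1) s - pp (-1) s ^ 2)) -
        ∫ s in Ioi 0, 2 * uu 1 s * pp 1 s ^ 2 := by
  have hb : ∀ e, Sgn e → ∀ q : ℝ → ℝ, ContinuousOn q (Ioi 0) → (∀ s, 0 < s → |q s| ≤ 2) →
      IntegrableOn (fun s => 2 * uu e s * (q s * pp e s)) (Ioi 0) := fun e he q hq hq' => by
    have := ((int_uu_aa he).const_mul (2 * (3 / π ^ 2))).bdd_mul (c := 2)
      (hq.aestronglyMeasurable measurableSet_Ioi)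
      (by filter_upwards [ae_restrict_mem measurableSet_Ioi] with t ht using hq' t ht)
    refine IntegrableOn.congr_fun this (fun s _ => ?_) measurableSet_Ioi
    simp only [pp]; ring
  have hc : ∀ e, Sgn e → ContinuousOn (pp e) (Ioi 0) := fun e he =>
    continuousOn_const.mul (continuousOn_aa he _)
  have hm : ∀ e y : ℝ, MeasurableSet {θ | e * RR θ < e * y} := fun e y =>
    measurableSet_lt (continuous_RR.measurable.const_mul e) measurable_const
  have h1 := fub sgn_one (q := fun s => pp 1 s ^ 2) (fun s hs => ?_) ?_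
  have h2 := fub sgn_neg_one (q := fun s => 2 * pp (-1) s - pp (-1) s ^ 2) (fun s hs => ?_) ?_
  · have h3 : (fun w => log (MX w)) =ᵐ[μ2.prod μ2] fun w =>
        (∫ s in Ioi 0, HH (-1) (MX w) s) - ∫ s in Ioi 0, HH 1 (MX w) s := by
      filter_upwards [Measure.quasiMeasurePreserving_fst.ae ae_RR,
        Measure.quasiMeasurePreserving_snd.ae ae_RR] with w ha hb
      refine log_eq_HH ?_
      rcases max_choice (RR w.1) (RR w.2) with h | h <;> rw [MX, h]
      exacts [ha, hb]
    refine ⟨(h2.1.sub h1.1).congr h3.symm, ?_⟩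
    rw [integral_congr_ae h3, integral_sub h2.1 h1.1, h1.2, h2.2]
  · have h4 : {w | -1 * MX w < -1 * yy (-1) s} =
        ({θ | -1 * RR θ < -1 * yy (-1) s}ᶜ ×ˢ {θ | -1 * RR θ < -1 * yy (-1) s}ᶜ)ᶜ := by
      ext w; simp [MX, imp_iff_not_or]
    rw [h4, measureReal_compl ((hm _ _).compl.prod (hm _ _).compl), measureReal_prod_prod,
      measureReal_compl (hm _ _), law_real sgn_neg_one hs]
    simp only [probReal_univ]; ring
  · refine (hb (-1) sgn_neg_one (fun s => 2 - pp (-1) s) (continuousOn_const.sub (hc _ sgn_neg_one))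
      fun s hs => ?_).congr_fun (fun s _ => by ring) measurableSet_Ioi
    have := pp_nonneg sgn_neg_one hs
    have := pp_le_one sgn_neg_one hs
    rw [abs_le]; constructor <;> linarith
  · have h4 : {w | 1 * MX w < 1 * yy 1 s} =
        {θ | 1 * RR θ < 1 * yy 1 s} ×ˢ {θ | 1 * RR θ < 1 * yy 1 s} := by
      ext w; simp [MX]
    rw [h4, measureReal_prod_prod, law_real sgn_one hs, sq]
  · refine (hb 1 sgn_one (pp 1) (hc _ sgn_one)
      fun s hs => ?_).congr_fun (fun s _ => by ring) measurableSet_Ioi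
    have := pp_nonneg sgn_one hs
    have := pp_le_one sgn_one hs
    rw [abs_le]; constructor <;> linarith

end Pool.Agent.Lib.MP_870895_nt
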