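import Pool.Agent.Lib.MP_870895_nt.QS

set_option autoImplicit false

open Real Filter Topology Set Asymptotics
open Complex (I)
open scoped MatrixGroups UpperHalfPlane ArithmeticFunction.sigma

namespace Pool.Agent.Lib.MP_870895_nt

variable {z : ℂ}

def cE (n : ℕ) : ℤ := if n = 0 then 1 else -24 * (σ 1 n : ℕ)

lemma sigma_le (n : ℕ) : ((σ 1 n : ℕ) : ℝ) ≤ (n : ℝ) ^ 2 := by
  exact_mod_cast ArithmeticFunction.sigma_le_pow_succ 1 n

lemma pg_cE : PG cE := by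
  refine ⟨24, 2, by norm_num, fun n => ?_⟩
  have h0 : (0 : ℝ) ≤ n := n.cast_nonneg
  unfold cE
  split_ifs
  · simp; nlinarith
  · push_cast
    rw [abs_mul, Nat.abs_cast, abs_neg, Nat.abs_ofNat]
    nlinarith [sigma_le n]

noncomputable def EE : ℂ → ℂ := sv cE
noncomputable def DE : ℂ → ℂ := sv (cD cE)

lemma rep_EE : Rep EE cE := pg_cE.rep
lemma rep_DE : Rep DE (cD cE) := pg_cE.cD.rep
lemma hasDerivAt_EE (hz : 0 < z.im) : HasDerivAt EE (2 * π * I * DE z) z := rep_EE.deriv hz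

lemma EE_eq (τ : ℍ) : EE τ = EisensteinSeries.E2 τ :=
  (rep_EE.2 τ τ.2).unique (hs_congrC (EisensteinSeries.hasSum_qExpansion_E2 (z := τ))
    (fun n => by unfold cE qq; split_ifs <;> simp) rfl)

lemma piI_ne : (π * I : ℂ) ≠ 0 := mul_ne_zero (by exact_mod_cast pi_pos.ne') Complex.I_ne_zero

lemma E_tr {a b c d : ℤ} (h : a * d - b * c = 1) (hz : 0 < z.im) :
    (c * z + d ≠ 0 ∧ 0 < ((a * z + b) / (c * z + d)).im) ∧
    EE ((a * z + b) / (c * z + d)) = (c * z + d) ^ 2 * EE z + 6 * c * (c * z + d) / (π * I) := by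
  set γ : SL(2, ℤ) := ⟨!![a, b; c, d], by rwa [Matrix.det_fin_two_of]⟩ with hγ
  have h1 : ((γ • (⟨z, hz⟩ : ℍ) : ℍ) : ℂ) = (a * z + b) / (c * z + d) := by
    rw [UpperHalfPlane.coe_specialLinearGroup_apply]; simp [hγ]
  have h2 : UpperHalfPlane.denom γ (⟨z, hz⟩ : ℍ) = c * z + d := by
    rw [ModularGroup.denom_apply]; simp [hγ]
  have h3 : c * z + d ≠ 0 := h2 ▸ UpperHalfPlane.denom_ne_zero γ (⟨z, hz⟩ : ℍ)
  refine ⟨⟨h3, h1 ▸ (γ • (⟨z, hz⟩ : ℍ)).2⟩, ?_⟩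
  have h4 := congrFun (EisensteinSeries.E2_slash_action γ) ⟨z, hz⟩
  rw [ModularForm.SL_slash_apply, ← EE_eq, h1, h2, Pi.sub_apply, ← EE_eq, Pi.smul_apply,
    EisensteinSeries.D2, h2, riemannZeta_two, zpow_neg, mul_inv_eq_iff_eq_mul₀ (zpow_ne_zero _ h3)] at h4
  rw [h4]
  have hp : (π : ℂ) ≠ 0 := by exact_mod_cast pi_pos.ne'
  have h5 : γ 1 0 = c := rfl
  simp only [h5, smul_eq_mul, zpow_ofNat]
  field_simp
  linear_combination (-6 * (c : ℂ)) * Complex.I_mul_I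

lemma DE_tr {a b c d : ℤ} (h : a * d - b * c = 1) (hz : 0 < z.im) :
    DE ((a * z + b) / (c * z + d)) = (c * z + d) ^ 4 * DE z +
      c * (c * z + d) / (π * I) * (c * z + d) ^ 2 * EE z + 3 * (c * (c * z + d) / (π * I)) ^ 2 := by
  obtain ⟨⟨h1, h2⟩, -⟩ := E_tr h hz
  have hj : HasDerivAt (fun w : ℂ => c * w + d) c z := by
    simpa using ((hasDerivAt_id z).const_mul (c : ℂ)).add_const (d : ℂ)
  have hn : HasDerivAt (fun w : ℂ => a * w + b) a z := by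
    simpa using ((hasDerivAt_id z).const_mul (a : ℂ)).add_const (b : ℂ)
  have h3 := (hasDerivAt_EE h2).comp z (hn.div hj h1)
  have h4 := ((hj.pow 2).mul (hasDerivAt_EE hz)).add ((hj.const_mul (6 * c : ℂ)).div_const (π * I))
  have h5 := h3.unique (h4.congr_of_eventuallyEq (by
    filter_upwards [(isOpen_im 0).mem_nhds hz] with w hw using (E_tr h hw).2))
  have h6 : (a : ℂ) * (c * z + d) - (a * z + b) * c = 1 := by
    have : (a : ℂ) * d - b * c = 1 := by exact_mod_cast h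
    linear_combination this
  have h7 := piI_ne
  rw [h6] at h5
  simp only [Pi.pow_apply] at h5
  push_cast at h5
  rw [mul_assoc 2] at h5
  generalize (π * I : ℂ) = p at *
  generalize (c * z + d : ℂ) = j at *
  field_simp at h5 ⊢
  linear_combination (1 / 2) * h5

noncomputable def eN (N : ℕ) (z : ℂ) : ℂ := EE (N * z)
noncomputable def fN (N : ℕ) (z : ℂ) : ℂ := ((N : ℤ) : ℂ) * DE (N * z)

lemma re (N : ℕ) [NeZero N] : Rep (eN N) (csc N cE) := rep_EE.sc (NeZero.pos N)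
lemma rf (N : ℕ) [NeZero N] : Rep (fN N) fun n => N * csc N (cD cE) n :=
  (rep_DE.sc (NeZero.pos N)).smul N

lemma hasDerivAt_eN (N : ℕ) [NeZero N] (hz : 0 < z.im) :
    HasDerivAt (eN N) (2 * π * I * fN N z) z :=
  ((hasDerivAt_EE (im_mul_pos (NeZero.pos N) hz)).comp z
    ((hasDerivAt_id z).const_mul (N : ℂ))).congr_deriv (by simp [fN]; ring)

lemma ef_tr (N M : ℕ) (hN : N * M = 12) {a b c d : ℤ} (h : a * d - b * (12 * c) = 1)
    (hz : 0 < z.im) :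
    eN N ((a * z + b) / (12 * c * z + d)) =
      (12 * c * z + d) ^ 2 * eN N z + M * (6 * c * (12 * c * z + d) / (π * I)) ∧
    fN N ((a * z + b) / (12 * c * z + d)) = (12 * c * z + d) ^ 4 * fN N z +
      2 * (6 * c * (12 * c * z + d) / (π * I)) * (12 * c * z + d) ^ 2 * eN N z +
      M * (6 * c * (12 * c * z + d) / (π * I)) ^ 2 := by
  have h0 : 0 < N := Nat.pos_of_ne_zero (by rintro rfl; simp at hN)
  have h1 : (N : ℤ) * M = 12 := by exact_mod_cast hN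
  have h2 : (N : ℂ) * M = 12 := by exact_mod_cast hN
  have h3 : a * d - (b * N) * (M * c) = 1 := by rw [← h, ← h1]; ring
  have h4 := (E_tr h3 (im_mul_pos h0 hz)).2
  have h5 := DE_tr h3 (im_mul_pos h0 hz)
  have h6 : ((M * c : ℤ) : ℂ) * (N * z) + d = 12 * c * z + d := by rw [← h2]; push_cast; ring
  have h7 : (a : ℂ) * (N * z) + (b * N : ℤ) = N * (a * z + b) := by push_cast; ring
  rw [h6, h7, mul_div_assoc] at h4 h5
  rw [eN, fN, h4, h5, eN, fN]
  push_cast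
  constructor
  · ring
  · linear_combination (c * (12 * c * z + d) / (π * I) * (12 * c * z + d) ^ 2 * EE (N * z) +
      3 * M * (c * (12 * c * z + d) / (π * I)) ^ 2) * h2

noncomputable def g3 (A B C : ℂ) : ℂ := -5 * (A * B) + 8 * (A * C) - 3 * (B * C)
noncomputable def g4 (e1 e2 e3 e6 : ℂ) : ℂ := g3 (2 * e2 - e1) (3 * e3 - e1) (6 * e6 - e1)

lemma Rep.lin {F G : ℂ → ℂ} {a b : ℕ → ℤ} (hF : Rep F a) (hG : Rep G b) (c d : ℤ) :
    Rep (fun z => (c : ℂ) * F z + (d : ℂ) * G z) fun n => c * a n + d * b n :=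
  (hF.smul c).add (hG.smul d)

lemma Rep.g3 {A B C A' B' C' : ℂ → ℂ} {a b c a' b' c' : ℕ → ℤ} (hA : Rep A a) (hB : Rep B b)
    (hA' : Rep A' a') (hC : Rep C c) (hB' : Rep B' b') (hC' : Rep C' c') :
    Rep (fun z => -5 * (A z * B z) + 8 * (A' z * C z) - 3 * (B' z * C' z))
      fun n => -5 * cmul a b n + 8 * cmul a' c n + -3 * cmul b' c' n :=
  (((hA.mul hB).lin (hA'.mul hC) (-5) 8).add ((hB'.mul hC').smul (-3))).congr
    fun z _ => by push_cast; ring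

lemma id4 (hz : 0 < z.im) :
    50 * ((eN 2 z - eN 1 z) * ((eN 2 z - eN 1 z) + 9 * (eN 6 z - eN 3 z) - 8 * (eN 4 z - eN 2 z)) +
      8 * (((eN 2 z - eN 1 z) - 2 * (eN 4 z - eN 2 z)) * ((eN 2 z - eN 1 z) - 2 * (eN 4 z - eN 2 z)
        - 9 * (eN 6 z - eN 3 z) + 18 * (eN 12 z - eN 6 z)))) =
    15 * g4 (eN 1 z) (eN 2 z) (eN 3 z) (eN 6 z) + 720 * g4 (eN 2 z) (eN 4 z) (eN 6 z) (eN 12 z) +
      3 * (-(eN 1 z ^ 2 - 12 * fN 1 z) + 33 * (eN 2 z ^ 2 - 6 * fN 2 z) +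
        81 * (eN 3 z ^ 2 - 4 * fN 3 z) - 32 * (eN 4 z ^ 2 - 3 * fN 4 z) -
        2673 * (eN 6 z ^ 2 - 2 * fN 6 z) + 2592 * (eN 12 z ^ 2 - fN 12 z)) -
      150 * (-fN 1 z + 9 * fN 2 z - 9 * fN 3 z - 8 * fN 4 z + 9 * fN 6 z) := by
  have z1 := (re 2).lin (re 1) 1 (-1)
  have z2 := (re 4).lin (re 2) 1 (-1)
  have z3 := (re 6).lin (re 3) 1 (-1)
  have z6 := (re 12).lin (re 6) 1 (-1)
  have r1 := z1.lin z2 1 (-2)
  have L := (z1.mul (z1.add (z3.lin z2 9 (-8)))).lin (r1.mul (r1.add (z3.lin z6 (-9) 18))) 50 400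
  have A := (re 2).lin (re 1) 2 (-1)
  have B := (re 3).lin (re 1) 3 (-1)
  have C := (re 6).lin (re 1) 6 (-1)
  have A2 := (re 4).lin (re 2) 2 (-1)
  have B2 := (re 6).lin (re 2) 3 (-1)
  have C2 := (re 12).lin (re 2) 6 (-1)
  have G := (A.g3 B A C B C).lin (A2.g3 B2 A2 C2 B2 C2) (-15) (-720)
  have V := ((((re 1).mul (re 1)).lin ((re 2).mul (re 2)) 3 (-99)).add
    (((re 3).mul (re 3)).lin ((re 4).mul (re 4)) (-243) 96)).add
    (((re 6).mul (re 6)).lin ((re 12).mul (re 12)) 8019 (-7776))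
  have W := (((rf 1).lin (rf 2) (-186) 1944).add ((rf 3).lin (rf 4) (-378) (-1488))).add
    ((rf 6).lin (rf 12) (-14688) 7776)
  have H := ((L.add G).add (V.add W)).sturm 4 (by decide +kernel) (fun a b c d h w hw => by
    simp only [ef_tr 1 12 rfl h hw, ef_tr 2 6 rfl h hw, ef_tr 3 4 rfl h hw, ef_tr 4 3 rfl h hw,
      ef_tr 6 2 rfl h hw, ef_tr 12 1 rfl h hw]
    generalize 6 * c * (12 * c * w + d) / (π * I) = Y
    generalize (12 * c * w + d : ℂ) = j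
    push_cast; ring) hz
  push_cast at H
  unfold g4 g3
  linear_combination H

noncomputable def gg (z : ℂ) : ℂ := g4 (eN 1 z) (eN 2 z) (eN 3 z) (eN 6 z)

lemma hasDerivAt_gg (hz : 0 < z.im) :
    HasDerivAt gg (π * I / 6 * (eN 1 z + 2 * eN 2 z + 3 * eN 3 z + 6 * eN 6 z) * gg z) z := by
  have A := (re 2).lin (re 1) 2 (-1)
  have B := (re 3).lin (re 1) 3 (-1)
  have C := (re 6).lin (re 1) 6 (-1)
  have A' := (rf 2).lin (rf 1) 2 (-1)
  have B' := (rf 3).lin (rf 1) 3 (-1)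
  have C' := (rf 6).lin (rf 1) 6 (-1)
  have H := (((A'.g3 B A' C B' C).add (A.g3 B' A C' B C')).lin
    ((((re 1).lin (re 2) 1 2).add ((re 3).lin (re 6) 3 6)).mul (A.g3 B A C B C)) 12 (-1)).sturm 6
    (by decide +kernel) (fun a b c d h w hw => by
    simp only [ef_tr 1 12 rfl h hw, ef_tr 2 6 rfl h hw, ef_tr 3 4 rfl h hw, ef_tr 6 2 rfl h hw]
    generalize 6 * c * (12 * c * w + d) / (π * I) = Y
    generalize (12 * c * w + d : ℂ) = j
    push_cast; ring) hz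
  push_cast at H
  have h1 := hasDerivAt_eN 1 hz
  have a := ((hasDerivAt_eN 2 hz).const_mul 2).sub h1
  have b := ((hasDerivAt_eN 3 hz).const_mul 3).sub h1
  have c := ((hasDerivAt_eN 6 hz).const_mul 6).sub h1
  refine ((((a.mul b).const_mul (-5)).add ((a.mul c).const_mul 8)).sub
    ((b.mul c).const_mul 3)).congr_deriv ?_
  simp only [gg, g4, g3, Pi.sub_apply]
  linear_combination π * I / 6 * H

lemma gg_decay : ∃ C : ℝ, ∀ z : ℂ, 1 ≤ z.im → ‖gg z - 288 * qq z‖ ≤ C * ‖qq z‖ ^ 2 := by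
  have A := (re 2).lin (re 1) 2 (-1)
  have B := (re 3).lin (re 1) 3 (-1)
  have C := (re 6).lin (re 1) 6 (-1)
  have Q : Rep qq fun n => if n = 1 then 1 else 0 :=
    ⟨⟨1, 0, zero_le_one, fun n => by beta_reduce; split_ifs <;> simp⟩, fun z _ =>
      hs_congrC (hasSum_ite_eq 1 (qq z)) (fun n => by split_ifs with h <;> simp [h]) rfl⟩
  exact (((A.g3 B A C B C).add (Q.smul (-288))).congr (G := fun z => gg z - 288 * qq z)
    fun z _ => by simp only [gg, g4, g3]; push_cast; ring).decay 2 (by decide +kernel)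

end Pool.Agent.Lib.MP_870895_nt
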