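import Pool.Agent.Lib.MP_870895_nt.Smooth

set_option autoImplicit false

open Real Filter Topology Set MeasureTheory

namespace Pool.Agent.Lib.MP_870895_nt

variable {e t : ℝ}

noncomputable def gd (w : ℝ) : ℝ := arctan (sinh w)

lemma hasDerivAt_gd (w : ℝ) : HasDerivAt gd (sech w) w := by
  refine ((hasDerivAt_sinh w).arctan).congr_deriv ?_
  have := (cosh_pos w).ne'
  rw [add_comm, ← cosh_sq, sech]; field_simp

lemma gd_neg (w : ℝ) : gd (-w) = -gd w := by simp [gd]

lemma exAt_gd : ExAt 1 fun w => gd w - π / 2 * sgr w := by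
  have key : ∀ u : ℝ, 1 ≤ u → |gd u - π / 2| ≤ 3 * exp (-u) := fun u hu => by
    have hu0 : 0 < u := by linarith
    have hs : 0 < sinh u := sinh_pos_iff.2 hu0
    have h1 := arctan_inv_of_pos hs
    have h2 : 0 < arctan (sinh u)⁻¹ := arctan_pos.2 (inv_pos.2 hs)
    have h3 := lt_tan h2 (arctan_lt_pi_div_two _)
    rw [tan_arctan] at h3
    rw [abs_sub_comm, gd, ← h1, abs_of_pos h2]
    refine h3.le.trans ((csch_le hu0).trans ?_)
    have h4 : u⁻¹ ≤ 1 := inv_le_one_of_one_le₀ hu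
    gcongr; linarith
  refine ExS.exAt ⟨3, by norm_num, fun w hw => ?_⟩
  beta_reduce
  rcases lt_trichotomy w 0 with h | rfl | h
  · rw [abs_of_neg h] at hw
    have := key (-w) hw
    rw [sgr_of_neg h, abs_of_neg h]
    rw [gd_neg, ← abs_neg] at this
    convert this using 2; ring
  · norm_num at hw
  · rw [abs_of_pos h] at hw
    rw [sgr_pos h, abs_of_pos h, mul_one]; exact key w hw

noncomputable def ph (e x t : ℝ) : ℝ := lat e gd (π / 2) x t
noncomputable def VV (e x t : ℝ) : ℝ := mom e sech 1 x t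

lemma hasFDerivAt_ph (he : Sgn e) (ht : 0 < t) (x : ℝ) :
    HasFDerivAt (fun p : ℝ × ℝ => ph e p.1 p.2) (D2 (t * DD e x t) (VV e x t)) (x, t) :=
  hasFDerivAt_lat_reg he hasDerivAt_gd exS_sech.exAt exAt_gd x ht

lemma hasFDerivAt_ph' (he : Sgn e) (ht : 0 < t) (x c : ℝ) :
    HasFDerivAt (fun p : ℝ × ℝ => ph e (p.1 + c) p.2) (D2 (t * DD e (x + c) t) (VV e (x + c) t))
      (x, t) := by
  have h1 : HasFDerivAt (fun p : ℝ × ℝ => (p.1 + c, p.2)) (ContinuousLinearMap.id ℝ _) (x, t) :=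
    ((hasFDerivAt_fst.add_const c).prodMk hasFDerivAt_snd).congr_fderiv (by ext <;> simp)
  have h2 := HasFDerivAt.comp (f := fun p : ℝ × ℝ => (p.1 + c, p.2)) (x, t)
    (hasFDerivAt_ph he ht (x + c)) h1
  rw [ContinuousLinearMap.comp_id] at h2
  exact h2

noncomputable def ct (e t : ℝ) : ℝ := mom e csch 0 (2 / 3) t - Zt coth (2 / 3) t
noncomputable def rr (e t : ℝ) : ℝ := 2 * Zt th (1 / 3) t + ct e t
noncomputable def ps (e x t : ℝ) : ℝ := ph e x t + ph e (x + 2 / 3) t

lemma hasFDerivAt_ps (he : Sgn e) (ht : 0 < t) (x c : ℝ) :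
    HasFDerivAt (fun p : ℝ × ℝ => ps e (p.1 + c) p.2)
      (D2 (t * (DD e (x + c) t + DD e (x + c + 2 / 3) t)) (VV e (x + c) t + VV e (x + c + 2 / 3) t))
      (x, t) := by
  have h := (hasFDerivAt_ph' he ht x c).add (hasFDerivAt_ph' he ht x (c + 2 / 3))
  simp only [← add_assoc] at h
  exact h.congr_fderiv (ContinuousLinearMap.ext fun p => by simp; ring)

lemma WW_diff (he : Sgn e) (ht : 0 < t) (x : ℝ) :
    WW e (x + 2 / 3) t - WW e x t = (DD e x t + DD e (x + 2 / 3) t) *
      (Zt th (x + 2 / 3) t - Zt th x t + ct e t) := by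
  have h1 := SC he ht x ni_two_third
  have h2 := SC he ht (x + 2 / 3) (ni_neg ni_two_third)
  have h3 := SCd he ht x
  have h4 := SCd he ht (x + 2 / 3)
  rw [mom_neg he (s := -1) (by simp [csch_neg]), Zt_neg coth_neg, add_neg_cancel_right] at h2
  unfold WW DD ct
  linear_combination h4 - h3 - h1 + h2

lemma Q_id (he : Sgn e) (ht : 0 < t) (x : ℝ) :
    rr e t * cos (ps e x t) = Zt th (x + 2 / 3) t - Zt th x t + ct e t ∧
    rr e t * sin (ps e x t) = DD e x t - DD e (x + 2 / 3) t := by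
  set p : ℝ → ℝ := fun x => Zt th (x + 2 / 3) t - Zt th x t + ct e t with hp
  set q : ℝ → ℝ := fun x => DD e x t - DD e (x + 2 / 3) t with hq
  set ψ : ℝ → ℝ := fun x => ps e x t with hψ
  set d : ℝ → ℝ := fun x => t * (DD e x t + DD e (x + 2 / 3) t) with hd
  have dp : ∀ x, HasDerivAt p (d x * -q x) x := fun x => by
    refine ((((hasDerivAt_Zth ht _).comp_add_const x (2 / 3)).sub
      (hasDerivAt_Zth ht x)).add_const _).congr_deriv ?_
    rw [SS2_eq he ht, SS2_eq he ht]; simp only [hd, hq]; ring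
  have dq : ∀ x, HasDerivAt q (d x * p x) x := fun x => by
    refine ((hasDerivAt_DD he ht x).sub
      ((hasDerivAt_DD he ht _).comp_add_const x (2 / 3))).congr_deriv ?_
    simp only [hd, hp]; linear_combination t * WW_diff he ht x
  have dψ : ∀ x, HasDerivAt ψ (d x) x := fun x => by
    simpa using fd_x (hasFDerivAt_ps he ht x 0)
  have hA : ∀ x, HasDerivAt (fun x => p x * cos (ψ x) + q x * sin (ψ x)) 0 x := fun x =>
    (((dp x).mul (dψ x).cos).add ((dq x).mul (dψ x).sin)).congr_deriv (by ring)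
  have hB : ∀ x, HasDerivAt (fun x => q x * cos (ψ x) - p x * sin (ψ x)) 0 x := fun x =>
    (((dq x).mul (dψ x).cos).sub ((dp x).mul (dψ x).sin)).congr_deriv (by ring)
  have cA := is_const_of_deriv_eq_zero (fun x => (hA x).differentiableAt) (fun x => (hA x).deriv)
    x (-(1 / 3))
  have cB := is_const_of_deriv_eq_zero (fun x => (hB x).differentiableAt) (fun x => (hB x).deriv)
    x (-(1 / 3))
  have e1 : -(1 / 3 : ℝ) + 2 / 3 = 1 / 3 := by norm_num
  have h0 : ψ (-(1 / 3)) = 0 := by simp only [hψ, ps, ph, e1, lat_neg he gd_neg]; ring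
  have h1 : p (-(1 / 3)) = rr e t := by simp only [hp, e1, Zt_neg th_neg, rr]; ring
  have h2 : q (-(1 / 3)) = 0 := by simp only [hq, e1, DD_neg he]; ring
  rw [h0, h1, h2, cos_zero, sin_zero] at cA cB
  have h3 := sin_sq_add_cos_sq (ψ x)
  change rr e t * cos (ψ x) = p x ∧ rr e t * sin (ψ x) = q x
  constructor
  · linear_combination -cos (ψ x) * cA + sin (ψ x) * cB + p x * h3
  · linear_combination -sin (ψ x) * cA - cos (ψ x) * cB + q x * h3

lemma DD_add_two (he : Sgn e) (x : ℝ) : DD e (x + 4 / 3 + 2 / 3) t = DD e x t := by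
  rw [show x + 4 / 3 + 2 / 3 = x + 2 by ring]; exact mom_add_two he _ _ _
lemma VV_add_two (he : Sgn e) (x : ℝ) : VV e (x + 4 / 3 + 2 / 3) t = VV e x t := by
  rw [show x + 4 / 3 + 2 / 3 = x + 2 by ring]; exact mom_add_two he _ _ _
lemma Zth_add_two (ht : 0 < t) (x : ℝ) : Zt th (x + 4 / 3 + 2 / 3) t = Zt th x t := by
  rw [show x + 4 / 3 + 2 / 3 = x + 1 + 1 by ring, Zth_add_one ht, Zth_add_one ht]
lemma e43 (x : ℝ) : x + 2 / 3 + 2 / 3 = x + 4 / 3 := by ring

lemma sum_cos_aux (he : Sgn e) (ht : 0 < t) (x : ℝ) :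
    rr e t * (cos (ps e x t) + cos (ps e (x + 2 / 3) t) + cos (ps e (x + 4 / 3) t)) = 3 * ct e t := by
  have h1 := (Q_id he ht x).1
  have h2 := (Q_id he ht (x + 2 / 3)).1
  have h3 := (Q_id he ht (x + 4 / 3)).1
  rw [e43] at h2
  rw [Zth_add_two ht] at h3
  linear_combination h1 + h2 + h3

lemma rr_pos (he : Sgn e) (ht : 0 < t) : 0 < rr e t := by
  have h1 := sum_cos_aux he ht 0
  have h2 := Zth_pos ht (x := 1 / 3) ⟨by norm_num, by norm_num⟩
  have h3 := cos_le_one (ps e 0 t)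
  have h4 := cos_le_one (ps e (0 + 2 / 3) t)
  have h5 := cos_le_one (ps e (0 + 4 / 3) t)
  have h6 : rr e t = 2 * Zt th (1 / 3) t + ct e t := rfl
  by_contra h
  push Not at h
  nlinarith

noncomputable def yy (e t : ℝ) : ℝ := 3 * ct e t / rr e t

lemma sum_cos (he : Sgn e) (ht : 0 < t) (x : ℝ) :
    cos (ps e x t) + cos (ps e (x + 2 / 3) t) + cos (ps e (x + 4 / 3) t) = yy e t := by
  rw [yy, eq_div_iff (rr_pos he ht).ne', mul_comm, sum_cos_aux he ht]

lemma sum_sin (he : Sgn e) (ht : 0 < t) (x : ℝ) :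
    sin (ps e x t) + sin (ps e (x + 2 / 3) t) + sin (ps e (x + 4 / 3) t) = 0 := by
  have h1 := (Q_id he ht x).2
  have h2 := (Q_id he ht (x + 2 / 3)).2
  have h3 := (Q_id he ht (x + 4 / 3)).2
  rw [e43] at h2
  rw [DD_add_two he] at h3
  refine mul_left_cancel₀ (rr_pos he ht).ne' ?_
  linear_combination h1 + h2 + h3

lemma U_shift (he : Sgn e) (j : ℕ) : mom e csch j (-(2 / 3)) t = e * mom e csch j (1 / 3) t := by
  have := mom_add_one (t := t) he csch j (-(2 / 3))
  rw [show -(2 / 3 : ℝ) + 1 = 1 / 3 by norm_num] at this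
  rw [this, ← mul_assoc, he.sq, one_mul]

lemma star_id (he : Sgn e) (ht : 0 < t) : mom e csch 2 (1 / 3) t = ct e t * uu e t := by
  have h := CC he ht ni_two_third ni_two_third (by
    rw [show (2 / 3 : ℝ) + 2 / 3 = -(2 / 3) + 2 by norm_num]
    intro k hk
    exact ni_neg ni_two_third (k + 2) (by push_cast; linarith))
  rw [show (2 / 3 : ℝ) + 2 / 3 = -(2 / 3) + 2 by norm_num, mom_add_two he, mom_add_two he,
    U_shift he, U_shift he] at h
  have h1 := mom_neg (t := t) he (g := csch) (s := -1) (by simp [csch_neg]) 1 (2 / 3)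
  rw [U_shift he] at h1
  rw [show mom e csch 1 (2 / 3) t = e * mom e csch 1 (1 / 3) t by linarith] at h
  refine mul_left_cancel₀ he.ne ?_
  unfold ct uu
  linear_combination (-1 / 2) * h

lemma cross_id (he : Sgn e) (ht : 0 < t) (x : ℝ) :
    VV e x t * DD e (x + 2 / 3) t - DD e x t * VV e (x + 2 / 3) t =
      (Zt th x t - Zt th (x + 2 / 3) t) * (e * uu e t) + 2 * (e * mom e csch 2 (1 / 3) t) := by
  have e1 : x + -(x + 2 / 3) = -(2 / 3) := by ring
  have h := (SS he ht (a := x) (b := -(x + 2 / 3)) (by rw [e1]; exact ni_neg ni_two_third)).2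
  rw [e1, U_shift he, U_shift he, mom_neg he (s := 1) (by simp [sech_neg]),
    mom_neg he (s := 1) (by simp [sech_neg]), Zt_neg th_neg] at h
  unfold VV DD uu
  linear_combination h

lemma cross_sum (he : Sgn e) (ht : 0 < t) (x : ℝ) :
    (VV e x t * DD e (x + 2 / 3) t - DD e x t * VV e (x + 2 / 3) t) +
    (VV e (x + 2 / 3) t * DD e (x + 4 / 3) t - DD e (x + 2 / 3) t * VV e (x + 4 / 3) t) +
    (VV e (x + 4 / 3) t * DD e x t - DD e (x + 4 / 3) t * VV e x t) =
      6 * e * mom e csch 2 (1 / 3) t := by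
  have h1 := cross_id he ht x
  have h2 := cross_id he ht (x + 2 / 3)
  have h3 := cross_id he ht (x + 4 / 3)
  rw [e43] at h2
  rw [DD_add_two he, VV_add_two he, Zth_add_two ht] at h3
  linear_combination h1 + h2 + h3

lemma hasDerivAt_yy (he : Sgn e) (ht : 0 < t) :
    HasDerivAt (yy e) (2 * e * uu e t * yy e t) t := by
  have h := ((fd_t (hasFDerivAt_ps he ht 0 0)).cos.add
    (fd_t (hasFDerivAt_ps he ht 0 (2 / 3))).cos).add (fd_t (hasFDerivAt_ps he ht 0 (4 / 3))).cos
  refine (h.congr_of_eventuallyEq ?_).congr_deriv ?_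
  · filter_upwards [lt_mem_nhds ht] with s hs
    rw [← sum_cos he hs 0]; simp
  · have h1 := (Q_id he ht 0).2
    have h2 := (Q_id he ht (0 + 2 / 3)).2
    have h3 := (Q_id he ht (0 + 4 / 3)).2
    have h4 := cross_sum he ht 0
    have hr := (rr_pos he ht).ne'
    rw [e43] at h2
    rw [DD_add_two he] at h3
    rw [star_id he ht] at h4
    simp only [add_zero, e43, VV_add_two he]
    refine mul_left_cancel₀ hr ?_
    have h5 : rr e t * yy e t = 3 * ct e t := by rw [yy]; field_simp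
    linear_combination -(VV e 0 t + VV e (0 + 2 / 3) t) * h1 -
      (VV e (0 + 2 / 3) t + VV e (0 + 4 / 3) t) * h2 - (VV e (0 + 4 / 3) t + VV e 0 t) * h3 + h4 -
      2 * e * uu e t * h5

lemma tendsto_yy (he : Sgn e) : Tendsto (yy e) atTop (𝓝 1) := by
  have h1 := tendsto_mom_atTop he (exS_csch one_pos).exAt (x := 2 / 3) ⟨by norm_num, by norm_num⟩
  have h2 := (tendsto_lat_atTop sgn_one (exAt_one_sgr exS_coth) (x := 2 / 3)
    ⟨by norm_num, by norm_num⟩).sub_const (2 * (2 / 3))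
  have h3 := (tendsto_lat_atTop sgn_one (exAt_one_sgr exS_th) (x := 1 / 3)
    ⟨by norm_num, by norm_num⟩).sub_const (2 * (1 / 3))
  simp only [← Zt_eq] at h2 h3
  have h4 := h1.sub h2
  have h5 := (h4.const_mul 3).div ((h3.const_mul 2).add h4) (by norm_num)
  convert h5 using 2
  · rfl
  · norm_num

lemma yy_pos (he : Sgn e) (ht : 0 < t) : 0 < yy e t := by
  have hev := (tendsto_yy he).eventually (lt_mem_nhds one_pos)
  have hne : ∀ s, 0 < s → yy e s ≠ 0 := fun s hs h0 => by
    obtain ⟨T, hT, hT'⟩ := (hev.and (eventually_ge_atTop s)).exists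
    have hc : ContinuousOn (fun z => 2 * e * uu e z) (Icc s T) := fun z hz =>
      (continuousAt_const.mul (continuousAt_uu he (hs.trans_le hz.1))).continuousWithinAt
    obtain ⟨K, hK⟩ := isCompact_Icc.exists_bound_of_continuousOn hc
    have := eq_zero_of_abs_deriv_le_mul_abs_self_of_eq_zero_right (f := yy e) (K := K) (a := s)
      (b := T) (fun z hz => (hasDerivAt_yy he (hs.trans_le hz.1)).continuousAt.continuousWithinAt)
      (fun z hz => (hasDerivAt_yy he (hs.trans_le hz.1)).hasDerivWithinAt) h0 (fun z hz => by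
        rw [norm_mul]
        exact mul_le_mul_of_nonneg_right (hK z (Ico_subset_Icc_self hz)) (norm_nonneg _))
      T ⟨hT', le_rfl⟩
    linarith
  by_contra h
  push Not at h
  obtain ⟨T, hT, hT'⟩ := (hev.and (eventually_ge_atTop t)).exists
  obtain ⟨s, hs, hs'⟩ := intermediate_value_Icc hT' (f := yy e)
    (fun z hz => (hasDerivAt_yy he (ht.trans_le hz.1)).continuousAt.continuousWithinAt)
    (show (0 : ℝ) ∈ _ from ⟨h, hT.le⟩)
  exact hne s (ht.trans_le hs.1) hs'

lemma ct_pos (he : Sgn e) (ht : 0 < t) : 0 < ct e t := by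
  have h := yy_pos he ht
  rw [yy] at h
  have := (div_pos_iff_of_pos_right (rr_pos he ht)).1 h
  linarith

lemma U2_pos (he : Sgn e) (ht : 0 < t) : 0 < mom e csch 2 (1 / 3) t := by
  rw [star_id he ht]; exact mul_pos (ct_pos he ht) (uu_pos he ht)

lemma log_yy (he : Sgn e) (ht : 0 < t) :
    IntegrableOn (uu e) (Ioi t) ∧ log (yy e t) = -(2 * e) * ∫ s in Ioi t, uu e s := by
  have hd : ∀ s ∈ Ici t, HasDerivAt (fun s => e / 2 * log (yy e s)) (uu e s) s := fun s hs => by
    have hs0 := ht.trans_le hs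
    have hy := (yy_pos he hs0).ne'
    refine (((hasDerivAt_yy he hs0).log hy).const_mul (e / 2)).congr_deriv ?_
    field_simp
    linear_combination uu e s * he.sq
  have hl : Tendsto (fun s => e / 2 * log (yy e s)) atTop (𝓝 0) := by
    simpa using ((tendsto_yy he).log one_ne_zero).const_mul (e / 2)
  have hp : ∀ s ∈ Ioi t, 0 ≤ uu e s := fun s hs => (uu_pos he (ht.trans hs)).le
  refine ⟨integrableOn_Ioi_deriv_of_nonneg' hd hp hl, ?_⟩
  rw [integral_Ioi_of_hasDerivAt_of_nonneg' hd hp hl]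
  linear_combination -log (yy e t) * he.sq

lemma yy_mono (he : Sgn e) : StrictMonoOn (fun t => e * yy e t) (Ioi 0) := by
  refine strictMonoOn_of_deriv_pos (convex_Ioi _)
    (fun s hs => ((hasDerivAt_yy he hs).const_mul e).continuousAt.continuousWithinAt) fun s hs => ?_
  rw [interior_Ioi] at hs
  rw [((hasDerivAt_yy he hs).const_mul e).deriv]
  have := mul_pos (uu_pos he hs) (yy_pos he hs)
  nlinarith [he.sq]

lemma yy_lt (he : Sgn e) (ht : 0 < t) : e * yy e t < e := by
  have h1 := yy_mono he ht (show t + 1 ∈ Ioi 0 by simp; linarith) (by linarith)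
  have h2 : e * yy e (t + 1) ≤ e * 1 := by
    refine ge_of_tendsto ((tendsto_yy he).const_mul e) ?_
    filter_upwards [eventually_ge_atTop (t + 1)] with s hs
    exact (yy_mono he).monotoneOn (show t + 1 ∈ Ioi 0 by simp; linarith)
      (show s ∈ Ioi 0 by simp; linarith) hs
  simp only at h1
  linarith

end Pool.Agent.Lib.MP_870895_nt
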