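import Pool.Agent.Lib.MP_870895_nt.Util

set_option autoImplicit false

open Real Filter Topology Set MeasureTheory
open scoped FourierTransform

namespace Pool.Agent.Lib.MP_870895_nt

noncomputable def sig (w : ℝ) : ℝ := if w = 0 then 1 else w * csch w

lemma sig_of_ne {w : ℝ} (hw : w ≠ 0) : sig w = w * csch w := if_neg hw

lemma sig_neg (w : ℝ) : sig (-w) = sig w := by
  by_cases h : w = 0
  · simp [h]
  · rw [sig_of_ne h, sig_of_ne (neg_ne_zero.2 h), csch_neg]; ring

lemma sig_abs (w : ℝ) : sig |w| = sig w := by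
  rcases abs_choice w with h | h <;> rw [h]
  exact sig_neg w

lemma sig_pos (w : ℝ) : 0 < sig w := by
  rw [← sig_abs]
  rcases eq_or_lt_of_le (abs_nonneg w) with h | h
  · rw [← h]; simp [sig]
  · rw [sig_of_ne h.ne']; exact mul_pos h (csch_pos h)

lemma mul_sig (w : ℝ) : w * sig w = w ^ 2 * csch w := by
  by_cases h : w = 0
  · simp [h]
  · rw [sig_of_ne h]; ring

lemma continuous_sig : Continuous sig := by
  have h : sig = fun w => (dslope sinh 0 w)⁻¹ := by
    funext w
    by_cases h : w = 0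
    · subst h; simp [sig]
    · rw [sig_of_ne h, dslope_of_ne _ h, slope_def_field]; simp [csch, div_eq_mul_inv]
  have hd : Continuous (dslope sinh 0) := by
    rw [continuous_iff_continuousAt]
    intro w
    by_cases h : w = 0
    · subst h; exact continuousAt_dslope_same.2 differentiableAt_sinh
    · exact (continuousAt_dslope_of_ne h).2 continuous_sinh.continuousAt
  rw [h]
  refine hd.inv₀ fun w h0 => ?_
  have := sig_pos w
  rw [h] at this
  simp [h0] at this

lemma sig_le (w : ℝ) : sig w ≤ 5 * exp (-|w| / 2) := by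
  rw [← sig_abs]
  rcases eq_or_lt_of_le (abs_nonneg w) with h | h
  · rw [← h]; simp [sig]
  · rw [sig_of_ne h.ne']
    have h1 := csch_le h
    have h2 := pow_mul_exp_le 1 _ h.le
    have h3 := pow_mul_exp_le 0 _ h.le
    simp at h2 h3
    calc |w| * csch |w| ≤ |w| * ((2 + |w|⁻¹) * exp (-|w|)) := by gcongr
      _ = 2 * (|w| * exp (-|w|)) + exp (-|w|) := by field_simp
      _ ≤ 2 * (2 * exp (-|w| / 2)) + exp (-|w| / 2) := by gcongr
      _ = _ := by ring

lemma exAt_sig : ExAt 0 sig := ⟨5, fun w _ => by rw [abs_of_pos (sig_pos w)]; exact sig_le w⟩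

lemma hasSum_sig {x : ℝ} (hx : 0 < x) :
    HasSum (fun n : ℕ => 2 * x * exp (-((2 * n + 1) * x))) (sig x) := by
  have h1 : exp (-(2 * x)) < 1 := exp_lt_one_iff.2 (by linarith)
  have h := (hasSum_geometric_of_lt_one (exp_pos _).le h1).mul_left (2 * x * exp (-x))
  refine hs_congr h (fun n => ?_) ?_
  · rw [← exp_nat_mul, mul_assoc (2 * x), ← exp_add]; congr 2; ring
  · rw [sig_of_ne hx.ne', csch, sinh_eq]
    have h2 : exp (-(2 * x)) = exp (-x) * exp (-x) := by rw [← exp_add]; ring_nf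
    have h3 : exp x * exp (-x) = 1 := by rw [← exp_add]; simp
    have h4 : 1 - exp (-(2 * x)) ≠ 0 := by linarith
    have h5 : exp x - exp (-x) ≠ 0 := by
      have : exp (-x) < exp x := exp_lt_exp.2 (by linarith)
      linarith
    rw [h2, ← sq] at h4
    rw [h2, ← sq]
    field_simp
    linear_combination -h3

lemma integrableOn_sig : IntegrableOn sig (Ioi 0) := by
  refine ((exp_neg_integrableOn_Ioi 0 (b := 1 / 2) (by norm_num)).const_mul 5).mono'
    continuous_sig.aestronglyMeasurable ?_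
  filter_upwards [ae_restrict_mem measurableSet_Ioi] with x hx
  have := sig_le x
  rw [abs_of_pos hx] at this
  rw [Real.norm_of_nonneg (sig_pos x).le]
  refine this.trans (le_of_eq ?_); ring_nf

lemma integrable_sig : Integrable sig := by
  have h : IntegrableOn sig (Iic 0) := by
    refine ((integrableOn_exp_mul_Iic (a := 1 / 2) (by norm_num) 0).const_mul 5).mono'
      continuous_sig.aestronglyMeasurable ?_
    filter_upwards [ae_restrict_mem measurableSet_Iic] with x hx
    have := sig_le x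
    rw [abs_of_nonpos hx] at this
    rw [Real.norm_of_nonneg (sig_pos x).le]
    refine this.trans (le_of_eq ?_); ring_nf
  rw [← integrableOn_univ, ← Iic_union_Ioi (a := (0 : ℝ))]
  exact h.union integrableOn_sig

lemma hs_congrC {ι : Type*} {f g : ι → ℂ} {a b : ℂ} (h : HasSum f a) (h1 : ∀ i, g i = f i)
    (h2 : b = a) : HasSum g b := by
  rw [funext h1, h2]; exact h

lemma half_ft (ω : ℝ) : HasSum (fun n : ℕ => 2 / (2 * n + 1 + ω * Complex.I : ℂ) ^ 2)
    (∫ x in Ioi (0 : ℝ), Complex.exp (-(ω * Complex.I * x)) * (sig x : ℂ)) := by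
  have hre : ∀ n : ℕ, (2 * n + 1 + ω * Complex.I : ℂ).re = 2 * n + 1 := fun n => by simp
  have hpos : ∀ n : ℕ, 0 < (2 * n + 1 + ω * Complex.I : ℂ).re := fun n => by
    rw [hre]; positivity
  have h := hasSum_integral_of_summable_integral_norm (μ := volume.restrict (Ioi (0 : ℝ)))
    (F := fun (n : ℕ) (x : ℝ) => 2 * ((x : ℂ) * Complex.exp (-((2 * n + 1 + ω * Complex.I) * x))))
    (fun n => (cmellin (hpos n)).1.const_mul 2) ?_
  · refine hs_congrC h (fun n => ?_) ?_
    · rw [integral_const_mul, (cmellin (hpos n)).2.2]; ring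
    · refine setIntegral_congr_fun measurableSet_Ioi fun x hx => ?_
      have h1 := (Complex.hasSum_ofReal.2 (hasSum_sig hx)).mul_left
        (Complex.exp (-(ω * Complex.I * x)))
      rw [← h1.tsum_eq]
      refine tsum_congr fun n => ?_
      push_cast
      rw [mul_left_comm, ← Complex.exp_add, mul_assoc]; congr 3; ring
  · have h2 : Summable fun n : ℕ => 2 * (1 / ((n : ℝ) + 1) ^ 2) := by
      have := (summable_nat_add_iff 1).2 (summable_one_div_nat_pow.2 one_lt_two)
      exact Summable.mul_left 2 (by simpa using this)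
    refine Summable.of_nonneg_of_le (fun n => integral_nonneg fun _ => norm_nonneg _) (fun n => ?_) h2
    simp only [norm_mul (2 : ℂ)]
    rw [integral_const_mul, (cmellin (hpos n)).2.1, hre]
    have : (0 : ℝ) ≤ n := n.cast_nonneg
    simp only [Complex.norm_ofNat]
    gcongr; linarith

lemma sech_sq_half (y : ℝ) : sech (y / 2) * sech (y / 2) = 4 * exp (-y) / (1 + exp (-y)) ^ 2 := by
  have h1 : exp (-y) = exp (-(y / 2)) * exp (-(y / 2)) := by rw [← exp_add]; ring_nf
  have h3 : exp (y / 2) * exp (-(y / 2)) = 1 := by rw [← exp_add]; simp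
  have := exp_pos (y / 2)
  have := exp_pos (-(y / 2))
  rw [sech, cosh_eq, h1]
  field_simp
  have h4 : exp (y / 2) = (exp (-(y / 2)))⁻¹ := by rw [exp_neg, inv_inv]
  rw [h4]; field_simp; ring

lemma ft_split (ω : ℝ) : ∫ x : ℝ, Complex.exp (-(ω * Complex.I * x)) * (sig x : ℂ) =
    (∫ x in Ioi (0 : ℝ), Complex.exp (-(ω * Complex.I * x)) * (sig x : ℂ)) +
    ∫ x in Ioi (0 : ℝ), Complex.exp (-((-ω : ℝ) * Complex.I * x)) * (sig x : ℂ) := by
  have hi : Integrable fun x : ℝ => Complex.exp (-(ω * Complex.I * x)) * (sig x : ℂ) := by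
    refine integrable_sig.mono' (Continuous.aestronglyMeasurable ?_) (ae_of_all _ fun x => ?_)
    · have := continuous_sig; fun_prop
    · rw [norm_mul, Complex.norm_exp, Complex.norm_real, Real.norm_of_nonneg (sig_pos x).le]
      simp
  rw [← intervalIntegral.integral_Iic_add_Ioi (b := 0) hi.integrableOn hi.integrableOn, add_comm]
  congr 1
  have := integral_comp_neg_Ioi 0 fun x : ℝ => Complex.exp (-(ω * Complex.I * x)) * (sig x : ℂ)
  rw [neg_zero] at this
  rw [← this]
  refine integral_congr_ae (ae_of_all _ fun x => ?_)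
  simp only [sig_neg]; push_cast; ring_nf

lemma ft_pos {ω : ℝ} (hω : 0 < ω) : ∫ x : ℝ, Complex.exp (-(ω * Complex.I * x)) * (sig x : ℂ) =
    (π ^ 2 / 2 * (sech (π * ω / 2) * sech (π * ω / 2)) : ℝ) := by
  have h1 := HasSum.of_nat_of_neg_add_one
    (f := fun k : ℤ => 2 / (2 * k + 1 + ω * Complex.I : ℂ) ^ 2) (by simpa using half_ft ω)
    (hs_congrC (half_ft (-ω)) (fun n => by push_cast; rw [← neg_sq]; congr 2; ring) rfl)
  rw [ft_split, ← h1.tsum_eq]
  have hz : 0 < ((1 + ω * Complex.I) / 2 : ℂ).im := by simp; positivity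
  have h2 := EisensteinSeries.qExpansion_identity (k := 1) le_rfl ⟨_, hz⟩
  simp only at h2
  have hq : Complex.exp (2 * π * Complex.I * ((1 + ω * Complex.I) / 2)) = -(exp (-(π * ω)) : ℝ) := by
    rw [show (2 * π * Complex.I * ((1 + ω * Complex.I) / 2) : ℂ) = π * Complex.I + -(π * ω) by
      linear_combination (π * ω : ℂ) * Complex.I_mul_I, Complex.exp_add, Complex.exp_pi_mul_I]
    push_cast; ring
  have hlt : exp (-(π * ω)) < 1 := exp_lt_one_iff.2 (by have := pi_pos; nlinarith)
  have h3 := hasSum_coe_mul_geometric_of_norm_lt_one (r := -((exp (-(π * ω)) : ℝ) : ℂ)) (by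
    rw [norm_neg, Complex.norm_real, Real.norm_of_nonneg (exp_pos _).le]; exact hlt)
  rw [hq] at h2
  simp only [pow_one] at h2
  rw [h3.tsum_eq] at h2
  have h4 : ∑' k : ℤ, 2 / (2 * k + 1 + ω * Complex.I : ℂ) ^ 2 =
      1 / 2 * ∑' n : ℤ, 1 / ((1 + ω * Complex.I) / 2 + n : ℂ) ^ (1 + 1) := by
    rw [← tsum_mul_left]
    refine tsum_congr fun k => ?_
    rw [show (2 * k + 1 + ω * Complex.I : ℂ) = 2 * ((1 + ω * Complex.I) / 2 + k) by ring, mul_pow,
      one_add_one_eq_two]
    by_cases h : ((1 + ω * Complex.I) / 2 + k : ℂ) = 0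
    · simp [h]
    · field_simp
  rw [h4, h2, sech_sq_half]
  push_cast
  have : (1 : ℂ) + Complex.exp (-(π * ω)) ≠ 0 := by
    have : (0 : ℝ) < 1 + exp (-(π * ω)) := by positivity
    exact_mod_cast this.ne'
  simp only [sub_neg_eq_add, Nat.factorial_one, Nat.cast_one, div_one]
  field_simp
  linear_combination (-4 : ℂ) * Complex.I_mul_I

noncomputable def s2 (y : ℝ) : ℝ := sech y * sech y

lemma s2_neg (y : ℝ) : s2 (-y) = s2 y := by simp [s2, sech_neg]
lemma s2_pos (y : ℝ) : 0 < s2 y := mul_pos (sech_pos y) (sech_pos y)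
lemma s2_zero : s2 0 = 1 := by simp [s2, sech]
lemma continuous_sech : Continuous sech := continuous_cosh.inv₀ fun w => (cosh_pos w).ne'
lemma continuous_s2 : Continuous s2 := continuous_sech.mul continuous_sech
lemma s2_le (y : ℝ) : s2 y ≤ 4 * exp (-(2 * |y|)) := by
  have h := sech_le y
  calc s2 y ≤ (2 * exp (-|y|)) * (2 * exp (-|y|)) :=
        mul_le_mul h h (sech_pos y).le (by positivity)
    _ = _ := by rw [show -(2 * |y|) = -|y| + -|y| by ring, exp_add]; ring

lemma ft (ω : ℝ) : ∫ x : ℝ, Complex.exp (-(ω * Complex.I * x)) * (sig x : ℂ) =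
    (π ^ 2 / 2 * s2 (π * ω / 2) : ℝ) := by
  have hc : Continuous fun ω : ℝ => ∫ x : ℝ, Complex.exp (-(ω * Complex.I * x)) * (sig x : ℂ) := by
    refine continuous_of_dominated (bound := sig) (fun ω => Continuous.aestronglyMeasurable ?_)
      (fun ω => ae_of_all _ fun x => ?_) integrable_sig (ae_of_all _ fun x => by fun_prop)
    · have := continuous_sig; fun_prop
    · rw [norm_mul, Complex.norm_exp, Complex.norm_real, Real.norm_of_nonneg (sig_pos x).le]
      simp
  have hc2 : Continuous fun ω : ℝ => ((π ^ 2 / 2 * s2 (π * ω / 2) : ℝ) : ℂ) := by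
    have := continuous_s2; fun_prop
  refine congrFun (Continuous.ext_on (dense_compl_singleton (0 : ℝ)) hc hc2 fun ω hω => ?_) ω
  rcases lt_or_gt_of_ne (show ω ≠ 0 from hω) with h | h
  · have h1 := ft_pos (neg_pos.2 h)
    rw [ft_split, neg_neg, add_comm, ← ft_split] at h1
    rw [h1, ← s2_neg]; unfold s2; congr 3 <;> ring_nf
  · exact ft_pos h

lemma integral_sig : ∫ x in Ioi (0 : ℝ), sig x = π ^ 2 / 4 := by
  have h := ft 0
  simp only [Complex.ofReal_zero, zero_mul, neg_zero, Complex.exp_zero, one_mul, mul_zero, zero_div,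
    s2_zero, mul_one, integral_complex_ofReal, Complex.ofReal_inj] at h
  have h2 := integral_comp_abs (f := sig)
  simp only [sig_abs] at h2
  linarith

lemma summable_s2 {c : ℝ} (hc : 0 < c) : Summable fun n : ℤ => s2 (c * n) := by
  have := (dec_comp exAt_sech_sq 0 hc).summable
  refine this.congr fun n => ?_
  simp [s2, mul_comm]

lemma poisson1 (v : ℝ) {t : ℝ} (ht : 0 < t) :
    HasSum (fun n : ℤ => π ^ 2 / (4 * t) * s2 (π ^ 2 / (2 * t) * n) * cos (π * n * v))
      (∑' j : ℤ, sig ((2 * j + v) * t)) := by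
  set f : ℝ → ℂ := fun x => (sig (2 * t * x) : ℂ) with hf
  have hF : ∀ ξ : ℝ, 𝓕 f ξ = (π ^ 2 / (4 * t) * s2 (π ^ 2 / (2 * t) * ξ) : ℝ) := by
    intro ξ
    have h1 := Measure.integral_comp_mul_left
      (fun y : ℝ => Complex.exp (-((π * ξ / t : ℝ) * Complex.I * y)) * (sig y : ℂ)) (2 * t)
    rw [ft] at h1
    rw [Real.fourier_real_eq_integral_exp_smul]
    have ht' : (t : ℂ) ≠ 0 := by exact_mod_cast ht.ne'
    convert h1 using 1
    · refine integral_congr_ae (ae_of_all _ fun x => ?_)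
      simp only [hf, smul_eq_mul]
      congr 2; push_cast; field_simp
    · rw [abs_of_pos (by positivity), Complex.real_smul, ← Complex.ofReal_mul]
      congr 1
      rw [show π * (π * ξ / t) / 2 = π ^ 2 / (2 * t) * ξ by field_simp]; field_simp; ring
  have hc0 : 0 < π ^ 2 / (2 * t) := by positivity
  have hs : Summable fun n : ℤ => π ^ 2 / (4 * t) * s2 (π ^ 2 / (2 * t) * n) :=
    (summable_s2 hc0).mul_left _
  have hO : f =O[cocompact ℝ] fun x : ℝ => |x| ^ (-(2 : ℝ)) := by
    refine Asymptotics.IsBigO.of_bound (10 / t ^ 2) ?_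
    filter_upwards [(isCompact_singleton (x := (0 : ℝ))).compl_mem_cocompact] with x hx
    have hx0 : 0 < |x| := abs_pos.2 hx
    rw [hf, Complex.norm_real, Real.norm_of_nonneg (sig_pos _).le,
      Real.norm_of_nonneg (by positivity), rpow_neg hx0.le, rpow_two]
    refine (sig_le _).trans ?_
    rw [abs_mul, abs_of_pos (by positivity : 0 < 2 * t)]
    have h1 := pow_div_factorial_le_exp (t * |x|) (by positivity) 2
    have h2 : exp (-(2 * t * |x|) / 2) = (exp (t * |x|))⁻¹ := by rw [← exp_neg]; ring_nf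
    rw [h2]
    have h3 : (exp (t * |x|))⁻¹ ≤ ((t * |x|) ^ 2 / (Nat.factorial 2))⁻¹ :=
      inv_anti₀ (by positivity) h1
    calc _ ≤ 5 * ((t * |x|) ^ 2 / (Nat.factorial 2))⁻¹ := by gcongr
      _ = _ := by
        generalize |x| = u at hx0
        norm_num [Nat.factorial]; field_simp; ring
  have hP := Real.tsum_eq_tsum_fourier_of_rpow_decay_of_summable (f := f)
    (by have := continuous_sig; fun_prop) one_lt_two hO
    (by simp only [hF]; exact Complex.summable_ofReal.2 hs) (v / 2)
  have hs2 : Summable fun n : ℤ => 𝓕 f n * fourier n ((v / 2 : ℝ) : UnitAddCircle) := by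
    refine Summable.of_norm_bounded hs fun n => ?_
    rw [hF, norm_mul, Complex.norm_real, fourier_apply, Circle.norm_coe, mul_one,
      Real.norm_of_nonneg (mul_pos (by positivity) (s2_pos _)).le]
  have h3 := Complex.hasSum_re hs2.hasSum
  rw [← hP] at h3
  refine hs_congr h3 (fun n => ?_) ?_
  · rw [hF, Complex.re_ofReal_mul, fourier_coe_apply]
    congr 1
    rw [← Complex.exp_ofReal_mul_I_re]; congr 2; push_cast; ring
  · rw [hf]; beta_reduce
    rw [← Complex.ofReal_tsum, Complex.ofReal_re]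
    exact tsum_congr fun j => by congr 1; ring

noncomputable def kap (e : ℝ) : ℝ := π ^ 2 / 4 * (1 + e)
noncomputable def iot (e : ℝ) (m : ℕ) : ℝ := (1 + e * (-1) ^ m) / 2

lemma poisson {e : ℝ} (he : Sgn e) (v : ℝ) {t : ℝ} (ht : 0 < t) :
    HasSum (fun m : ℕ => π ^ 2 * (iot e (m + 1) * cos (π * (m + 1 : ℕ) * v) *
      s2 (π ^ 2 / (2 * t) * (m + 1 : ℕ)))) (t * mom e sig 0 v t - kap e) := by
  have h1 := hasSum_even_odd ((dec_comp exAt_sig v ht).summable_mom' he v 0)
  have h2 : mom e sig 0 v t = (∑' j : ℤ, sig ((2 * j + v) * t)) +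
      e * ∑' j : ℤ, sig ((2 * j + (v + 1)) * t) := by
    have h3 : ∀ j : ℤ, e ^ (2 * j) = 1 := fun j => by rw [zpow_mul, zpow_two, he.sq, one_zpow]
    rw [mom, M, ← h1.1.tsum_eq, h1.2.1.tsum_add h1.2.2, ← tsum_mul_left]
    congr 1 <;> refine tsum_congr fun j => ?_
    · rw [h3]; simp
    · rw [he.add, h3]; push_cast; simp; left; congr 1; ring
  have h4 := (((poisson1 v ht).add ((poisson1 (v + 1) ht).mul_left e)).mul_left t).nat_add_neg
  rw [← h2] at h4
  have h5 := (hasSum_nat_add_iff' 1).2 h4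
  refine hs_congr h5 (fun m => ?_) ?_
  · have h6 : cos (π * (m + 1 : ℕ) * (v + 1)) = (-1) ^ (m + 1) * cos (π * (m + 1 : ℕ) * v) := by
      rw [← cos_add_nat_mul_pi]; congr 1; ring
    simp only [Int.cast_neg, Int.cast_natCast, mul_neg, neg_mul, s2_neg, cos_neg, h6, iot]
    field_simp; ring
  · simp [s2_zero, kap]; field_simp

lemma iot_nonneg {e : ℝ} (he : Sgn e) (m : ℕ) : 0 ≤ iot e m ∧ iot e m ≤ 1 := by
  unfold iot
  rcases he with rfl | rfl <;> rcases neg_one_pow_eq_or ℝ m with h | h <;> rw [h] <;> norm_num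

lemma mom_sig_zero_pos {t : ℝ} (ht : 0 < t) : 0 < mom (-1) sig 0 0 t := by
  have h := poisson sgn_neg_one 0 ht
  have h2 := h.summable.tsum_pos (fun m => by
    have := (iot_nonneg sgn_neg_one (m + 1)).1
    have := s2_pos (π ^ 2 / (2 * t) * (m + 1 : ℕ))
    simp only [mul_zero, cos_zero]; positivity) 0 (by
    have := s2_pos (π ^ 2 / (2 * t) * (0 + 1 : ℕ))
    simp only [mul_zero, cos_zero, iot]; norm_num at *; positivity)
  rw [h.tsum_eq] at h2
  simp only [kap, add_neg_cancel, mul_zero, sub_zero] at h2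
  exact (mul_pos_iff_of_pos_left ht).1 h2

end Pool.Agent.Lib.MP_870895_nt
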