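import Mathlib

set_option autoImplicit false

open Real Filter Topology UpperHalfPlane ModularForm CongruenceSubgroup Asymptotics
open scoped MatrixGroups Manifold

namespace Pool.Agent.Lib.MP_870895_nt

def reps : Fin 24 → ℤ × ℤ × ℤ × ℤ :=
  ![(1, 0, 0, 1), (1, 0, 1, 1), (1, 0, 2, 1), (1, 0, 3, 1), (1, 0, 4, 1), (1, 0, 5, 1),
    (1, 0, 6, 1), (1, 0, 7, 1), (1, 0, 8, 1), (1, 0, 9, 1), (1, 0, 10, 1), (1, 0, 11, 1),
    (0, -1, 1, 0), (2, -1, 1, 0), (3, -1, 1, 0), (4, -1, 1, 0), (6, -1, 1, 0), (8, -1, 1, 0),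
    (9, -1, 1, 0), (10, -1, 1, 0), (2, 1, 3, 2), (3, 1, 2, 1), (3, 2, 4, 3), (4, 1, 3, 1)]

lemma reps_det : ∀ i, (reps i).1 * (reps i).2.2.2 - (reps i).2.1 * (reps i).2.2.1 = 1 := by decide

def rep (i : Fin 24) : SL(2, ℤ) :=
  ⟨!![(reps i).1, (reps i).2.1; (reps i).2.2.1, (reps i).2.2.2], by
    rw [Matrix.det_fin_two_of]; exact reps_det i⟩

lemma reps_cover : ∀ A C : ZMod 12, (∃ B D : ZMod 12, A * D - B * C = 1) →
    ∃ i : Fin 24, -((reps i).2.2.1 : ZMod 12) * A + ((reps i).1 : ZMod 12) * C = 0 := by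
  decide +kernel

lemma card_le : Nat.card (SL(2, ℤ) ⧸ Gamma0 12) ≤ 24 := by
  have h : Function.Surjective fun i : Fin 24 => (rep i : SL(2, ℤ) ⧸ Gamma0 12) := by
    intro q
    induction q using QuotientGroup.induction_on with
    | H g =>
    have h1 := congrArg (Int.cast : ℤ → ZMod 12) g.det_coe
    rw [Matrix.det_fin_two] at h1
    push_cast at h1
    obtain ⟨i, hi⟩ := reps_cover _ _ ⟨_, _, h1⟩
    refine ⟨i, QuotientGroup.eq.2 ?_⟩
    rw [Gamma0_mem, ← hi, Matrix.SpecialLinearGroup.coe_mul, Matrix.SpecialLinearGroup.coe_inv,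
      Matrix.adjugate_fin_two, Matrix.mul_apply, Fin.sum_univ_two]
    simp [rep]
  simpa using Nat.card_le_card_of_surjective _ h

def strip : Filter ℍ := atImInfty ⊓ 𝓟 {z | |z.re| ≤ 1 / 2}

lemma slash_growth {f : ℍ → ℂ} {C : ℝ} {B : ℕ} (hC : ∀ z, ‖f z‖ ≤ C * (1 + z.im⁻¹) ^ B) (k : ℕ)
    (g : SL(2, ℤ)) : (f ∣[(k : ℤ)] g) =O[strip] fun z => z.im ^ B := by
  have hC0 : 0 ≤ C := by
    have h := (norm_nonneg _).trans (hC I)
    exact nonneg_of_mul_nonneg_left h (by simp)
  set K : ℝ := 2 * |(g 1 0 : ℝ)| + |(g 1 1 : ℝ)| with hK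
  refine IsBigO.of_bound (C * (1 + K ^ 2) ^ B) ?_
  rw [strip, eventually_inf_principal, Filter.Eventually, atImInfty_mem]
  refine ⟨1, fun z hz (hre : |z.re| ≤ 1 / 2) => ?_⟩
  have hy := z.im_pos
  have h1 : 1 ≤ ‖denom g z‖ := by
    rcases eq_or_ne (g 1 0) 0 with h | h
    · have h2 := g.det_coe
      rw [Matrix.det_fin_two, h, mul_zero, sub_zero] at h2
      rw [ModularGroup.denom_apply, h]
      rcases Int.eq_one_or_neg_one_of_mul_eq_one' h2 with h3 | h3 <;> simp [h3.2]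
    · refine le_trans ?_ (Complex.abs_im_le_norm _)
      have h2 : (1 : ℝ) ≤ |(g 1 0 : ℝ)| := by exact_mod_cast Int.one_le_abs h
      rw [ModularGroup.denom_apply]
      simp only [Complex.add_im, Complex.mul_im, Complex.intCast_re, coe_im, Complex.intCast_im,
        zero_mul, add_zero, abs_mul, abs_of_pos hy]
      nlinarith
  have h2 : ‖denom g z‖ ≤ K * z.im := by
    rw [ModularGroup.denom_apply]
    refine (norm_add_le _ _).trans ?_
    have h3 := Complex.norm_le_abs_re_add_abs_im z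
    rw [coe_re, coe_im, abs_of_pos hy] at h3
    rw [norm_mul, Complex.norm_intCast, Complex.norm_intCast, hK]
    have := abs_nonneg (g 1 0 : ℝ)
    have := abs_nonneg (g 1 1 : ℝ)
    nlinarith
  have h3 : 1 + (g • z).im⁻¹ ≤ (1 + K ^ 2) * z.im := by
    rw [ModularGroup.im_smul_eq_div_normSq, inv_div, Complex.normSq_eq_norm_sq]
    have : ‖denom g z‖ ^ 2 / z.im ≤ K ^ 2 * z.im := by
      rw [div_le_iff₀ hy]
      calc _ ≤ (K * z.im) ^ 2 := by gcongr
        _ = _ := by ring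
    linarith
  have h4 := (g • z).im_pos
  rw [SL_slash_apply, norm_mul, norm_zpow, Real.norm_of_nonneg (by positivity), zpow_neg,
    zpow_natCast, mul_assoc, ← mul_pow]
  calc _ ≤ C * (1 + (g • z).im⁻¹) ^ B * 1 :=
        mul_le_mul (hC _) (inv_le_one_of_one_le₀ (one_le_pow₀ h1)) (by positivity) (by positivity)
    _ ≤ _ := by rw [mul_one]; gcongr

theorem sturm {f : ℍ → ℂ} (hf : MDifferentiable 𝓘(ℂ) 𝓘(ℂ) f) (k : ℕ)
    (hinv : ∀ γ ∈ Gamma0 12, f ∣[(k : ℤ)] γ = f) {C : ℝ} {B : ℕ}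
    (hC : ∀ z, ‖f z‖ ≤ C * (1 + z.im⁻¹) ^ B)
    (hd : f =O[atImInfty] fun z => exp (-2 * π * z.im) ^ (2 * k + 1)) : f = 0 := by
  classical
  let := Fintype.ofFinite (SL(2, ℤ) ⧸ Gamma0 12)
  set sl : SL(2, ℤ) ⧸ Gamma0 12 → ℍ → ℂ := fun q => f ∣[(k : ℤ)] (q.out)⁻¹ with hsl
  have h1 : ∀ g : SL(2, ℤ), sl g = f ∣[(k : ℤ)] g⁻¹ := fun g => by
    obtain ⟨h, hh⟩ := QuotientGroup.mk_out_eq_mul (Gamma0 12) g
    simp only [hsl, hh, mul_inv_rev, SlashAction.slash_mul, hinv _ (inv_mem h.2)]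
  have h2 : ∀ (g : SL(2, ℤ)) q, sl q ∣[(k : ℤ)] g = sl (g⁻¹ • q) := fun g q => by
    induction q using QuotientGroup.induction_on with
    | H r => rw [MulAction.Quotient.smul_coe, smul_eq_mul, h1, h1, mul_inv_rev, inv_inv,
        SlashAction.slash_mul]
  set n := Fintype.card (SL(2, ℤ) ⧸ Gamma0 12) with hn
  have hn24 : n ≤ 24 := by rw [hn, ← Nat.card_eq_fintype_card]; exact card_le
  set N : ℍ → ℂ := ∏ q, sl q with hN
  have h3 : ∀ (g : SL(2, ℤ)) z, N (g • z) = N z * denom g z ^ (k * n) := fun g z => by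
    have h4 : ∀ q, sl q (g • z) = sl (g⁻¹ • q) z * denom g z ^ k := fun q => by
      rw [← h2, SL_slash_apply, zpow_neg, zpow_natCast,
        inv_mul_cancel_right₀ (pow_ne_zero _ (denom_ne_zero _ _))]
    simp only [hN, Finset.prod_apply, h4, Finset.prod_mul_distrib, Finset.prod_const,
      Finset.card_univ, pow_mul]
    congr 1
    exact Equiv.prod_comp (MulAction.toPerm g⁻¹) fun q => sl q z
  have hm : ∀ q, MDifferentiable 𝓘(ℂ) 𝓘(ℂ) (sl q) := fun q => hf.slash _ _
  set H : ℍ → ℂ := fun z => N z ^ 12 / discriminant z ^ (k * n + 1) with hH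
  have h4 : ∀ g : SL(2, ℤ), H ∣[(-12 : ℤ)] g = H := fun g => by
    funext z
    have hγ : (g : GL (Fin 2) ℝ) ∈ 𝒮ℒ := ⟨g, rfl⟩
    have h5 := SlashInvariantForm.slash_action_eqn'' CuspForm.discriminant hγ z
    rw [CuspForm.coe_discriminant, ← ModularGroup.sl_moeb] at h5
    have := denom_ne_zero g z
    have := discriminant_ne_zero z
    rw [SL_slash_apply]
    simp only [hH, h3, h5, neg_neg, zpow_ofNat]
    field_simp; ring
  have h5 : N =O[strip] fun z => exp (-2 * π * z.im) ^ (2 * k + 1) * (z.im ^ B) ^ (n - 1) := by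
    have h6 := IsBigO.finsetProd (s := Finset.univ.erase ((1 : SL(2, ℤ)) : SL(2, ℤ) ⧸ Gamma0 12))
      (f := sl) (g := fun _ z => z.im ^ B) (l := strip) fun q _ => slash_growth hC k _
    simp only [Finset.prod_const, Finset.card_erase_of_mem (Finset.mem_univ _), Finset.card_univ] at h6
    refine ((hd.mono inf_le_left).mul h6).congr_left fun z => ?_
    rw [hN, Finset.prod_apply, ← Finset.mul_prod_erase _ _
      (Finset.mem_univ ((1 : SL(2, ℤ)) : SL(2, ℤ) ⧸ Gamma0 12)), h1]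
    simp
  have h6 : H =O[strip] fun _ => (1 : ℝ) := by
    have h7 := ((exp_isBigO_discriminant.pow (k * n + 1)).inv_rev
      (Eventually.of_forall fun z h => absurd h (by positivity))).mono
      (show strip ≤ _ from inf_le_left)
    refine ((h5.pow 12).mul h7).trans ?_
    have h8 : Tendsto (fun z : ℍ => z.im) strip atTop := tendsto_comap.mono_left inf_le_left
    obtain ⟨j, hj⟩ : ∃ j, (2 * k + 1) * 12 = k * n + 1 + (j + 1) :=
      ⟨24 * k - k * n + 10, by have : k * n ≤ 24 * k := by nlinarith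
                               omega⟩
    have h9 := ((isLittleO_pow_exp_pos_mul_atTop (B * (n - 1) * 12) (b := 2 * π * (j + 1 : ℕ))
      (by positivity)).isBigO.comp_tendsto h8).mul (isBigO_refl
        (fun z : ℍ => exp (-2 * π * z.im) ^ (j + 1)) strip)
    refine h9.congr (fun z => ?_) fun z => ?_
    · have := exp_ne_zero (-2 * π * z.im)
      simp only [Function.comp, mul_pow, ← pow_mul, hj, pow_add _ (k * n + 1)]
      field_simp
    · simp only [Function.comp]
      rw [← exp_nat_mul, ← exp_add, exp_eq_one_iff]; ring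
  have h7 : IsBoundedAtImInfty H := by
    obtain ⟨M, hM⟩ := h6.bound
    rw [strip, eventually_inf_principal, Filter.Eventually, atImInfty_mem] at hM
    obtain ⟨A, hA⟩ := hM
    refine isBoundedAtImInfty_iff.2 ⟨M, A, fun z hz => ?_⟩
    have h8 := hA (ModularGroup.T ^ (-round z.re) • z) (by rwa [ModularGroup.im_T_zpow_smul])
      (by
        rw [Set.mem_ofPred_eq]
        rw [ModularGroup.re_T_zpow_smul, Int.cast_neg, ← sub_eq_add_neg]; exact abs_sub_round z.re)
    have h9 := congrFun (h4 (ModularGroup.T ^ (-round z.re))) z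
    rw [SL_slash_apply, ModularGroup.denom_apply] at h9
    simp only [ModularGroup.coe_T_zpow] at h9
    simp at h9 h8
    rwa [h9] at h8
  let F : ModularForm 𝒮ℒ (-12) :=
    { toFun := H
      slash_action_eq' := fun _ ⟨γ, hγ⟩ => hγ ▸ h4 γ
      holo' := ((MDifferentiable.prod fun q _ => hm q).pow 12).div
        (CuspForm.discriminant.holo'.pow _) fun z => pow_ne_zero _ (discriminant_ne_zero z)
      bdd_at_cusps' := fun {c} hc => by
        rw [Subgroup.IsArithmetic.isCusp_iff_isCusp_SL2Z] at hc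
        rw [OnePoint.isBoundedAt_iff_forall_SL2Z hc]
        intro γ _
        rw [h4]; exact h7 }
  have h8 : H = 0 := ModularFormClass.levelOne_neg_weight_eq_zero (by norm_num) F
  have h9 : N = 0 := funext fun z => by
    have := congrFun h8 z
    simpa [hH, discriminant_ne_zero z] using this
  obtain ⟨q, -, hq⟩ := (UpperHalfPlane.prod_eq_zero_iff fun q _ => hm q).1 h9
  have := congrArg (fun u : ℍ → ℂ => u ∣[(k : ℤ)] q.out) hq
  simpa [hsl, ← SlashAction.slash_mul] using this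

end Pool.Agent.Lib.MP_870895_nt
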