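import Pool.Agent.Lib.MP_870895_nt.RZ
import Pool.Agent.Lib.MP_870895_nt.Sturm

set_option autoImplicit false

open Real Filter Topology Set Asymptotics
open Complex (I)
open scoped MatrixGroups Manifold UpperHalfPlane

namespace Pool.Agent.Lib.MP_870895_nt

def PG (a : ℕ → ℤ) : Prop := ∃ (C : ℝ) (k : ℕ), 0 ≤ C ∧ ∀ n, |(a n : ℝ)| ≤ C * (n + 1) ^ k

noncomputable def qq (z : ℂ) : ℂ := Complex.exp (2 * π * I * z)

def Rep (F : ℂ → ℂ) (a : ℕ → ℤ) : Prop :=
  PG a ∧ ∀ z : ℂ, 0 < z.im → HasSum (fun n => (a n : ℂ) * qq z ^ n) (F z)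

noncomputable def sv (a : ℕ → ℤ) (z : ℂ) : ℂ := ∑' n, (a n : ℂ) * qq z ^ n

def cmul (a b : ℕ → ℤ) (n : ℕ) : ℤ := ∑ p ∈ Finset.HasAntidiagonal.antidiagonal n, a p.1 * b p.2
def csc (d : ℕ) (a : ℕ → ℤ) (n : ℕ) : ℤ := if d ∣ n then a (n / d) else 0
def cD (a : ℕ → ℤ) (n : ℕ) : ℤ := n * a n

variable {a b : ℕ → ℤ} {F G : ℂ → ℂ} {z : ℂ}

lemma norm_qq (z : ℂ) : ‖qq z‖ = exp (-(2 * π * z.im)) := by
  rw [qq, Complex.norm_exp]; simp

lemma geo_bound (k : ℕ) {c : ℝ} (hc : 0 < c) :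
    (Summable fun n : ℕ => ((n : ℝ) + 1) ^ k * exp (-c) ^ n) ∧
      ∑' n : ℕ, ((n : ℝ) + 1) ^ k * exp (-c) ^ n ≤ k.factorial * (1 + c⁻¹) ^ (k + 1) := by
  have h1 : exp (-c) < 1 := exp_lt_one_iff.2 (by linarith)
  have h := (hasSum_choose_mul_geometric_of_norm_lt_one k (r := exp (-c))
    (by rwa [Real.norm_of_nonneg (exp_pos _).le])).mul_left (k.factorial : ℝ)
  have h2 : ∀ n : ℕ, ((n : ℝ) + 1) ^ k * exp (-c) ^ n ≤
      k.factorial * ((n + k).choose k * exp (-c) ^ n) := fun n => by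
    rw [← mul_assoc]
    gcongr
    have := Nat.pow_succ_le_ascFactorial (n + 1) k
    rw [Nat.ascFactorial_eq_factorial_mul_choose] at this
    exact_mod_cast this
  have h3 := Summable.of_nonneg_of_le (fun n => by positivity) h2 h.summable
  refine ⟨h3, (hasSum_le h2 h3.hasSum h).trans ?_⟩
  rw [one_div, ← inv_pow]
  have : 0 < 1 - exp (-c) := by linarith
  gcongr
  exact inv_one_sub_exp_le hc

lemma term_le {C : ℝ} {k : ℕ} (h : ∀ n, |(a n : ℝ)| ≤ C * (n + 1) ^ k) (z : ℂ) (n : ℕ) :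
    ‖(a n : ℂ) * qq z ^ n‖ ≤ C * (((n : ℝ) + 1) ^ k * exp (-(2 * π * z.im)) ^ n) := by
  rw [norm_mul, norm_pow, norm_qq, Complex.norm_intCast, ← mul_assoc]
  gcongr; exact h n

lemma PG.summable (h : PG a) (hz : 0 < z.im) : Summable fun n => ‖(a n : ℂ) * qq z ^ n‖ := by
  obtain ⟨C, k, -, h⟩ := h
  exact Summable.of_nonneg_of_le (fun _ => norm_nonneg _) (term_le h z)
    ((geo_bound k (by positivity)).1.mul_left C)

lemma PG.rep (h : PG a) : Rep (sv a) a := ⟨h, fun _ hz => (h.summable hz).of_norm.hasSum⟩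

lemma Rep.growth (h : Rep F a) : ∃ (C : ℝ) (B : ℕ), 0 ≤ C ∧
    ∀ z : ℂ, 0 < z.im → ‖F z‖ ≤ C * (1 + z.im⁻¹) ^ B := by
  obtain ⟨⟨C, k, hC, h1⟩, h⟩ := h
  refine ⟨C * k.factorial, k + 1, by positivity, fun z hz => ?_⟩
  have h2 := geo_bound k (c := 2 * π * z.im) (by positivity)
  have h3 := tsum_of_norm_bounded (h2.1.mul_left C).hasSum (term_le h1 z)
  rw [(h z hz).tsum_eq, tsum_mul_left] at h3
  refine h3.trans ?_
  rw [mul_assoc C]
  gcongr
  refine h2.2.trans ?_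
  gcongr
  nlinarith [pi_gt_three]

lemma PG.add (ha : PG a) (hb : PG b) : PG fun n => a n + b n := by
  obtain ⟨C, k, hC, h⟩ := ha
  obtain ⟨D, l, hD, h'⟩ := hb
  refine ⟨C + D, k + l, by positivity, fun n => ?_⟩
  have h0 : (1 : ℝ) ≤ n + 1 := by simp
  push_cast
  calc _ ≤ |(a n : ℝ)| + |(b n : ℝ)| := abs_add_le _ _
    _ ≤ C * (n + 1) ^ (k + l) + D * (n + 1) ^ (k + l) :=
        add_le_add ((h n).trans (by gcongr; omega)) ((h' n).trans (by gcongr; omega))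
    _ = _ := by ring

lemma PG.smul (ha : PG a) (c : ℤ) : PG fun n => c * a n := by
  obtain ⟨C, k, hC, h⟩ := ha
  refine ⟨|(c : ℝ)| * C, k, by positivity, fun n => ?_⟩
  push_cast
  rw [abs_mul, mul_assoc]; gcongr; exact h n

lemma PG.cD (ha : PG a) : PG (cD a) := by
  obtain ⟨C, k, hC, h⟩ := ha
  refine ⟨C, k + 1, hC, fun n => ?_⟩
  unfold MP_870895_nt.cD
  push_cast
  rw [abs_mul, Nat.abs_cast]
  calc _ ≤ ((n : ℝ) + 1) * (C * (n + 1) ^ k) := by
        gcongr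
        · simp
        · exact h n
    _ = _ := by ring

lemma Rep.add (hF : Rep F a) (hG : Rep G b) : Rep (fun z => F z + G z) fun n => a n + b n :=
  ⟨hF.1.add hG.1, fun z hz =>
    hs_congrC ((hF.2 z hz).add (hG.2 z hz)) (fun n => by push_cast; ring) rfl⟩

lemma Rep.smul (hF : Rep F a) (c : ℤ) : Rep (fun z => (c : ℂ) * F z) fun n => c * a n :=
  ⟨hF.1.smul c, fun z hz => hs_congrC ((hF.2 z hz).mul_left (c : ℂ))
    (fun n => by push_cast; ring) rfl⟩

lemma Rep.congr (hF : Rep F a) (h : ∀ z : ℂ, 0 < z.im → G z = F z) : Rep G a :=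
  ⟨hF.1, fun z hz => h z hz ▸ hF.2 z hz⟩

lemma Rep.mul (hF : Rep F a) (hG : Rep G b) : Rep (fun z => F z * G z) (cmul a b) := by
  refine ⟨?_, fun z hz => ?_⟩
  · obtain ⟨C, k, hC, h⟩ := hF.1
    obtain ⟨D, l, hD, h'⟩ := hG.1
    refine ⟨C * D, k + l + 1, by positivity, fun n => ?_⟩
    unfold cmul
    push_cast
    refine (Finset.abs_sum_le_sum_abs _ _).trans ((Finset.sum_le_card_nsmul _ _
      (C * (n + 1) ^ k * (D * (n + 1) ^ l)) fun p hp => ?_).trans (le_of_eq ?_))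
    · have h1 := Finset.HasAntidiagonal.mem_antidiagonal.1 hp
      rw [abs_mul]
      refine mul_le_mul ((h _).trans ?_) ((h' _).trans ?_) (abs_nonneg _) (by positivity) <;>
        gcongr <;> omega
    · rw [Finset.Nat.card_antidiagonal, nsmul_eq_mul]; push_cast; ring
  · have h1 := hF.1.summable hz
    have h2 := hG.1.summable hz
    have h3 := (summable_norm_sum_mul_antidiagonal_of_summable_norm h1 h2).of_norm.hasSum
    rw [← tsum_mul_tsum_eq_tsum_sum_antidiagonal_of_summable_norm h1 h2, (hF.2 z hz).tsum_eq,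
      (hG.2 z hz).tsum_eq] at h3
    refine hs_congrC h3 (fun n => ?_) rfl
    unfold cmul
    push_cast
    rw [Finset.sum_mul]
    refine Finset.sum_congr rfl fun p hp => ?_
    rw [← Finset.HasAntidiagonal.mem_antidiagonal.1 hp]; ring

lemma qq_mul (d : ℕ) (z : ℂ) : qq (d * z) = qq z ^ d := by
  rw [qq, qq, ← Complex.exp_nat_mul]; ring_nf

lemma im_mul_pos {d : ℕ} (hd : 0 < d) (hz : 0 < z.im) : 0 < ((d : ℂ) * z).im := by
  simpa using mul_pos (Nat.cast_pos.2 hd) hz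

lemma Rep.sc (hF : Rep F a) {d : ℕ} (hd : 0 < d) : Rep (fun z => F (d * z)) (csc d a) := by
  refine ⟨?_, fun z hz => ?_⟩
  · obtain ⟨C, k, hC, h⟩ := hF.1
    refine ⟨C, k, hC, fun n => ?_⟩
    unfold csc
    split_ifs
    · refine (h _).trans ?_
      gcongr; exact Nat.div_le_self _ _
    · simp; positivity
  · refine (Function.Injective.hasSum_iff (mul_right_injective₀ hd.ne') fun m hm => ?_).1
      (hs_congrC (hF.2 _ (im_mul_pos hd hz)) (fun k => ?_) rfl)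
    · rw [csc, if_neg, Int.cast_zero, zero_mul]
      rintro ⟨k, rfl⟩; exact hm ⟨k, rfl⟩
    · simp [csc, Nat.mul_div_cancel_left _ hd, qq_mul, pow_mul]

lemma hasDerivAt_qq (z : ℂ) : HasDerivAt qq (2 * π * I * qq z) z :=
  (((hasDerivAt_id z).const_mul (2 * π * I)).cexp).congr_deriv (by simp [qq]; ring)

lemma isOpen_im (c : ℝ) : IsOpen {w : ℂ | c < w.im} := isOpen_lt continuous_const Complex.continuous_im

lemma Rep.deriv (hF : Rep F a) (hz : 0 < z.im) : HasDerivAt F (2 * π * I * sv (cD a) z) z := by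
  have hz2 : 0 < ((z.im / 2 : ℝ) * I : ℂ).im := by simpa using hz
  have h := hasDerivAt_tsum_of_isPreconnected (t := {w : ℂ | z.im / 2 < w.im})
    (g := fun n w => (a n : ℂ) * qq w ^ n) (g' := fun n w => 2 * π * I * ((cD a n : ℂ) * qq w ^ n))
    ((hF.1.cD.summable hz2).mul_left ‖(2 * π * I : ℂ)‖) (isOpen_im _)
    (convex_halfSpace_im_gt _).isPreconnected (fun n w _ => ?_) (fun n w hw => ?_)
    (show z.im / 2 < z.im by linarith) (hF.2 z hz).summable (show z.im / 2 < z.im by linarith)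
  · rw [tsum_mul_left] at h
    refine h.congr_of_eventuallyEq ?_
    filter_upwards [(isOpen_im 0).mem_nhds hz] with w hw using (hF.2 w hw).tsum_eq.symm
  · refine (((hasDerivAt_qq w).pow n).const_mul (a n : ℂ)).congr_deriv ?_
    unfold cD
    rcases n with _ | n
    · simp
    · push_cast; ring
  · rw [norm_mul, norm_mul (cD a n : ℂ), norm_mul (cD a n : ℂ), norm_pow, norm_pow, norm_qq, norm_qq]
    have : z.im / 2 < w.im := hw
    have h2 : ((z.im / 2 : ℝ) * I : ℂ).im = z.im / 2 := by simp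
    rw [h2]
    gcongr

lemma Rep.decay (hF : Rep F a) (m : ℕ) (h0 : ∀ n < m, a n = 0) : ∃ C : ℝ,
    ∀ z : ℂ, 1 ≤ z.im → ‖F z‖ ≤ C * ‖qq z‖ ^ m := by
  have h1 : PG fun n => a (n + m) := by
    obtain ⟨C, k, hC, h⟩ := hF.1
    refine ⟨C * (m + 1) ^ k, k, by positivity, fun n => (h _).trans ?_⟩
    rw [mul_assoc, ← mul_pow]
    gcongr
    push_cast
    nlinarith [mul_nonneg (Nat.cast_nonneg (α := ℝ) m) (Nat.cast_nonneg (α := ℝ) n)]
  obtain ⟨C, B, hC, h2⟩ := h1.rep.growth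
  refine ⟨C * 2 ^ B, fun z hz => ?_⟩
  have hz0 : 0 < z.im := by linarith
  have h3 := (hasSum_nat_add_iff' m).2 (hF.2 z hz0)
  rw [Finset.sum_eq_zero fun n hn => by rw [h0 n (Finset.mem_range.1 hn)]; simp, sub_zero] at h3
  rw [h3.unique (hs_congrC ((h1.rep.2 z hz0).mul_right (qq z ^ m)) (fun n => by ring) rfl),
    norm_mul, norm_pow]
  gcongr
  refine (h2 z hz0).trans ?_
  gcongr
  linarith [inv_le_one_of_one_le₀ hz]

theorem Rep.sturm (hF : Rep F a) (k : ℕ) (h0 : ∀ n < 2 * k + 1, a n = 0)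
    (hinv : ∀ a b c d : ℤ, a * d - b * (12 * c) = 1 → ∀ z : ℂ, 0 < z.im →
      F ((a * z + b) / (12 * c * z + d)) = (12 * c * z + d) ^ k * F z) (hz : 0 < z.im) : F z = 0 := by
  obtain ⟨C, B, -, hC⟩ := hF.growth
  obtain ⟨D, hD⟩ := hF.decay _ h0
  refine congrFun (MP_870895_nt.sturm (f := fun τ : ℍ => F τ) ?_ k (fun γ hγ => ?_) (C := C) (B := B)
    (fun τ => hC τ τ.2) ?_) ⟨z, hz⟩
  · rw [UpperHalfPlane.mdifferentiable_iff]
    refine DifferentiableOn.congr (f := F)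
      (fun w hw => (hF.deriv hw).differentiableAt.differentiableWithinAt) fun w hw => ?_
    simp [UpperHalfPlane.ofComplex_apply_of_im_pos hw]
  · funext τ
    obtain ⟨c, hc⟩ := (ZMod.intCast_zmod_eq_zero_iff_dvd _ _).1 (CongruenceSubgroup.Gamma0_mem.1 hγ)
    have h1 := γ.det_coe
    rw [Matrix.det_fin_two, hc] at h1
    have h2 := hinv _ _ c _ h1 τ τ.2
    have h3 := UpperHalfPlane.denom_ne_zero γ τ
    rw [ModularForm.SL_slash_apply, UpperHalfPlane.coe_specialLinearGroup_apply]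
    rw [ModularGroup.denom_apply, hc] at h3 ⊢
    simp only [algebraMap_int_eq, eq_intCast, Complex.ofReal_intCast]
    push_cast at h3 ⊢
    rw [h2, zpow_neg, zpow_natCast]; field_simp
  · refine IsBigO.of_bound D ?_
    rw [Filter.Eventually, UpperHalfPlane.atImInfty_mem]
    refine ⟨1, fun τ hτ => ?_⟩
    have := hD τ hτ
    rw [norm_qq] at this
    simpa using this

end Pool.Agent.Lib.MP_870895_nt
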