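import Pool.Agent.Lib.MP_870895_nt.Elem2

set_option autoImplicit false

open Real Filter Topology Set MeasureTheory

namespace Pool.Agent.Lib.MP_870895_nt

variable {e t x : ℝ}

lemma hs_mul {f g : ℕ → ℝ} {a b : ℝ} (hf : HasSum f a) (hg : HasSum g b) :
    HasSum (fun p : ℕ × ℕ => f p.1 * g p.2) (a * b) :=
  hf.mul hg (summable_mul_of_summable_norm hf.summable.norm hg.summable.norm)

lemma summable_int_of_le {ι : Type*} {g : ι → ℝ → ℝ} {s B : ℝ → ℝ}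
    (hc : ∀ i, ContinuousOn (g i) (Ioi 0)) (h0 : ∀ i x, 0 < x → 0 ≤ g i x)
    (h : ∀ x, 0 < x → HasSum (fun i => g i x) (s x)) (hB : IntegrableOn B (Ioi 0))
    (hs : ∀ x, 0 < x → s x ≤ B x) :
    (∀ i, IntegrableOn (g i) (Ioi 0)) ∧ Summable fun i => ∫ x in Ioi 0, g i x := by
  have h1 : ∀ i, IntegrableOn (g i) (Ioi 0) := fun i => by
    refine hB.mono' ((hc i).aestronglyMeasurable measurableSet_Ioi) ?_
    filter_upwards [ae_restrict_mem measurableSet_Ioi] with x hx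
    rw [Real.norm_of_nonneg (h0 i x hx)]
    exact (le_hasSum (h x hx) i fun j _ => h0 j x hx).trans (hs x hx)
  refine ⟨h1, summable_of_sum_le (c := ∫ x in Ioi 0, B x)
    (fun i => setIntegral_nonneg measurableSet_Ioi (h0 i)) fun u => ?_⟩
  rw [← integral_finsetSum _ fun i _ => h1 i]
  refine setIntegral_mono_on (integrable_finsetSum _ fun i _ => h1 i) hB measurableSet_Ioi
    fun x hx => (sum_le_hasSum u (fun j _ => h0 j x hx) (h x hx)).trans (hs x hx)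

lemma continuousOn_csch_mul {c : ℝ} (hc : 0 < c) : ContinuousOn (fun y => csch (c * y)) (Ioi 0) :=
  fun y hy => ((hasDerivAt_csch (mul_pos hc hy).ne').continuousAt.comp
    (f := fun y => c * y) (by fun_prop)).continuousWithinAt

lemma rz (he : Sgn e) {A1 A2 : ℝ → ℝ}
    (h1 : ∀ x, 0 < x → HasSum (fun d : ℕ => e ^ (d + 1) * s2 (π ^ 2 / (2 * x) * (d + 1 : ℕ))) (A1 x))
    (h2 : ∀ x, 0 < x → HasSum (fun m : ℕ => gam e (m + 1) * ((m + 1 : ℕ) * csch ((m + 1 : ℕ) * x)))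
      (A2 x)) :
    IntegrableOn (fun t => t ^ 2 * c2 e t * bet e t) (Ioi 0) ∧
      ∫ t in Ioi 0, t ^ 2 * c2 e t * bet e t = ∫ x in Ioi 0, 2 * (x ^ 2 * (A1 x * A2 x)) := by
  set g : ℕ × ℕ → ℝ → ℝ := fun p x => x ^ 2 * (s2 (π ^ 2 / (2 * x) * (p.1 + 1 : ℕ)) *
    ((p.2 + 1 : ℕ) * csch ((p.2 + 1 : ℕ) * x))) with hg
  set f : ℕ × ℕ → ℝ → ℝ := fun p t => t ^ 2 * (((p.1 + 1 : ℕ) : ℝ) ^ 3 * csch ((p.1 + 1 : ℕ) * t) *
    (s2 (π ^ 2 / (2 * t) * (p.2 + 1 : ℕ)) / ((p.2 + 1 : ℕ) : ℝ) ^ 2)) with hf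
  have hg0 : ∀ p x, 0 < x → 0 ≤ g p x := fun p x hx =>
    mul_nonneg (by positivity) (mul_nonneg (s2_pos _).le (Zf_term_nonneg hx _))
  have hf0 : ∀ p x, 0 < x → 0 ≤ f p x := fun p x hx => by
    have := s2_pos (π ^ 2 / (2 * x) * (p.2 + 1 : ℕ))
    have := csch_pos (show 0 < ((p.1 + 1 : ℕ) : ℝ) * x by positivity)
    positivity
  obtain ⟨C, hC0, hC⟩ := sum_s2_le 0
  have h3 := summable_int_of_le (g := g) (fun p => by
      refine (continuousOn_pow 2).mul (ContinuousOn.mul (continuous_s2.comp_continuousOn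
        (ContinuousOn.mul (continuousOn_const.div (by fun_prop) fun x hx => ?_) continuousOn_const))
        (continuousOn_const.mul (continuousOn_csch_mul (by positivity))))
      exact (mul_pos two_pos hx).ne') hg0
    (fun x hx => (hs_mul (summable_s2_nat (by positivity)).hasSum (hasSum_Zf' hx)).mul_left (x ^ 2))
    ((gd_Zf.int (j := 3) (by norm_num)).const_mul C) fun x hx => by
      have := Zf_nonneg hx
      calc _ ≤ x ^ 2 * (C * x ^ (0 + 1) * Zf x) := by gcongr; exact hC x hx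
        _ = _ := by ring
  have h4 : ∀ p : ℕ × ℕ, IntegrableOn (f p) (Ioi 0) ∧ ∫ x in Ioi 0, f p x = ∫ x in Ioi 0, g p x := by
    intro p
    have hl : (0 : ℝ) < (p.2 + 1 : ℕ) / (p.1 + 1 : ℕ) := by positivity
    have h5 : ∀ x ∈ Ioi (0 : ℝ), f p ((p.2 + 1 : ℕ) / (p.1 + 1 : ℕ) * x) =
        ((p.2 + 1 : ℕ) / (p.1 + 1 : ℕ) : ℝ)⁻¹ * g p x := fun x hx => by
      have : x ≠ 0 := ne_of_gt hx
      simp only [hf, hg]
      rw [show ((p.1 + 1 : ℕ) : ℝ) * ((p.2 + 1 : ℕ) / (p.1 + 1 : ℕ) * x) = (p.2 + 1 : ℕ) * x by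
        field_simp, show π ^ 2 / (2 * (((p.2 + 1 : ℕ) : ℝ) / (p.1 + 1 : ℕ) * x)) * (p.2 + 1 : ℕ) =
          π ^ 2 / (2 * x) * (p.1 + 1 : ℕ) by field_simp]
      generalize s2 _ = a; generalize csch _ = b
      field_simp
    have h6 := integral_comp_mul_left_Ioi (f p) 0 hl
    rw [setIntegral_congr_fun measurableSet_Ioi h5, integral_const_mul, mul_zero, smul_eq_mul] at h6
    refine ⟨?_, (mul_left_cancel₀ (inv_ne_zero hl.ne') h6).symm⟩
    have := (integrableOn_Ioi_comp_mul_left_iff (f p) 0 hl).1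
      (IntegrableOn.congr_fun ((h3.1 p).const_mul _) (fun x hx => (h5 x hx).symm) measurableSet_Ioi)
    rwa [mul_zero] at this
  have h5 : Summable fun p : ℕ × ℕ => |2 * (e ^ (p.1 + 1) * gam e (p.2 + 1))| *
      ∫ x in Ioi 0, g p x := by
    refine Summable.of_nonneg_of_le (fun p => mul_nonneg (abs_nonneg _)
      (setIntegral_nonneg measurableSet_Ioi (hg0 p))) (fun p => mul_le_mul_of_nonneg_right ?_
      (setIntegral_nonneg measurableSet_Ioi (hg0 p))) (h3.2.mul_left 4)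
    have := he.abs (p.1 + 1 : ℕ)
    rw [zpow_natCast] at this
    rw [abs_mul, abs_mul, this, abs_two]
    linarith [abs_gam_le he (p.2 + 1)]
  have h6 := int_series' (f := fun t => t ^ 2 * c2 e t * bet e t) (fun t ht => hs_congr
    ((hs_mul ((hs_shift (F := fun m : ℕ => 2 * (e ^ m * ((m : ℝ) ^ (2 * 1 + 1) * csch (m * t))))
      (by simp)).2 (hasSum_mom0 he ht 1)) (hasSum_bet he ht)).mul_left (t ^ 2))
    (fun p => by simp only [hf]; ring) (by rw [c2]; ring)) h4 hf0 h5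
  have h7 := int_series' (f := fun x => 2 * (x ^ 2 * (A1 x * A2 x))) (fun x hx => hs_congr
    ((hs_mul (h1 x hx) (h2 x hx)).mul_left (2 * x ^ 2)) (fun p => by simp only [hg]; ring) (by ring))
    (fun p => ⟨h3.1 p, rfl⟩) hg0 h5
  exact ⟨h6.1, h6.2.unique h7.2⟩

lemma T_one (hx : 0 < x) : mom 1 csch 1 0 x = 2 * Zf x :=
  (hasSum_mom0 sgn_one hx 0).unique (hs_congr ((hasSum_Zf hx).mul_left 2) (fun m => by simp) rfl)

lemma T_neg (hx : 0 < x) : mom (-1) csch 1 0 x = 8 * Zf (2 * x) - 2 * Zf x :=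
  (hasSum_mom0 sgn_neg_one hx 0).unique (hs_congr (((hasSum_Zf_ind hx two_pos).mul_left 4).sub
    ((hasSum_Zf hx).mul_left 2)) (fun m => by rw [neg_one_pow_ind]; ring) (by push_cast; ring))

lemma A1_one (hx : 0 < x) : HasSum (fun d : ℕ => 1 ^ (d + 1) * s2 (π ^ 2 / (2 * x) * (d + 1 : ℕ)))
    ((2 * x + 8 * x ^ 2 * Zf (2 * x)) / π ^ 2 - 1 / 2) := by
  have hp := pi_pos.ne'
  refine hs_congr (((poisson sgn_one 0 hx).add (poisson sgn_neg_one 0 hx)).div_const (π ^ 2))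
    (fun d => ?_) ?_
  · simp only [iot, mul_zero, cos_zero, one_pow]; generalize s2 _ = a; field_simp; ring
  · rw [mom_sig_zero_zero sgn_one hx, mom_sig_zero_zero sgn_neg_one hx, T_one hx, T_neg hx, kap, kap]
    generalize Zf (2 * x) = a; field_simp; ring

lemma A1_neg (hx : 0 < x) :
    HasSum (fun d : ℕ => (-1) ^ (d + 1) * s2 (π ^ 2 / (2 * x) * (d + 1 : ℕ)))
    (4 * x ^ 2 * (Zf x - 2 * Zf (2 * x)) / π ^ 2 - 1 / 2) := by
  have hp := pi_pos.ne'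
  refine hs_congr (((poisson sgn_one 0 hx).sub (poisson sgn_neg_one 0 hx)).div_const (π ^ 2))
    (fun d => ?_) ?_
  · simp only [iot, mul_zero, cos_zero]; generalize s2 _ = a; field_simp; ring
  · rw [mom_sig_zero_zero sgn_one hx, mom_sig_zero_zero sgn_neg_one hx, T_one hx, T_neg hx, kap, kap]
    generalize Zf (2 * x) = a; field_simp; ring

noncomputable def Y1 (x : ℝ) : ℝ := Zf x + 9 * Zf (3 * x) - 8 * Zf (2 * x)
noncomputable def Y2 (x : ℝ) : ℝ := Zf x - 2 * Zf (2 * x) - 9 * Zf (3 * x) + 18 * Zf (6 * x)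
noncomputable def MZ (x : ℝ) : ℝ := Zf x * Y1 x + 8 * ((Zf x - 2 * Zf (2 * x)) * Y2 x)

lemma A2_one (hx : 0 < x) : HasSum (fun m : ℕ => gam 1 (m + 1) *
    ((m + 1 : ℕ) * csch ((m + 1 : ℕ) * x))) (Y1 (2 * x)) := by
  refine (hs_shift (F := fun m : ℕ => gam 1 m * (m * csch (m * x))) (by simp)).2 ?_
  refine hs_congr ((((hasSum_Zf_ind hx (d := 2) (by norm_num)).mul_left (1 / 2)).add
    ((hasSum_Zf_ind hx (d := 6) (by norm_num)).mul_left (3 / 2))).sub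
    ((hasSum_Zf_ind hx (d := 4) (by norm_num)).mul_left 2)) (fun m => by rw [gam_one]; ring) ?_
  rw [Y1]; push_cast; ring_nf

lemma A2_neg (hx : 0 < x) : HasSum (fun m : ℕ => gam (-1) (m + 1) *
    ((m + 1 : ℕ) * csch ((m + 1 : ℕ) * x))) (1 / 2 * Y2 x) := by
  refine (hs_shift (F := fun m : ℕ => gam (-1) m * (m * csch (m * x))) (by simp)).2 ?_
  refine hs_congr (((((hasSum_Zf hx).mul_left (1 / 2)).sub
    ((hasSum_Zf_ind hx (d := 2) (by norm_num)).mul_left (1 / 2))).sub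
    ((hasSum_Zf_ind hx (d := 3) (by norm_num)).mul_left (3 / 2))).add
    ((hasSum_Zf_ind hx (d := 6) (by norm_num)).mul_left (3 / 2)))
    (fun m => by rw [gam_neg_one]; ring) ?_
  rw [Y2]; push_cast; ring_nf

lemma gd_Y1 : Gd 2 Y1 :=
  (gd_Zf.add ((gd_Zf.scale three_pos).const_mul 9)).sub ((gd_Zf.scale two_pos).const_mul 8)

lemma gd_Y2 : Gd 2 Y2 :=
  ((gd_Zf.sub ((gd_Zf.scale two_pos).const_mul 2)).sub ((gd_Zf.scale three_pos).const_mul 9)).add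
    ((gd_Zf.scale (by norm_num)).const_mul 18)

def HI (f : ℝ → ℝ) (v : ℝ) : Prop := IntegrableOn f (Ioi 0) ∧ ∫ x in Ioi 0, f x = v

lemma HI.add {f g : ℝ → ℝ} {a b : ℝ} (hf : HI f a) (hg : HI g b) :
    HI (fun x => f x + g x) (a + b) :=
  ⟨hf.1.add hg.1, by rw [integral_add hf.1 hg.1, hf.2, hg.2]⟩

lemma HI.sub {f g : ℝ → ℝ} {a b : ℝ} (hf : HI f a) (hg : HI g b) :
    HI (fun x => f x - g x) (a - b) :=
  ⟨hf.1.sub hg.1, by rw [integral_sub hf.1 hg.1, hf.2, hg.2]⟩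

lemma HI.smul {f : ℝ → ℝ} {a : ℝ} (hf : HI f a) (c : ℝ) : HI (fun x => c * f x) (c * a) :=
  ⟨hf.1.const_mul c, by rw [integral_const_mul, hf.2]⟩

lemma HI.congr {f g : ℝ → ℝ} {a b : ℝ} (hf : HI f a) (h : ∀ x, 0 < x → g x = f x) (h' : b = a) :
    HI g b :=
  ⟨hf.1.congr_fun (fun x hx => (h x hx).symm) measurableSet_Ioi,
    by rw [setIntegral_congr_fun measurableSet_Ioi h, hf.2, h']⟩

lemma HI.scale {f : ℝ → ℝ} {a : ℝ} {j : ℕ} (hf : HI (fun x => x ^ j * f x) a) {d : ℝ} (hd : 0 < d) :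
    HI (fun x => x ^ j * f (d * x)) ((d ^ (j + 1))⁻¹ * a) :=
  ⟨int_scale hf.1 hd, by rw [mellin_scale j f hd, hf.2]⟩

lemma Gd.hi {k : ℕ} {f : ℝ → ℝ} (hf : Gd k f) {j : ℕ} (hj : k ≤ j) :
    HI (fun x => x ^ j * f x) (∫ x in Ioi 0, x ^ j * f x) := ⟨hf.int hj, rfl⟩

lemma hi_Z2 : HI (fun x => x ^ 2 * Zf x) (7 / 12 * π ^ 2 * zt 3) := ⟨gd_Zf.int le_rfl, mellin_Zf2⟩
lemma hi_Z3 : HI (fun x => x ^ 3 * Zf x) (1 / 8 * π ^ 4 * zt 3) :=
  ⟨gd_Zf.int (by norm_num), mellin_Zf3⟩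

lemma hi_Y1 {j : ℕ} {a : ℝ} (h : HI (fun x => x ^ j * Zf x) a) : HI (fun x => x ^ j * Y1 x)
    ((1 + 9 * (3 ^ (j + 1))⁻¹ - 8 * (2 ^ (j + 1))⁻¹) * a) :=
  ((h.add ((h.scale three_pos).smul 9)).sub ((h.scale two_pos).smul 8)).congr
    (fun x _ => by simp only [Y1]; ring) (by ring)

lemma hi_Y2 : HI (fun x => x ^ 2 * Y2 x) (7 / 24 * π ^ 2 * zt 3) :=
  (((hi_Z2.sub ((hi_Z2.scale two_pos).smul 2)).sub ((hi_Z2.scale three_pos).smul 9)).add
    ((hi_Z2.scale (d := 6) (by norm_num)).smul 18)).congr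
    (fun x _ => by simp only [Y2]; ring) (by ring)

lemma gd_M1 : Gd 4 fun x => Zf x * Y1 x := gd_Zf.mul gd_Y1
lemma gd_M2 : Gd 4 fun x => (Zf x - 2 * Zf (2 * x)) * Y2 x :=
  (gd_Zf.sub ((gd_Zf.scale two_pos).const_mul 2)).mul gd_Y2

lemma hi_rd_neg : HI (rd (-1))
    (8 / π ^ 2 * (∫ x in Ioi 0, x ^ 4 * ((Zf x - 2 * Zf (2 * x)) * Y2 x)) +
      (7 / 18 - 7 / 24) * π ^ 2 * zt 3) := by
  have h := rz sgn_neg_one (fun x hx => A1_neg hx) (fun x hx => A2_neg hx)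
  have h1 := (((gd_M2.hi le_rfl).smul (4 / π ^ 2)).sub (hi_Y2.smul (1 / 2))).congr
    (g := fun x => 2 * (x ^ 2 * ((4 * x ^ 2 * (Zf x - 2 * Zf (2 * x)) / π ^ 2 - 1 / 2) *
      (1 / 2 * Y2 x)))) (fun x _ => by ring) rfl
  rw [h1.2] at h
  exact ((HI.smul h 2).sub (HI.smul int_Ia.symm (π ^ 2 / 9))).congr
    (fun t _ => by simp only [rd, kap, mu]; ring) (by ring)

lemma hi_rd_one : HI (rd 1) (1 / π ^ 2 * (∫ x in Ioi 0, x ^ 4 * (Zf x * Y1 x)) +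
      (11 / 288 - 7 / 144 + 11 / 288 - 7 / 144) * π ^ 2 * zt 3) := by
  have h := rz sgn_one (fun x hx => A1_one hx) (fun x hx => A2_one hx)
  have h1 := (((((gd_M1.hi le_rfl).scale two_pos).smul (16 / π ^ 2)).add
    (((hi_Y1 hi_Z3).scale two_pos).smul (4 / π ^ 2))).sub ((hi_Y1 hi_Z2).scale two_pos)).congr
    (g := fun x => 2 * (x ^ 2 * (((2 * x + 8 * x ^ 2 * Zf (2 * x)) / π ^ 2 - 1 / 2) *
      Y1 (2 * x)))) (fun x _ => by ring) rfl
  rw [h1.2] at h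
  have hp := pi_pos.ne'
  exact (((HI.smul h 2).add (HI.smul int_Bb (π ^ 4 / 2))).add
    (HI.smul ⟨int_F2, int_Ib⟩ (π ^ 2 / 72))).congr
    (fun t _ => by simp only [rd, kap, mu, F2]; ring) (by field_simp; ring)

lemma stepC : ∫ w, log (MX w) ∂(μ2.prod μ2) =
    18 / π ^ 6 * (∫ x in Ioi 0, x ^ 4 * MZ x) + 11 / 8 * zt 3 / π ^ 2 := by
  have h := ((gd_M1.hi le_rfl).add ((gd_M2.hi le_rfl).smul 8)).congr
    (g := fun x => x ^ 4 * MZ x) (fun x _ => by simp only [MZ]; ring) rfl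
  rw [stepB hi_rd_one.1 hi_rd_neg.1, hi_rd_one.2, hi_rd_neg.2, h.2]
  have hp := pi_pos.ne'
  field_simp; ring

end Pool.Agent.Lib.MP_870895_nt
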