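import Pool.Agent.Lib.MP_870895_nt.Area

set_option autoImplicit false

open Real Filter Topology Set MeasureTheory

namespace Pool.Agent.Lib.MP_870895_nt

variable {e t : ℝ}

lemma mom_fneg (e : ℝ) (g : ℝ → ℝ) (j : ℕ) (x t : ℝ) :
    mom e (fun w => -g w) j x t = -mom e g j x t := by
  unfold mom M
  rw [← tsum_neg]; exact tsum_congr fun k => by ring

noncomputable def DD (e x t : ℝ) : ℝ := mom e sech 0 x t
noncomputable def WW (e x t : ℝ) : ℝ := mom e (fun w => th w * sech w) 0 x t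
noncomputable def SS2 (x t : ℝ) : ℝ := mom 1 (fun w => sech w * sech w) 0 x t

lemma hasDerivAt_DD (he : Sgn e) (ht : 0 < t) (x : ℝ) :
    HasDerivAt (fun y => DD e y t) (-(t * WW e x t)) x := by
  have h := fd_x (hasFDerivAt_lat_reg he hasDerivAt_sech exAt_sech_th.neg
    (exAt_zero_sgr exS_sech.exAt) x ht)
  simp only [lat_zero, mom_fneg] at h
  exact h.congr_deriv (by rw [WW]; ring)

lemma hasDerivAt_Zth (ht : 0 < t) (x : ℝ) :
    HasDerivAt (fun y => Zt th y t) (t * SS2 x t - 2) x := by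
  have h := (fd_x (hasFDerivAt_lat_reg sgn_one hasDerivAt_th exAt_sech_sq
    (exAt_one_sgr exS_th) x ht)).sub ((hasDerivAt_id x).const_mul 2)
  simp only [Zt_eq]
  exact h.congr_deriv (by rw [SS2]; ring)

lemma hasDerivAt_Zcoth (ht : 0 < t) {x : ℝ} (hx : x ∈ Ioo (0 : ℝ) 1) :
    HasDerivAt (fun y => Zt coth y t) (t * mom 1 (fun w => -(csch w * csch w)) 0 x t - 2) x := by
  have h := (fd_x (hasFDerivAt_lat_sing sgn_one (fun w hw => hasDerivAt_coth hw)
    (fun δ hδ => exAt_csch_sq hδ) (exAt_one_sgr exS_coth) hx ht)).sub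
    ((hasDerivAt_id x).const_mul 2)
  simp only [Zt_eq]
  exact h.congr_deriv (by ring)

lemma SS2_eq (he : Sgn e) (ht : 0 < t) (x : ℝ) :
    t * SS2 x t - 2 = t * DD e x t ^ 2 - 2 * mom e sig 0 0 t := by
  rw [mom_sig_zero_zero he ht, DD, SSd he ht, SS2]; ring

lemma SS2_pos (ht : 0 < t) (x : ℝ) : 0 < SS2 x t := by
  refine ((dec_comp exAt_sech_sq x ht).summable_mom' sgn_one x 0).tsum_pos (fun k => ?_) 0 ?_ <;>
    simp [(sech_pos _).ne', mul_self_nonneg]

lemma DD_neg (he : Sgn e) (x : ℝ) : DD e (-x) t = DD e x t := by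
  rw [DD, mom_neg he (s := 1) (by simp [sech_neg])]; simp [DD]

lemma DD_add_one (he : Sgn e) (x : ℝ) : DD e (x + 1) t = e * DD e x t := mom_add_one he _ _ _

lemma DD_half : DD (-1) (-(1 / 2)) t = 0 := by
  have h := DD_add_one (t := t) sgn_neg_one (-(1 / 2))
  rw [show -(1 / 2 : ℝ) + 1 = 1 / 2 by norm_num, DD_neg sgn_neg_one] at h
  rw [DD_neg sgn_neg_one]; linarith

lemma Zth_add_one (ht : 0 < t) (x : ℝ) : Zt th (x + 1) t = Zt th x t := Zt_add_one (sum_th x ht)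
lemma Zcoth_add_one (ht : 0 < t) (x : ℝ) : Zt coth (x + 1) t = Zt coth x t :=
  Zt_add_one (sum_coth x ht)

lemma Zth_half (ht : 0 < t) : Zt th (1 / 2) t = 0 := by
  have h := Zth_add_one ht (-(1 / 2))
  rw [show -(1 / 2 : ℝ) + 1 = 1 / 2 by norm_num, Zt_neg th_neg] at h
  linarith

lemma Zcoth_half (ht : 0 < t) : Zt coth (1 / 2) t = 0 := by
  have h := Zcoth_add_one ht (-(1 / 2))
  rw [show -(1 / 2 : ℝ) + 1 = 1 / 2 by norm_num, Zt_neg coth_neg] at h
  linarith

lemma ni_of_Ioo {x : ℝ} (hx : x ∈ Ioo (0 : ℝ) 1) : NI x := fun k h => by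
  have h1 : (k : ℝ) < 0 := by linarith [hx.1]
  have h2 : (-1 : ℝ) < k := by linarith [hx.2]
  have h3 : k < 0 := by exact_mod_cast h1
  have h4 : -1 < k := by exact_mod_cast h2
  omega

noncomputable def mm (x t : ℝ) : ℝ := Zt coth (x + 1 / 2) t - Zt th x t

lemma WW_eq (ht : 0 < t) {x : ℝ} (hx : x ∈ Ioo (-(1 / 2) : ℝ) (1 / 2)) :
    -(t * WW (-1) x t) = t * mm x t * DD (-1) x t := by
  have h1 := SC sgn_neg_one ht (-(1 / 2)) (b := x + 1 / 2)
    (ni_of_Ioo ⟨by linarith [hx.1], by linarith [hx.2]⟩)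
  have h2 := SCd sgn_neg_one ht x
  have h3 := DD_half (t := t)
  rw [DD] at h3
  rw [h3, Zt_neg th_neg, Zth_half ht, show -(1 / 2) + (x + 1 / 2) = x by ring] at h1
  rw [WW, h2, mm, DD]
  linear_combination t * h1

lemma hasDerivAt_mm (ht : 0 < t) {x : ℝ} (hx : x ∈ Ioo (-(1 / 2) : ℝ) (1 / 2)) :
    ∃ d < 0, HasDerivAt (fun y => mm y t) d x := by
  have h1 := (hasDerivAt_Zcoth ht (x := x + 1 / 2) ⟨by linarith [hx.1], by linarith [hx.2]⟩).comp_add_const
    x (1 / 2)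
  refine ⟨_, ?_, h1.sub (hasDerivAt_Zth ht x)⟩
  have h2 : mom 1 (fun w => -(csch w * csch w)) 0 (x + 1 / 2) t ≤ 0 :=
    tsum_nonpos fun k => by simp [mul_self_nonneg]
  have h3 := SS2_pos ht x
  nlinarith

lemma mm_neg (ht : 0 < t) {x : ℝ} (hx : x ∈ Ioo (0 : ℝ) (1 / 2)) : mm x t < 0 := by
  have h0 : mm 0 t = 0 := by rw [mm, zero_add, Zcoth_half ht, Zt_zero th_neg, sub_zero]
  have h : StrictAntiOn (fun y => mm y t) (Ioo (-(1 / 2) : ℝ) (1 / 2)) := by
    refine strictAntiOn_of_deriv_neg (convex_Ioo _ _) (fun y hy => ?_) fun y hy => ?_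
    · obtain ⟨d, -, hd⟩ := hasDerivAt_mm ht hy
      exact hd.continuousAt.continuousWithinAt
    · obtain ⟨d, h0, hd⟩ := hasDerivAt_mm ht (interior_subset hy)
      rwa [hd.deriv]
  have := h (a := 0) ⟨by norm_num, by norm_num⟩ ⟨by linarith [hx.1], hx.2⟩ hx.1
  simpa [h0] using this

lemma DD_ne_zero (ht : 0 < t) {x : ℝ} (hx : x ∈ Ico (0 : ℝ) (1 / 2)) : DD (-1) x t ≠ 0 := by
  intro h0
  have hall : ∀ y ∈ Ico (0 : ℝ) (1 / 2), DD (-1) y t = 0 := by
    intro y hy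
    have hsub : Icc (-x) y ⊆ Ioo (-(1 / 2) : ℝ) (1 / 2) := fun z hz =>
      ⟨by linarith [hz.1, hx.2], by linarith [hz.2, hy.2]⟩
    have hc : ContinuousOn (fun z => t * mm z t) (Icc (-x) y) := fun z hz => by
      obtain ⟨d, -, hd⟩ := hasDerivAt_mm ht (hsub hz)
      exact (hd.const_mul t).continuousAt.continuousWithinAt
    obtain ⟨K, hK⟩ := isCompact_Icc.exists_bound_of_continuousOn hc
    refine eq_zero_of_abs_deriv_le_mul_abs_self_of_eq_zero_right (f := fun z => DD (-1) z t)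
      (K := K) (a := -x) (b := y)
      (fun z _ => (hasDerivAt_DD sgn_neg_one ht z).continuousAt.continuousWithinAt)
      (fun z _ => (hasDerivAt_DD sgn_neg_one ht z).hasDerivWithinAt)
      (by rw [DD_neg sgn_neg_one, h0]) (fun z hz => ?_) y ⟨by linarith [hx.1, hy.1], le_rfl⟩
    rw [WW_eq ht (hsub (Ico_subset_Icc_self hz)), norm_mul]
    exact mul_le_mul_of_nonneg_right (hK z (Ico_subset_Icc_self hz)) (norm_nonneg _)
  obtain ⟨c, hc, hc'⟩ := exists_hasDerivAt_eq_zero (f := fun y => Zt th y t)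
    (f' := fun y => t * SS2 y t - 2) (a := 0) (b := 1 / 2) (by norm_num)
    (fun z _ => (hasDerivAt_Zth ht z).continuousAt.continuousWithinAt)
    (by rw [Zt_zero th_neg, Zth_half ht]) fun z _ => hasDerivAt_Zth ht z
  rw [SS2_eq sgn_neg_one ht, hall c (Ioo_subset_Ico_self hc)] at hc'
  linarith [mom_sig_zero_pos ht]

lemma DD_sq_anti (ht : 0 < t) : StrictAntiOn (fun y => DD (-1) y t ^ 2) (Icc (0 : ℝ) (1 / 2)) := by
  refine strictAntiOn_of_deriv_neg (convex_Icc _ _)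
    (fun y _ => ((hasDerivAt_DD sgn_neg_one ht y).pow 2).continuousAt.continuousWithinAt)
    fun y hy => ?_
  rw [interior_Icc] at hy
  have h := ((hasDerivAt_DD sgn_neg_one ht y).pow 2).deriv
  have h1 := mm_neg ht hy
  have h2 := sq_pos_of_ne_zero (DD_ne_zero ht (Ioo_subset_Ico_self hy))
  rw [WW_eq ht ⟨by linarith [hy.1], hy.2⟩] at h
  have h3 : t * mm y t * DD (-1) y t ^ 2 < 0 := mul_neg_of_neg_of_pos (mul_neg_of_pos_of_neg ht h1) h2
  refine lt_of_eq_of_lt h ?_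
  simp only [Nat.cast_ofNat, Nat.add_one_sub_one, pow_one]
  linarith

lemma SS2_anti (ht : 0 < t) : StrictAntiOn (fun y => SS2 y t) (Icc (0 : ℝ) (1 / 2)) := by
  intro a ha b hb hab
  have h := DD_sq_anti ht ha hb hab
  have h1 := SS2_eq sgn_neg_one ht a
  have h2 := SS2_eq sgn_neg_one ht b
  simp only at h ⊢
  nlinarith

lemma Zth_pos (ht : 0 < t) {x : ℝ} (hx : x ∈ Ioo (0 : ℝ) (1 / 2)) : 0 < Zt th x t := by
  have h : StrictConcaveOn ℝ (Icc (0 : ℝ) (1 / 2)) fun y => Zt th y t := by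
    refine StrictAntiOn.strictConcaveOn_of_deriv (convex_Icc _ _)
      (fun z _ => (hasDerivAt_Zth ht z).continuousAt.continuousWithinAt) fun a ha b hb hab => ?_
    rw [(hasDerivAt_Zth ht a).deriv, (hasDerivAt_Zth ht b).deriv]
    have := SS2_anti ht (interior_subset ha) (interior_subset hb) hab
    simp only at this
    nlinarith
  have h2 := h.2 (show (0 : ℝ) ∈ Icc (0 : ℝ) (1 / 2) from ⟨le_rfl, by norm_num⟩)
    (show (1 / 2 : ℝ) ∈ Icc (0 : ℝ) (1 / 2) from ⟨by norm_num, le_rfl⟩) (by norm_num)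
    (show 0 < 1 - 2 * x by linarith [hx.2]) (show 0 < 2 * x by linarith [hx.1]) (by ring)
  simp only [Zt_zero th_neg, Zth_half ht, smul_eq_mul, mul_zero, zero_add] at h2
  rwa [show 2 * x * (1 / 2) = x by ring] at h2

lemma SS2_inj (ht : 0 < t) {x y : ℝ} (h : SS2 x t = SS2 y t) :
    ∃ k : ℤ, y = x + k ∨ y = -x + k := by
  have hp : Function.Periodic (fun y => SS2 y t) 1 := fun y => by
    simp only [SS2]; rw [mom_add_one sgn_one, one_mul]
  have hev : ∀ y, SS2 (-y) t = SS2 y t := fun y => by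
    rw [SS2, mom_neg sgn_one (s := 1) (by simp [sech_neg])]; simp [SS2]
  have hred : ∀ y, SS2 y t = SS2 |y - round y| t := fun y => by
    have := hp.sub_int_mul_eq (x := y) (round y)
    simp only [mul_one] at this
    rcases abs_choice (y - round y) with h | h <;> rw [h]
    · exact this.symm
    · rw [hev]; exact this.symm
  rw [hred x, hred y] at h
  have h2 := (SS2_anti ht).injOn ⟨abs_nonneg _, abs_sub_round x⟩ ⟨abs_nonneg _, abs_sub_round y⟩ h
  rcases abs_eq_abs.1 h2 with h3 | h3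
  · exact ⟨round y - round x, Or.inl (by push_cast; linarith)⟩
  · exact ⟨round y + round x, Or.inr (by push_cast; linarith)⟩

lemma csch_anti {a b : ℝ} (ha : 0 < a) (hab : a < b) : csch b < csch a :=
  inv_strictAnti₀ (sinh_pos_iff.2 ha) (sinh_lt_sinh.2 hab)

lemma U0_pos (ht : 0 < t) : 0 < mom (-1) csch 0 (1 / 3) t := by
  have h1 := (hasSum_even_odd ((dec_csch (1 / 3) ht).summable_mom' sgn_neg_one (1 / 3) 0)).1
  have hpos : ∀ j : ℤ, 0 < (-1 : ℝ) ^ (2 * j) * ((((2 * j : ℤ) : ℝ) + 1 / 3) ^ 0 *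
      csch ((((2 * j : ℤ) : ℝ) + 1 / 3) * t)) + (-1 : ℝ) ^ (2 * j + 1) *
      ((((2 * j + 1 : ℤ) : ℝ) + 1 / 3) ^ 0 * csch ((((2 * j + 1 : ℤ) : ℝ) + 1 / 3) * t)) := by
    intro j
    have h3 : (-1 : ℝ) ^ (2 * j) = 1 := by rw [zpow_mul]; simp
    rw [sgn_neg_one.add, h3]
    push_cast
    simp only [pow_zero, one_mul, zpow_one]
    rcases le_or_gt 0 j with h | h
    · have : (0 : ℝ) ≤ j := by exact_mod_cast h
      have := csch_anti (a := (2 * j + 1 / 3) * t) (b := (2 * j + 1 + 1 / 3) * t) (by positivity)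
        (by nlinarith)
      linarith
    · have : (j : ℝ) ≤ -1 := by exact_mod_cast (show j ≤ -1 by omega)
      have := csch_anti (a := -((2 * j + 1 + 1 / 3) * t)) (b := -((2 * j + 1 / 3) * t))
        (by nlinarith) (by nlinarith)
      rw [csch_neg, csch_neg] at this
      linarith
  rw [mom, M, ← h1.tsum_eq]
  exact h1.summable.tsum_pos (fun j => (hpos j).le) 0 (hpos 0)

lemma ni_third : NI (1 / 3) := ni_of_Ioo ⟨by norm_num, by norm_num⟩
lemma ni_two_third : NI (2 / 3) := ni_of_Ioo ⟨by norm_num, by norm_num⟩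

lemma U1_pos (he : Sgn e) (ht : 0 < t) : 0 < mom e csch 1 (1 / 3) t := by
  rcases he with rfl | rfl
  · have h := mom_sig_zero 1 ni_third ht
    have h2 : 0 < mom 1 sig 0 (1 / 3) t :=
      ((dec_comp exAt_sig _ ht).summable_mom' sgn_one (1 / 3) 0).tsum_pos
        (fun k => by simp [(sig_pos _).le]) 0 (by simp [sig_pos])
    rw [h] at h2
    exact (mul_pos_iff_of_pos_left ht).1 h2
  · have h1 := (SS sgn_neg_one ht (a := -(1 / 2)) (b := -(1 / 6) + 1)
      (by rw [show -(1 / 2 : ℝ) + (-(1 / 6) + 1) = 1 / 3 by norm_num]; exact ni_third)).1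
    have h3 := DD_half (t := t)
    rw [DD] at h3
    rw [h3, Zt_neg th_neg, Zth_half ht, Zth_add_one ht, Zt_neg th_neg,
      show -(1 / 2 : ℝ) + (-(1 / 6) + 1) = 1 / 3 by norm_num] at h1
    have h4 := mul_pos (Zth_pos ht (x := 1 / 6) ⟨by norm_num, by norm_num⟩) (U0_pos ht)
    linarith

end Pool.Agent.Lib.MP_870895_nt
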