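import Pool.Agent.Lib.MP_870895_nt.Signs

set_option autoImplicit false

open Real Filter Topology Set MeasureTheory

namespace Pool.Agent.Lib.MP_870895_nt

variable {e t : ℝ}

noncomputable def CC1 (e v t : ℝ) : ℝ := mom e (fun w => -(coth w * csch w)) 1 v t

lemma mom_pow_mul (e : ℝ) (g : ℝ → ℝ) (i j : ℕ) (x t : ℝ) :
    mom e (fun w => w ^ i * g w) j x t = t ^ i * mom e g (i + j) x t := by
  unfold mom M
  rw [← tsum_mul_left]; exact tsum_congr fun k => by beta_reduce; rw [mul_pow]; ring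

lemma mom_fadd (he : Sgn e) {g h : ℝ → ℝ} {δ : ℝ} (hg : ExAt δ g) (hh : ExAt δ h) (j : ℕ) (x : ℝ)
    (ht : 0 < t) : mom e (fun w => g w + h w) j x t = mom e g j x t + mom e h j x t := by
  refine (hs_congr ((M_hasSum he (dec_comp hg x ht) x j).add (M_hasSum he (dec_comp hh x ht) x j))
    (fun k => ?_) rfl).tsum_eq
  ring

lemma hasFDerivAt_U0 (he : Sgn e) {v : ℝ} (hv : v ∈ Ioo (0 : ℝ) 1) (ht : 0 < t) :
    ∃ d, HasFDerivAt (fun p : ℝ × ℝ => mom e csch 0 p.1 p.2) (D2 d (CC1 e v t)) (v, t) := by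
  have h := hasFDerivAt_lat_sing he (fun w hw => hasDerivAt_csch hw)
    (fun δ hδ => (exS_coth_csch hδ).exAt) (exAt_zero_sgr (exS_csch one_pos).exAt) hv ht
  simp only [lat_zero] at h
  exact ⟨_, h⟩

lemma hasFDerivAt_U1 (he : Sgn e) {v : ℝ} (hv : v ∈ Ioo (0 : ℝ) 1) (ht : 0 < t) :
    ∃ d, HasFDerivAt (fun p : ℝ × ℝ => mom e csch 1 p.1 p.2)
      (D2 (mom e csch 0 v t + t * CC1 e v t) d) (v, t) := by
  have h := hasFDerivAt_lat_sing he (G := fun w => w ^ 1 * csch w)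
    (g := fun w => csch w + w ^ 1 * -(coth w * csch w))
    (fun w hw => ((hasDerivAt_pow 1 w).mul (hasDerivAt_csch hw)).congr_deriv (by simp))
    (fun δ hδ => (exS_csch hδ).exAt.add ((exS_coth_csch hδ).pow_mul 1))
    (exAt_zero_sgr ((exS_csch one_pos).pow_mul 1)) hv ht
  simp only [lat_zero, mom_pow_mul] at h
  rw [mom_fadd he (exS_csch one_pos).exAt ((exS_coth_csch one_pos).pow_mul 1) 0 v ht,
    mom_pow_mul] at h
  have h1 : HasFDerivAt (fun p : ℝ × ℝ => (p.2)⁻¹) (D2 0 (-(t ^ 2)⁻¹)) (v, t) :=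
    ((hasDerivAt_inv ht.ne').comp_hasFDerivAt (v, t) (hasFDerivAt_snd (𝕜 := ℝ) (p := (v, t)))).congr_fderiv
      (ContinuousLinearMap.ext fun p => by simp)
  have h2 := h1.mul h
  refine ⟨t⁻¹ * mom e (fun w => csch w + w ^ 1 * -(coth w * csch w)) 1 v t -
    t * mom e csch 1 v t * (t ^ 2)⁻¹, (h2.congr_of_eventuallyEq ?_).congr_fderiv
    (ContinuousLinearMap.ext fun p => ?_)⟩
  · have : ∀ᶠ p : ℝ × ℝ in 𝓝 (v, t), 0 < p.2 :=
      continuous_snd.continuousAt.eventually (lt_mem_nhds ht)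
    filter_upwards [this] with p hp
    simp only [Pi.mul_apply]; field_simp
  · simp only [add_apply, smul_apply, D2_apply, smul_eq_mul, CC1]
    field_simp; ring

lemma continuousAt_U2 (he : Sgn e) {v : ℝ} (hv : v ∈ Ioo (0 : ℝ) 1) (ht : 0 < t) :
    ContinuousAt (fun p : ℝ × ℝ => mom e csch 2 p.1 p.2) (v, t) := by
  have h := (hasFDerivAt_lat_sing he (G := fun w => w ^ 2 * csch w)
    (g := fun w => 2 * (w ^ 1 * csch w) + w ^ 2 * -(coth w * csch w))
    (fun w hw => ((hasDerivAt_pow 2 w).mul (hasDerivAt_csch hw)).congr_deriv (by simp; ring))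
    (fun δ hδ => (((exS_csch hδ).pow_mul 1).bdd_mul (b := fun _ => 2) (B := 2)
      (fun _ _ => by simp)).add ((exS_coth_csch hδ).pow_mul 2))
    (exAt_zero_sgr ((exS_csch one_pos).pow_mul 2)) hv ht).continuousAt
  simp only [lat_zero, mom_pow_mul] at h
  have h1 : ContinuousAt (fun p : ℝ × ℝ => (p.2 ^ 2)⁻¹) (v, t) :=
    (continuous_snd.pow 2).continuousAt.inv₀ (pow_ne_zero 2 ht.ne')
  refine (h1.mul h).congr ?_
  have : ∀ᶠ p : ℝ × ℝ in 𝓝 (v, t), 0 < p.2 :=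
    continuous_snd.continuousAt.eventually (lt_mem_nhds ht)
  filter_upwards [this] with p hp
  simp only [Pi.mul_apply]; field_simp

noncomputable def uu (e t : ℝ) : ℝ := mom e csch 1 (1 / 3) t

lemma uu_pos (he : Sgn e) (ht : 0 < t) : 0 < uu e t := U1_pos he ht

lemma continuousAt_uu (he : Sgn e) (ht : 0 < t) : ContinuousAt (uu e) t := by
  obtain ⟨d, hd⟩ := hasFDerivAt_U1 he (v := 1 / 3) ⟨by norm_num, by norm_num⟩ ht
  exact (fd_t hd).continuousAt

/-- global bounds -/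
lemma tsum_exp_le {c : ℝ} (hc : 0 < c) :
    (Summable fun k : ℤ => exp (-c * |(k : ℝ)|)) ∧
      ∑' k : ℤ, exp (-c * |(k : ℝ)|) ≤ 2 * (1 + c⁻¹) := by
  have h1 : exp (-c) < 1 := exp_lt_one_iff.2 (by linarith)
  have h := hasSum_geometric_of_lt_one (exp_pos _).le h1
  have h2 : HasSum (fun n : ℕ => exp (-c * |((n : ℤ) : ℝ)|)) (1 - exp (-c))⁻¹ :=
    hs_congr h (fun n => by rw [← exp_nat_mul]; simp [mul_comm]) rfl
  have h3 := HasSum.of_nat_of_neg (f := fun k : ℤ => exp (-c * |(k : ℝ)|)) h2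
    (hs_congr h2 (fun n => by simp) rfl)
  refine ⟨h3.summable, ?_⟩
  rw [h3.tsum_eq]
  have h4 : (1 - exp (-c))⁻¹ ≤ 1 + c⁻¹ := by
    have h5 : exp (-c) ≤ (1 + c)⁻¹ := by
      rw [exp_neg]; exact inv_anti₀ (by positivity) (by linarith [add_one_le_exp c])
    rw [inv_le_comm₀ (by linarith) (by positivity)]
    have : (1 + c⁻¹)⁻¹ = 1 - (1 + c)⁻¹ := by field_simp; ring
    linarith
  exact le_trans (sub_le_self _ (exp_pos _).le) (by linarith)

lemma U_le (he : Sgn e) (j : ℕ) : ∃ C, 0 ≤ C ∧ ∀ v ∈ Icc (1 / 3 : ℝ) (1 / 2), ∀ t, 0 < t →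
    |mom e csch j v t| ≤ C * (1 + t⁻¹) ^ (j + 2) * exp (-t / 12) := by
  refine ⟨3 * (2 ^ j * j.factorial) * 16, by positivity, fun v hv t ht => ?_⟩
  have hs := tsum_exp_le (c := t / 8) (by positivity)
  have hb : ∀ k : ℤ, ‖e ^ k * ((k + v) ^ j * csch ((k + v) * t))‖ ≤
      3 * (2 ^ j * j.factorial) * (1 + t⁻¹) ^ (j + 1) * exp (-t / 12) *
        exp (-(t / 8) * |(k : ℝ)|) := by
    intro k
    have hk : 1 / 3 ≤ |(k : ℝ) + v| ∧ 1 / 6 + |(k : ℝ)| / 4 ≤ |(k : ℝ) + v| := by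
      rcases le_or_gt 0 k with h | h
      · have : (0 : ℝ) ≤ k := by exact_mod_cast h
        rw [abs_of_nonneg this, abs_of_nonneg (by linarith [hv.1])]
        constructor <;> linarith [hv.1]
      · have : (k : ℝ) ≤ -1 := by exact_mod_cast (show k ≤ -1 by omega)
        rw [abs_of_neg (by linarith : (k : ℝ) < 0), abs_of_neg (by linarith [hv.2])]
        constructor <;> linarith [hv.2]
    set u := |(k : ℝ) + v| with hu
    have hu0 : 0 < u := by linarith [hk.1]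
    have h1 := csch_le (mul_pos hu0 ht)
    have h2 := pow_mul_exp_le j (u * t) (by positivity)
    have h3 : 2 + (u * t)⁻¹ ≤ 3 * (1 + t⁻¹) := by
      have : (u * t)⁻¹ ≤ (1 / 3 * t)⁻¹ := inv_anti₀ (by positivity) (by gcongr; exact hk.1)
      have h4 : (1 / 3 * t)⁻¹ = 3 * t⁻¹ := by field_simp
      linarith
    have h4 : exp (-(u * t) / 2) ≤ exp (-t / 12) * exp (-(t / 8) * |(k : ℝ)|) := by
      rw [← exp_add, exp_le_exp]; nlinarith [hk.2]
    have h5 : u ^ j ≤ (1 + t⁻¹) ^ j * (u * t) ^ j := by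
      rw [← mul_pow]; gcongr
      have : (1 + t⁻¹) * (u * t) = u * t + u := by field_simp
      rw [this]; nlinarith
    rw [Real.norm_eq_abs, abs_mul, he.abs, one_mul, abs_mul, abs_pow, abs_csch, abs_mul,
      abs_of_pos ht, ← hu]
    calc u ^ j * csch (u * t) ≤ ((1 + t⁻¹) ^ j * (u * t) ^ j) * ((3 * (1 + t⁻¹)) * exp (-(u * t))) := by
          gcongr
          · exact (csch_pos (mul_pos hu0 ht)).le
          · exact h1.trans (by gcongr)
      _ = 3 * (1 + t⁻¹) ^ (j + 1) * ((u * t) ^ j * exp (-(u * t))) := by ring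
      _ ≤ 3 * (1 + t⁻¹) ^ (j + 1) * ((2 ^ j * j.factorial) *
          (exp (-t / 12) * exp (-(t / 8) * |(k : ℝ)|))) := by
          exact mul_le_mul_of_nonneg_left (h2.trans (by gcongr)) (by positivity)
      _ = _ := by ring
  have h := tsum_of_norm_bounded (hs.1.mul_left _).hasSum hb
  rw [tsum_mul_left] at h
  refine h.trans ?_
  have h6 : 2 * (1 + (t / 8)⁻¹) ≤ 16 * (1 + t⁻¹) := by
    have : (t / 8)⁻¹ = 8 * t⁻¹ := by field_simp
    rw [this]; linarith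
  calc _ ≤ 3 * (2 ^ j * j.factorial) * (1 + t⁻¹) ^ (j + 1) * exp (-t / 12) * (16 * (1 + t⁻¹)) := by
        gcongr; exact hs.2.trans h6
    _ = _ := by ring

end Pool.Agent.Lib.MP_870895_nt
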