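import Pool.Agent.Lib.MP_870895_nt.Basic

set_option autoImplicit false

open Real Filter Topology

namespace Pool.Agent.Lib.MP_870895_nt

noncomputable def M (e : ℝ) (f : ℤ → ℝ) (a : ℝ) (j : ℕ) : ℝ := ∑' k : ℤ, e ^ k * ((k + a) ^ j * f k)

noncomputable def mom (e : ℝ) (g : ℝ → ℝ) (j : ℕ) (x t : ℝ) : ℝ :=
  M e (fun k => g ((k + x) * t)) x j

noncomputable def Zt (G : ℝ → ℝ) (x t : ℝ) : ℝ := (∑' k : ℤ, (G ((k + x) * t) - sg k)) - 2 * x

lemma hs_congr {ι : Type*} {f g : ι → ℝ} {a b : ℝ} (h : HasSum f a) (h1 : ∀ i, g i = f i)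
    (h2 : b = a) : HasSum g b := by
  rw [funext h1, h2]; exact h

def convEquiv : ℤ × ℤ ≃ ℤ × ℤ where
  toFun p := (p.2, p.1 - p.2)
  invFun p := (p.1 + p.2, p.1)
  left_inv p := by simp
  right_inv p := by simp

lemma conv_aux {u v : ℤ → ℝ} (hu : Summable fun k => ‖u k‖) (hv : Summable fun k => ‖v k‖) :
    HasSum (fun n : ℤ => ∑' k : ℤ, u k * v (n - k)) ((∑' k, u k) * ∑' k, v k) ∧
      ∀ n : ℤ, Summable fun k : ℤ => u k * v (n - k) := by
  have h1 := summable_mul_of_summable_norm hu hv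
  have h2 : Summable fun p : ℤ × ℤ => u p.2 * v (p.1 - p.2) :=
    (convEquiv.summable_iff (f := fun p : ℤ × ℤ => u p.1 * v p.2)).2 h1
  refine ⟨?_, fun n => h2.prod_factor n⟩
  rw [tsum_mul_tsum_of_summable_norm hu hv,
    ← convEquiv.tsum_eq (fun p : ℤ × ℤ => u p.1 * v p.2)]
  exact h2.hasSum.prod_fiberwise fun n => (h2.prod_factor n).hasSum

section
variable {e : ℝ} {f g : ℤ → ℝ}

lemma conv_ij (he : Sgn e) (hf : Dec f) (hg : Dec g) (a b : ℝ) (i j : ℕ) :
    HasSum (fun n : ℤ => e ^ n * ∑' k : ℤ, (k + a) ^ i * ((n - k : ℤ) + b) ^ j * (f k * g (n - k)))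
      (M e f a i * M e g b j) ∧
      ∀ n : ℤ, Summable fun k : ℤ => (k + a) ^ i * ((n - k : ℤ) + b) ^ j * (f k * g (n - k)) := by
  have h := conv_aux (hf.summable_mom he a i) (hg.summable_mom he b j)
  have key : ∀ n k : ℤ, e ^ k * ((k + a) ^ i * f k) * (e ^ (n - k) * (((n - k : ℤ) + b) ^ j * g (n - k)))
      = e ^ n * ((k + a) ^ i * ((n - k : ℤ) + b) ^ j * (f k * g (n - k))) := fun n k => by
    have : e ^ n = e ^ k * e ^ (n - k) := by rw [← he.add]; congr 1; ring
    rw [this]; ring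
  refine ⟨?_, fun n => ?_⟩
  · refine hs_congr h.1 (fun n => ?_) rfl
    rw [← tsum_mul_left]
    exact tsum_congr fun k => (key n k).symm
  · have h2 := (h.2 n).mul_left (e ^ n)⁻¹
    refine h2.congr fun k => ?_
    rw [key, ← mul_assoc, inv_mul_cancel₀ (zpow_ne_zero _ he.ne), one_mul]

noncomputable def cv (f g : ℤ → ℝ) (n : ℤ) : ℝ := ∑' k : ℤ, f k * g (n - k)

lemma conv0 (he : Sgn e) (hf : Dec f) (hg : Dec g) (a b : ℝ) :
    HasSum (fun n : ℤ => e ^ n * cv f g n) (M e f a 0 * M e g b 0) := by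
  simpa [cv] using (conv_ij he hf hg a b 0 0).1

lemma conv1 (he : Sgn e) (hf : Dec f) (hg : Dec g) (a b : ℝ) :
    HasSum (fun n : ℤ => e ^ n * ((n + (a + b)) * cv f g n))
      (M e f a 1 * M e g b 0 + M e f a 0 * M e g b 1) := by
  have h1 := conv_ij he hf hg a b 1 0
  have h2 := conv_ij he hf hg a b 0 1
  convert h1.1.add h2.1 using 2 with n
  rw [← mul_add, ← (h1.2 n).tsum_add (h2.2 n), cv, ← tsum_mul_left]
  congr 1
  exact tsum_congr fun k => by push_cast; ring

lemma conv2 (he : Sgn e) (hf : Dec f) (hg : Dec g) (a b : ℝ) :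
    HasSum (fun n : ℤ => e ^ n * ((n + (a + b)) ^ 2 * cv f g n))
      (M e f a 2 * M e g b 0 + 2 * (M e f a 1 * M e g b 1) + M e f a 0 * M e g b 2) := by
  have h1 := conv_ij he hf hg a b 2 0
  have h2 := conv_ij he hf hg a b 1 1
  have h3 := conv_ij he hf hg a b 0 2
  convert (h1.1.add (h2.1.mul_left 2)).add h3.1 using 2 with n
  rw [mul_left_comm 2, ← mul_add, ← mul_add, ← tsum_mul_left (a := 2),
    ← (h1.2 n).tsum_add ((h2.2 n).mul_left 2),
    ← ((h1.2 n).add ((h2.2 n).mul_left 2)).tsum_add (h3.2 n), cv, ← tsum_mul_left]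
  congr 1
  exact tsum_congr fun k => by push_cast; ring

lemma hasSum_sg_step (n : ℤ) : HasSum (fun k : ℤ => sg (n + 1 - k) - sg (n - k)) 2 := by
  have h1 : HasSum (fun k : ℤ => if k = n then (1 : ℝ) else 0) 1 := hasSum_ite_eq n 1
  have h2 : HasSum (fun k : ℤ => if k = n + 1 then (1 : ℝ) else 0) 1 := hasSum_ite_eq (n + 1) 1
  convert h1.add h2 using 1
  · funext k
    rcases lt_trichotomy k n with h | rfl | h
    · rw [sg_pos (by omega), sg_pos (by omega), if_neg (by omega), if_neg (by omega)]; ring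
    · simp [sg_zero, sg_pos]
    · rcases eq_or_lt_of_le (show n + 1 ≤ k by omega) with h' | h'
      · subst h'; simp [sg_zero, sg_of_neg]
      · rw [sg_of_neg (by omega), sg_of_neg (by omega), if_neg (by omega), if_neg (by omega)]; ring
  · ring

lemma hasSum_sg (n : ℤ) : HasSum (fun k : ℤ => sg k + sg (n - k)) (2 * n) := by
  induction n using Int.induction_on with
  | zero => simp [sg_neg]
  | succ n ih =>
    convert ih.add (hasSum_sg_step n) using 1
    · funext k; ring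
    · push_cast; ring
  | pred n ih =>
    refine hs_congr (ih.sub (hasSum_sg_step (-(n : ℤ) - 1))) (fun k => ?_) ?_
    · rw [show -(n : ℤ) - 1 + 1 - k = -(n : ℤ) - k by ring]; ring
    · push_cast; ring

lemma hasSum_pq {p q : ℤ → ℝ} (hp : Summable fun k => p k - sg k) (hq : Summable fun k => q k - sg k)
    (n : ℤ) : HasSum (fun k : ℤ => p k + q (n - k))
      ((∑' k, (p k - sg k)) + (∑' k, (q k - sg k)) + 2 * n) := by
  have h2 : HasSum (fun k : ℤ => q (n - k) - sg (n - k)) (∑' k, (q k - sg k)) :=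
    ((Equiv.subLeft n).hasSum_iff (f := fun k => q k - sg k)).2 hq.hasSum
  convert (hp.hasSum.add h2).add (hasSum_sg n) using 1
  funext k; ring

lemma cv_eq {p q : ℤ → ℝ} (hp : Summable fun k => p k - sg k) (hq : Summable fun k => q k - sg k)
    {n : ℤ} {h : ℝ} (hid : ∀ k, f k * g (n - k) = (p k + q (n - k)) * h) :
    cv f g n = ((∑' k, (p k - sg k)) + (∑' k, (q k - sg k)) + 2 * n) * h := by
  rw [cv, tsum_congr hid]
  exact ((hasSum_pq hp hq n).mul_right h).tsum_eq

lemma M_hasSum (he : Sgn e) (hf : Dec f) (a : ℝ) (j : ℕ) :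
    HasSum (fun k : ℤ => e ^ k * ((k + a) ^ j * f k)) (M e f a j) :=
  (hf.summable_mom' he a j).hasSum

end

section
variable {e t : ℝ}

lemma dec_sech (x : ℝ) (ht : 0 < t) : Dec fun k => sech ((k + x) * t) :=
  dec_comp exS_sech.exAt x ht
lemma dec_csch (x : ℝ) (ht : 0 < t) : Dec fun k => csch ((k + x) * t) :=
  dec_comp (exS_csch one_pos).exAt x ht
lemma exAt_sech_th : ExAt 0 (fun w => th w * sech w) :=
  exS_sech.exAt.bdd_mul fun w _ => abs_th_le w
lemma exAt_sech_sq : ExAt 0 (fun w => sech w * sech w) :=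
  exS_sech.exAt.bdd_mul (B := 1) fun w _ => by rw [abs_of_pos (sech_pos w)]; exact sech_le_one w
lemma sum_th (x : ℝ) (ht : 0 < t) : Summable fun k : ℤ => th ((k + x) * t) - sg k := by
  simpa using (dec_comp_sg (s := 1) (G := th) (by simpa using exS_th.exAt) x ht).summable
lemma sum_coth (x : ℝ) (ht : 0 < t) : Summable fun k : ℤ => coth ((k + x) * t) - sg k := by
  simpa using (dec_comp_sg (s := 1) (G := coth) (by simpa using exS_coth.exAt) x ht).summable

def NI (x : ℝ) : Prop := ∀ k : ℤ, (k : ℝ) + x ≠ 0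

lemma arg_add (n k : ℤ) (a b t : ℝ) :
    (k + a) * t + (((n - k : ℤ) : ℝ) + b) * t = (n + (a + b)) * t := by push_cast; ring

/-- generic telescoping, weight one and weight `n + a + b` -/
lemma tele01 (he : Sgn e) (ht : 0 < t) {F G H P Q : ℝ → ℝ} {a b : ℝ}
    (hF : Dec fun k => F ((k + a) * t)) (hG : Dec fun k => G ((k + b) * t))
    (hH : Dec fun k => H ((k + (a + b)) * t))
    (hP : Summable fun k : ℤ => P ((k + a) * t) - sg k)
    (hQ : Summable fun k : ℤ => Q ((k + b) * t) - sg k)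
    (hid : ∀ k l : ℤ, F ((k + a) * t) * G ((l + b) * t) =
      (P ((k + a) * t) + Q ((l + b) * t)) * H ((k + a) * t + (l + b) * t)) :
    mom e F 0 a t * mom e G 0 b t =
      (Zt P a t + Zt Q b t) * mom e H 0 (a + b) t + 2 * mom e H 1 (a + b) t ∧
    mom e F 1 a t * mom e G 0 b t + mom e F 0 a t * mom e G 1 b t =
      (Zt P a t + Zt Q b t) * mom e H 1 (a + b) t + 2 * mom e H 2 (a + b) t := by
  have hc : ∀ n : ℤ, cv (fun k => F ((k + a) * t)) (fun k => G ((k + b) * t)) n =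
      (Zt P a t + Zt Q b t + 2 * (n + (a + b))) * H ((n + (a + b)) * t) := fun n => by
    rw [cv_eq hP hQ (h := H ((n + (a + b)) * t)) fun k => by rw [hid, arg_add]]
    unfold Zt; ring
  constructor
  · refine (conv0 he hF hG a b).unique ?_
    refine hs_congr (((M_hasSum he hH (a + b) 0).mul_left (Zt P a t + Zt Q b t)).add
      ((M_hasSum he hH (a + b) 1).mul_left 2)) (fun n => ?_) rfl
    rw [hc]; ring
  · refine (conv1 he hF hG a b).unique ?_
    refine hs_congr (((M_hasSum he hH (a + b) 1).mul_left (Zt P a t + Zt Q b t)).add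
      ((M_hasSum he hH (a + b) 2).mul_left 2)) (fun n => ?_) rfl
    rw [hc]; ring

lemma ni_mul {x : ℝ} (hx : NI x) (ht : 0 < t) (k : ℤ) : (k + x) * t ≠ 0 := mul_ne_zero (hx k) ht.ne'

lemma ni_add {a b : ℝ} (hx : NI (a + b)) (ht : 0 < t) (k l : ℤ) :
    (k + a) * t + (l + b) * t ≠ 0 := by
  have := ni_mul hx ht (k + l)
  convert this using 1; push_cast; ring

lemma SS (he : Sgn e) (ht : 0 < t) {a b : ℝ} (hab : NI (a + b)) :
    mom e sech 0 a t * mom e sech 0 b t =
      (Zt th a t + Zt th b t) * mom e csch 0 (a + b) t + 2 * mom e csch 1 (a + b) t ∧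
    mom e sech 1 a t * mom e sech 0 b t + mom e sech 0 a t * mom e sech 1 b t =
      (Zt th a t + Zt th b t) * mom e csch 1 (a + b) t + 2 * mom e csch 2 (a + b) t :=
  tele01 he ht (dec_sech a ht) (dec_sech b ht) (dec_csch _ ht) (sum_th a ht) (sum_th b ht)
    fun k l => ss_id _ _ (ni_add hab ht k l)

lemma SC (he : Sgn e) (ht : 0 < t) (a : ℝ) {b : ℝ} (hb : NI b) :
    mom e sech 0 a t * mom e csch 0 b t =
      (Zt th a t + Zt coth b t) * mom e sech 0 (a + b) t + 2 * mom e sech 1 (a + b) t :=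
  (tele01 he ht (dec_sech a ht) (dec_csch b ht) (dec_sech _ ht) (sum_th a ht) (sum_coth b ht)
    fun _ l => sc_id _ _ (ni_mul hb ht l)).1

lemma CC (he : Sgn e) (ht : 0 < t) {a b : ℝ} (ha : NI a) (hb : NI b) (hab : NI (a + b)) :
    mom e csch 1 a t * mom e csch 0 b t + mom e csch 0 a t * mom e csch 1 b t =
      (Zt coth a t + Zt coth b t) * mom e csch 1 (a + b) t + 2 * mom e csch 2 (a + b) t :=
  (tele01 he ht (dec_csch a ht) (dec_csch b ht) (dec_csch _ ht) (sum_coth a ht) (sum_coth b ht)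
    fun k l => cc_id _ _ (ni_mul ha ht k) (ni_mul hb ht l) (ni_add hab ht k l)).2

/-- reflection -/
lemma mom_neg (he : Sgn e) {g : ℝ → ℝ} {s : ℝ} (hg : ∀ w, g (-w) = s * g w) (j : ℕ) (x : ℝ) :
    mom e g j (-x) t = (-1) ^ j * s * mom e g j x t := by
  unfold mom M
  rw [← (Equiv.neg ℤ).tsum_eq, ← tsum_mul_left]
  refine tsum_congr fun k => ?_
  simp only [Equiv.neg_apply, he.neg, Int.cast_neg]
  rw [show (-(k : ℝ) + -x) = -(k + x) by ring, neg_mul, hg, neg_pow]; ring

lemma mom_add_one (he : Sgn e) (g : ℝ → ℝ) (j : ℕ) (x : ℝ) :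
    mom e g j (x + 1) t = e * mom e g j x t := by
  unfold mom M
  rw [← (Equiv.addRight (1 : ℤ)).tsum_eq (fun k : ℤ => e ^ k * ((k + x) ^ j * g ((k + x) * t))),
    ← tsum_mul_left]
  refine tsum_congr fun k => ?_
  simp only [Equiv.coe_addRight, he.add, zpow_one, Int.cast_add, Int.cast_one]
  rw [show (k : ℝ) + 1 + x = k + (x + 1) by ring]
  linear_combination (-(e ^ k * ((k + (x + 1)) ^ j * g ((k + (x + 1)) * t)))) * he.sq

lemma mom_add_two (he : Sgn e) (g : ℝ → ℝ) (j : ℕ) (x : ℝ) :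
    mom e g j (x + 2) t = mom e g j x t := by
  rw [show x + 2 = x + 1 + 1 by ring, mom_add_one he, mom_add_one he, ← mul_assoc, he.sq, one_mul]

lemma Zt_neg {G : ℝ → ℝ} (hG : ∀ w, G (-w) = -G w) (x : ℝ) : Zt G (-x) t = -Zt G x t := by
  unfold Zt
  rw [← (Equiv.neg ℤ).tsum_eq, neg_sub', ← tsum_neg]
  congr 1
  · refine tsum_congr fun k => ?_
    simp only [Equiv.neg_apply, Int.cast_neg, sg_neg]
    rw [show (-(k : ℝ) + -x) = -(k + x) by ring, neg_mul, hG]; ring
  · ring

lemma Zt_add_one {G : ℝ → ℝ} {x : ℝ} (h : Summable fun k : ℤ => G ((k + x) * t) - sg k) :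
    Zt G (x + 1) t = Zt G x t := by
  unfold Zt
  have h1 := ((Equiv.addRight (1 : ℤ)).hasSum_iff (f := fun k : ℤ => G ((k + x) * t) - sg k)).2
    h.hasSum
  have h2 := ((Equiv.neg ℤ).hasSum_iff (f := fun k : ℤ => sg (0 + 1 - k) - sg (0 - k))).2
    (hasSum_sg_step 0)
  have h3 : HasSum (fun k : ℤ => G ((k + (x + 1)) * t) - sg k)
      ((∑' k : ℤ, (G ((k + x) * t) - sg k)) + 2) := by
    convert h1.add h2 using 1
    funext k
    simp only [Function.comp, Equiv.coe_addRight, Equiv.neg_apply, Int.cast_add, Int.cast_one]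
    rw [show (k : ℝ) + 1 + x = k + (x + 1) by ring, show (0 : ℤ) + 1 - -k = k + 1 by ring,
      show (0 : ℤ) - -k = k by ring]
    ring
  rw [h3.tsum_eq]; ring

lemma Zt_zero {G : ℝ → ℝ} (hG : ∀ w, G (-w) = -G w) : Zt G 0 t = 0 := by
  have := Zt_neg (t := t) hG 0
  rw [neg_zero] at this; linarith

lemma ni_neg {x : ℝ} (hx : NI x) : NI (-x) := fun k h => hx (-k) (by push_cast; linarith)

/-- the key deformation invariance -/
lemma CCd (he : Sgn e) (ht : 0 < t) {a : ℝ} (ha : NI a) :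
    mom e csch 1 a t ^ 2 - mom e csch 0 a t * mom e csch 2 a t = mom e csch 3 0 t := by
  have h := conv2 he (dec_csch a ht) (dec_csch (-a) ht) a (-a)
  have h2 := (M_hasSum he (dec_csch 0 ht) 0 3).mul_left 2
  have h3 : (fun n : ℤ => e ^ n * ((n + (a + -a)) ^ 2 *
      cv (fun k => csch ((k + a) * t)) (fun k => csch ((k + -a) * t)) n)) =
      fun n : ℤ => 2 * (e ^ n * ((n + 0) ^ 3 * csch ((n + 0) * t))) := by
    funext n
    rcases eq_or_ne n 0 with rfl | hn
    · simp
    rw [cv_eq (sum_coth a ht) (sum_coth (-a) ht) (h := csch ((n + 0) * t)) fun k => by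
      rw [cc_id _ _ (ni_mul ha ht k) (ni_mul (ni_neg ha) ht _)
        (by rw [arg_add]; simpa using ⟨hn, ht.ne'⟩), arg_add]; simp]
    have h4 := Zt_neg (t := t) coth_neg a
    unfold Zt at h4
    rw [show (∑' k : ℤ, (coth ((k + -a) * t) - sg k)) = -∑' k : ℤ, (coth ((k + a) * t) - sg k) by
      linarith]
    ring
  rw [h3] at h
  have h5 := h.unique h2
  have n0 := mom_neg (t := t) he (s := -1) (g := csch) (fun w => by simp [csch_neg]) 0 a
  have n1 := mom_neg (t := t) he (s := -1) (g := csch) (fun w => by simp [csch_neg]) 1 a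
  have n2 := mom_neg (t := t) he (s := -1) (g := csch) (fun w => by simp [csch_neg]) 2 a
  unfold mom at *
  rw [n0, n1, n2] at h5
  linarith

lemma SSd (he : Sgn e) (ht : 0 < t) (a : ℝ) :
    mom e sech 0 a t ^ 2 = mom 1 (fun w => sech w * sech w) 0 a t + 2 * mom e csch 1 0 t := by
  have h := conv0 he (dec_sech a ht) (dec_sech (-a) ht) a (-a)
  have h2 := (hasSum_ite_eq (0 : ℤ) (mom 1 (fun w => sech w * sech w) 0 a t)).add
    ((M_hasSum he (dec_csch 0 ht) 0 1).mul_left 2)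
  have h3 : (fun n : ℤ => e ^ n *
      cv (fun k => sech ((k + a) * t)) (fun k => sech ((k + -a) * t)) n) =
      fun n : ℤ => (if n = 0 then mom 1 (fun w => sech w * sech w) 0 a t else 0) +
        2 * (e ^ n * ((n + 0) ^ 1 * csch ((n + 0) * t))) := by
    funext n
    rcases eq_or_ne n 0 with rfl | hn
    · simp only [cv, mom, M]
      simp only [zpow_zero, one_mul, if_true, Int.cast_zero, add_zero, pow_one, zero_mul, mul_zero,
        one_zpow, pow_zero]
      refine tsum_congr fun k => ?_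
      rw [← sech_neg ((((0 - k : ℤ) : ℝ) + -a) * t)]; congr 2; push_cast; ring
    rw [cv_eq (sum_th a ht) (sum_th (-a) ht) (h := csch ((n + 0) * t)) fun k => by
      rw [ss_id _ _ (by rw [arg_add]; simpa using ⟨hn, ht.ne'⟩), arg_add]; simp]
    have h4 := Zt_neg (t := t) th_neg a
    unfold Zt at h4
    rw [show (∑' k : ℤ, (th ((k + -a) * t) - sg k)) = -∑' k : ℤ, (th ((k + a) * t) - sg k) by
      linarith, if_neg hn]
    ring
  rw [h3] at h
  have h5 := h.unique h2
  have n0 := mom_neg (t := t) he (s := 1) (g := sech) (fun w => by simp [sech_neg]) 0 a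
  unfold mom at *
  rw [n0] at h5
  linarith

lemma SCd (he : Sgn e) (ht : 0 < t) (a : ℝ) :
    mom e (fun w => th w * sech w) 0 a t =
      Zt th a t * mom e sech 0 a t + 2 * mom e sech 1 a t := by
  have h := conv0 he (dec_sech a ht) (dec_csch 0 ht) a 0
  have h2 := (((M_hasSum he (dec_sech a ht) a 0).mul_left (Zt th a t)).add
    ((M_hasSum he (dec_sech a ht) a 1).mul_left 2)).sub
    (M_hasSum he (dec_comp exAt_sech_th a ht) a 0)
  have h3 : ∀ n : ℤ, cv (fun k => sech ((k + a) * t)) (fun k => csch ((k + (0 : ℝ)) * t)) n =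
      (Zt th a t + 2 * (n + a)) * sech ((n + a) * t) - th ((n + a) * t) * sech ((n + a) * t) := by
    intro n
    have h4 := ((hasSum_pq (sum_th a ht) (sum_coth 0 ht) n).mul_right (sech ((n + a) * t))).sub
      (hasSum_ite_eq n (th ((n + a) * t) * sech ((n + a) * t)))
    have h5 := Zt_zero (t := t) coth_neg
    unfold Zt at h5
    refine (hs_congr h4 (fun k => ?_) ?_).tsum_eq
    · rcases eq_or_ne k n with rfl | hk
      · simp [csch_zero, coth_zero]
      · have hk' : (((n - k : ℤ) : ℝ) + 0) * t ≠ 0 := by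
          refine mul_ne_zero ?_ ht.ne'
          rw [add_zero]; exact_mod_cast sub_ne_zero.2 hk.symm
        rw [sc_id _ _ hk', arg_add, if_neg hk]; simp
    · unfold Zt
      rw [show (∑' k : ℤ, (coth ((k + (0 : ℝ)) * t) - sg k)) = 0 by linarith]; ring
  have n0 := mom_neg (t := t) he (s := -1) (g := csch) (fun w => by simp [csch_neg]) 0 0
  rw [neg_zero] at n0
  have n1 : M e (fun k => csch ((k + (0 : ℝ)) * t)) 0 0 = 0 := by unfold mom at n0; linarith
  rw [n1, mul_zero] at h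
  have h5 := h.unique (hs_congr h2 (fun n => by rw [h3]; ring) rfl)
  unfold mom
  linarith

end

end Pool.Agent.Lib.MP_870895_nt
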