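import Pool.Agent.Lib.MP_870895_nt.Phase

set_option autoImplicit false

open Real Filter Topology Set MeasureTheory

namespace Pool.Agent.Lib.MP_870895_nt

variable {e t η η' : ℝ}

noncomputable def ee (a : ℝ) : ℂ := Complex.exp (2 * π * Complex.I * a)
noncomputable def S3 (θ : ℝ × ℝ) : ℂ := 1 + ee θ.1 + ee θ.2
noncomputable def RR (θ : ℝ × ℝ) : ℝ := ‖S3 θ‖

noncomputable def ang (e η : ℝ) (p : ℝ × ℝ) : ℝ × ℝ :=
  (η / (2 * π) * (ps e (p.1 + 2 / 3) p.2 - ps e (p.1 + 0) p.2),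
   η / (2 * π) * (ps e (p.1 + 4 / 3) p.2 - ps e (p.1 + 0) p.2))

noncomputable def fr (θ : ℝ × ℝ) : ℝ × ℝ := (Int.fract θ.1, Int.fract θ.2)

lemma ee_add (a b : ℝ) : ee (a + b) = ee a * ee b := by
  rw [ee, ee, ee, ← Complex.exp_add]; push_cast; ring_nf
lemma ee_int (k : ℤ) : ee k = 1 := by
  rw [ee, ← Complex.exp_int_mul_two_pi_mul_I k]; push_cast; ring_nf
lemma ee_fract (a : ℝ) : ee (Int.fract a) = ee a := by
  conv_rhs => rw [← Int.fract_add_floor a, ee_add, ee_int, mul_one]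
lemma norm_ee (a : ℝ) : ‖ee a‖ = 1 := by
  rw [ee, Complex.norm_exp]; simp
lemma ee_eq (hη : Sgn η) (a : ℝ) : ee (η / (2 * π) * a) = cos a + (η * sin a : ℝ) * Complex.I := by
  have hp : (π : ℂ) ≠ 0 := by exact_mod_cast pi_pos.ne'
  have : (2 * π * Complex.I * (η / (2 * π) * a : ℝ) : ℂ) = (η * a : ℝ) * Complex.I := by
    push_cast; field_simp
  rw [ee, this, Complex.exp_mul_I, ← Complex.ofReal_cos, ← Complex.ofReal_sin]
  rcases hη with rfl | rfl <;> simp

lemma ee_ang (e η x t : ℝ) :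
    ee (fr (ang e η (x, t))).1 * ee (η / (2 * π) * ps e x t) =
      ee (η / (2 * π) * ps e (x + 2 / 3) t) ∧
    ee (fr (ang e η (x, t))).2 * ee (η / (2 * π) * ps e x t) =
      ee (η / (2 * π) * ps e (x + 4 / 3) t) := by
  simp only [fr, ang, ee_fract, ← ee_add, add_zero]
  constructor <;> congr 1 <;> ring

lemma S3_ang (he : Sgn e) (hη : Sgn η) (ht : 0 < t) (x : ℝ) :
    S3 (fr (ang e η (x, t))) * ee (η / (2 * π) * ps e x t) = yy e t := by
  rw [S3, add_mul, add_mul, (ee_ang e η x t).1, (ee_ang e η x t).2, one_mul, ee_eq hη, ee_eq hη,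
    ee_eq hη, ← sum_cos he ht x]
  have h := congrArg (fun r : ℝ => (r : ℂ)) (sum_sin he ht x)
  push_cast at h ⊢
  linear_combination η * Complex.I * h

lemma RR_ang (he : Sgn e) (hη : Sgn η) (ht : 0 < t) (x : ℝ) :
    RR (fr (ang e η (x, t))) = yy e t := by
  have h := congrArg norm (S3_ang he hη ht x)
  rwa [norm_mul, norm_ee, mul_one, Complex.norm_real, Real.norm_of_nonneg (yy_pos he ht).le] at h

lemma deriv_rel (he : Sgn e) (ht : 0 < t) (x : ℝ) :
    cos (ps e x t) * (DD e x t + DD e (x + 2 / 3) t) +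
    cos (ps e (x + 2 / 3) t) * (DD e (x + 2 / 3) t + DD e (x + 4 / 3) t) +
    cos (ps e (x + 4 / 3) t) * (DD e (x + 4 / 3) t + DD e x t) = 0 := by
  have h := ((fd_x (hasFDerivAt_ps he ht x 0)).sin.add
    (fd_x (hasFDerivAt_ps he ht x (2 / 3))).sin).add (fd_x (hasFDerivAt_ps he ht x (4 / 3))).sin
  have h2 := h.unique ((hasDerivAt_const x (0 : ℝ)).congr_of_eventuallyEq
    (Eventually.of_forall fun y => by simpa using sum_sin he ht y))
  simp only [add_zero, e43, DD_add_two he] at h2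
  refine mul_left_cancel₀ ht.ne' ?_
  linear_combination h2

lemma SS2_of_DD (he : Sgn e) (hη : Sgn η) (hη' : Sgn η') (ht : 0 < t) {x y : ℝ}
    (h : η * DD e x t = η' * DD e y t) : SS2 x t = SS2 y t := by
  have h1 := SS2_eq he ht x
  have h2 := SS2_eq he ht y
  have h3 : DD e x t ^ 2 = DD e y t ^ 2 := by
    linear_combination (η * DD e x t + η' * DD e y t) * h - DD e x t ^ 2 * hη.sq +
      DD e y t ^ 2 * hη'.sq
  refine mul_left_cancel₀ ht.ne' ?_
  rw [h3] at h1; linarith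

lemma not_int_23 (k : ℤ) : (k : ℝ) ≠ 2 / 3 := fun h => ni_neg ni_two_third k (by linarith)
lemma not_int_43 (k : ℤ) : (k : ℝ) ≠ 4 / 3 := fun h =>
  ni_neg ni_third (k - 1) (by push_cast; linarith)

lemma ang_inj (he : Sgn e) (hη : Sgn η) (hη' : Sgn η') (ht : 0 < t) {x y : ℝ}
    (hx : x ∈ Ioo (0 : ℝ) 1) (hy : y ∈ Ioo (0 : ℝ) 1)
    (h : fr (ang e η (x, t)) = fr (ang e η' (y, t))) : x = y ∧ η = η' := by
  have a1 := S3_ang he hη ht x
  have a2 := S3_ang he hη' ht y
  have hS : S3 (fr (ang e η (x, t))) ≠ 0 := by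
    intro h0
    rw [h0, zero_mul] at a1
    exact (yy_pos he ht).ne (by exact_mod_cast a1)
  rw [← h] at a2
  have b0 := mul_left_cancel₀ hS (a1.trans a2.symm)
  have b1 := (ee_ang e η x t).1
  have b2 := (ee_ang e η x t).2
  rw [h, b0, (ee_ang e η' y t).1] at b1
  rw [h, b0, (ee_ang e η' y t).2] at b2
  rw [ee_eq hη, ee_eq hη', Complex.ext_iff] at b0
  rw [ee_eq hη, ee_eq hη', Complex.ext_iff] at b1 b2
  simp only [Complex.add_re, Complex.ofReal_re, Complex.mul_re, Complex.I_re, mul_zero,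
    Complex.ofReal_im, Complex.I_im, mul_one, sub_self, add_zero, Complex.add_im, Complex.mul_im,
    zero_add] at b0 b1 b2
  have q0 := (Q_id he ht x).2
  have q1 := (Q_id he ht (x + 2 / 3)).2
  have q0' := (Q_id he ht y).2
  have q1' := (Q_id he ht (y + 2 / 3)).2
  rw [e43] at q1 q1'
  have d := deriv_rel he ht x
  have d' := deriv_rel he ht y
  have sc := sum_cos he ht x
  rw [← b0.1, b1.1, b2.1] at d'
  have c1 : η * DD e (x + 2 / 3) t - η' * DD e (y + 2 / 3) t = η * DD e x t - η' * DD e y t := by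
    linear_combination η * q0 - η' * q0' - rr e t * b0.2
  have c2 : η * DD e (x + 4 / 3) t - η' * DD e (y + 4 / 3) t = η * DD e x t - η' * DD e y t := by
    linear_combination η * q1 - η' * q1' + rr e t * b1.2 + c1
  have c0 : η * DD e x t - η' * DD e y t = 0 := by
    refine mul_left_cancel₀ (yy_pos he ht).ne' ?_
    linear_combination (1 / 2) * (η * d - η' * d') - (η * DD e x t - η' * DD e y t) * sc -
      (1 / 2) * (cos (ps e x t) + cos (ps e (x + 2 / 3) t)) * c1 -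
      (1 / 2) * (cos (ps e (x + 2 / 3) t) + cos (ps e (x + 4 / 3) t)) * c2
  rw [c0] at c1 c2
  have hxy : x = y := by
    obtain ⟨k, hk | hk⟩ := SS2_inj ht (SS2_of_DD he hη hη' ht (sub_eq_zero.1 c0))
    · have h1 : (k : ℝ) < 1 := by linarith [hx.1, hy.2]
      have h2 : (-1 : ℝ) < k := by linarith [hx.2, hy.1]
      have h3 : k < 1 := by exact_mod_cast h1
      have h4 : -1 < k := by exact_mod_cast h2
      obtain rfl : k = 0 := by omega
      simpa using hk.symm
    · obtain ⟨l, hl | hl⟩ := SS2_inj ht (SS2_of_DD he hη hη' ht (sub_eq_zero.1 c1))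
      · have h1 : (l : ℝ) < 1 := by linarith [hx.1, hy.2]
        have h2 : (-1 : ℝ) < l := by linarith [hx.2, hy.1]
        have h3 : l < 1 := by exact_mod_cast h1
        have h4 : -1 < l := by exact_mod_cast h2
        obtain rfl : l = 0 := by omega
        simp at hl; exact hl.symm
      · exact absurd (by push_cast; linarith) (not_int_43 (l - k))
  subst hxy
  refine ⟨rfl, ?_⟩
  by_contra hne
  have hz : ∀ z : ℝ, η * z - η' * z = 0 → z = 0 := fun z hz => by
    rw [← sub_mul] at hz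
    exact (mul_eq_zero.1 hz).resolve_left (sub_ne_zero.2 hne)
  have z0 := hz _ c0
  have z1 := hz _ c1
  have z2 := hz _ c2
  obtain ⟨k, hk | hk⟩ := SS2_inj ht (SS2_of_DD he sgn_one sgn_one ht (x := x) (y := x + 2 / 3)
    (by rw [z0, z1]))
  · exact not_int_23 k (by linarith)
  obtain ⟨l, hl | hl⟩ := SS2_inj ht (SS2_of_DD he sgn_one sgn_one ht (x := x) (y := x + 4 / 3)
    (by rw [z0, z2]))
  · exact not_int_43 l (by linarith)
  · exact not_int_23 (l - k) (by push_cast; linarith)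

lemma det_D2 (a b c d : ℝ) : ((D2 a b).prod (D2 c d)).det = a * d - b * c := by
  unfold D2
  rw [← Matrix.toLin_finTwoProd_toContinuousLinearMap]
  simp only [LinearMap.det_toContinuousLinearMap, LinearMap.det_toLin, Matrix.det_fin_two_of]

lemma hasFDerivAt_ang (he : Sgn e) (hη : Sgn η) (ht : 0 < t) (x : ℝ) :
    ∃ L : ℝ × ℝ →L[ℝ] ℝ × ℝ, HasFDerivAt (ang e η) L (x, t) ∧
      |L.det| = 3 / (2 * π ^ 2) * (t * mom e csch 2 (1 / 3) t) := by
  have h0 := hasFDerivAt_ps he ht x 0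
  have h1 := hasFDerivAt_ps he ht x (2 / 3)
  have h2 := hasFDerivAt_ps he ht x (4 / 3)
  refine ⟨(D2 (η / (2 * π) * (t * (DD e (x + 4 / 3) t - DD e x t)))
      (η / (2 * π) * (VV e (x + 4 / 3) t - VV e x t))).prod
    (D2 (η / (2 * π) * (t * (DD e (x + 4 / 3) t - DD e (x + 2 / 3) t)))
      (η / (2 * π) * (VV e (x + 4 / 3) t - VV e (x + 2 / 3) t))), HasFDerivAt.prodMk ?_ ?_, ?_⟩
  · refine ((h1.sub h0).const_mul _).congr_fderiv (ContinuousLinearMap.ext fun p => ?_)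
    simp [e43]; ring
  · refine ((h2.sub h0).const_mul _).congr_fderiv (ContinuousLinearMap.ext fun p => ?_)
    simp [DD_add_two he, VV_add_two he]; ring
  · rw [det_D2]
    have h := cross_sum he ht x
    have h3 : η / (2 * π) * (t * (DD e (x + 4 / 3) t - DD e x t)) *
        (η / (2 * π) * (VV e (x + 4 / 3) t - VV e (x + 2 / 3) t)) -
        η / (2 * π) * (VV e (x + 4 / 3) t - VV e x t) *
        (η / (2 * π) * (t * (DD e (x + 4 / 3) t - DD e (x + 2 / 3) t))) =
        -e * (3 / (2 * π ^ 2) * (t * mom e csch 2 (1 / 3) t)) := by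
      linear_combination (-η ^ 2 * t / (4 * π ^ 2)) * h -
        6 * e * t / (4 * π ^ 2) * mom e csch 2 (1 / 3) t * hη.sq
    have h4 : |e| = 1 := by simpa using he.abs 1
    rw [h3, abs_mul, abs_neg, h4, one_mul, abs_of_pos]
    have := U2_pos he ht
    positivity

lemma vol_fract_image {f : ℝ × ℝ → ℝ × ℝ} {f' : ℝ × ℝ → ℝ × ℝ →L[ℝ] ℝ × ℝ} {D : Set (ℝ × ℝ)}
    (hD : MeasurableSet D) (hf : ∀ p ∈ D, HasFDerivAt f (f' p) p)
    (hinj : InjOn (fun p => fr (f p)) D) :
    MeasurableSet ((fun p => fr (f p)) '' D) ∧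
      volume ((fun p => fr (f p)) '' D) = ∫⁻ p in D, ENNReal.ofReal |(f' p).det| := by
  set Dk : ℤ × ℤ → Set (ℝ × ℝ) := fun k => D ∩ f ⁻¹' (Ico (k.1 : ℝ) (k.1 + 1) ×ˢ Ico (k.2 : ℝ) (k.2 + 1))
    with hDk
  have hc : ContinuousOn f D := fun p hp => (hf p hp).continuousAt.continuousWithinAt
  have hm : ∀ k, MeasurableSet (Dk k) := fun k => by
    have h1 : Measurable (D.domRestrict f) := (continuousOn_iff_continuous_domRestrict.1 hc).measurable
    have h2 := hD.subtype_image (h1 (measurableSet_Ico.prod measurableSet_Ico :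
      MeasurableSet (Ico (k.1 : ℝ) (k.1 + 1) ×ˢ Ico (k.2 : ℝ) (k.2 + 1))))
    convert h2 using 1
    ext p
    exact ⟨fun hp => ⟨⟨p, hp.1⟩, hp.2, rfl⟩, by rintro ⟨q, hq, rfl⟩; exact ⟨q.2, hq⟩⟩
  have hfl : ∀ k, ∀ p ∈ Dk k, (⌊(f p).1⌋, ⌊(f p).2⌋) = k := fun k p hp =>
    Prod.ext (Int.floor_eq_iff.2 hp.2.1) (Int.floor_eq_iff.2 hp.2.2)
  have hU : ⋃ k, Dk k = D := by
    refine subset_antisymm (iUnion_subset fun k => inter_subset_left) fun p hp => ?_
    exact mem_iUnion.2 ⟨(⌊(f p).1⌋, ⌊(f p).2⌋), hp, ⟨Int.floor_le _, Int.lt_floor_add_one _⟩,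
      ⟨Int.floor_le _, Int.lt_floor_add_one _⟩⟩
  have hdis : Pairwise (Function.onFun Disjoint Dk) := fun k l hkl =>
    Set.disjoint_left.2 fun p h1 h2 => hkl ((hfl k p h1).symm.trans (hfl l p h2))
  have hg : ∀ k, EqOn (fun p => fr (f p)) (fun p => f p - ((k.1 : ℝ), (k.2 : ℝ))) (Dk k) :=
    fun k p hp => by rw [← hfl k p hp]; rfl
  have hder : ∀ k, ∀ p ∈ Dk k, HasFDerivWithinAt (fun p => f p - ((k.1 : ℝ), (k.2 : ℝ))) (f' p)
      (Dk k) p := fun k p hp => ((hf p hp.1).sub_const _).hasFDerivWithinAt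
  have hi : ∀ k, InjOn (fun p => f p - ((k.1 : ℝ), (k.2 : ℝ))) (Dk k) := fun k =>
    (hinj.mono inter_subset_left).congr (hg k)
  have hm2 : ∀ k, MeasurableSet ((fun p => fr (f p)) '' Dk k) := fun k => by
    rw [(hg k).image_eq]; exact measurable_image_of_fderivWithin (hm k) (hder k) (hi k)
  have hdis2 : Pairwise (Function.onFun Disjoint fun k => (fun p => fr (f p)) '' Dk k) :=
    fun k l hkl => (hdis hkl).image hinj inter_subset_left inter_subset_left
  rw [← hU, image_iUnion]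
  refine ⟨MeasurableSet.iUnion hm2, ?_⟩
  rw [measure_iUnion hdis2 hm2, lintegral_iUnion hm hdis]
  refine tsum_congr fun k => ?_
  rw [(hg k).image_eq, lintegral_abs_det_fderiv_eq_addHaar_image volume (hm k) (hder k) (hi k)]

end Pool.Agent.Lib.MP_870895_nt
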