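import Pool.Agent.Lib.MP_870895_nt.Lattice

set_option autoImplicit false

open Real Filter Topology Set MeasureTheory

namespace Pool.Agent.Lib.MP_870895_nt

lemma integrable_tsum' {ι α : Type*} [Countable ι] [MeasurableSpace α] {μ : Measure α}
    {F : ι → α → ℝ} (hF : ∀ i, Integrable (F i) μ) (hs : Summable fun i => ∫ a, ‖F i a‖ ∂μ) :
    Integrable (fun a => ∑' i, F i a) μ := by
  refine ⟨(AEMeasurable.tsum fun i => (hF i).1.aemeasurable).aestronglyMeasurable, ?_⟩
  have h1 (i : ι) : ∫⁻ a, ‖F i a‖ₑ ∂μ = ENNReal.ofReal (∫ a, ‖F i a‖ ∂μ) :=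
    (ofReal_integral_norm_eq_lintegral_enorm (hF i)).symm
  calc ∫⁻ a, ‖∑' i, F i a‖ₑ ∂μ ≤ ∫⁻ a, ∑' i, ‖F i a‖ₑ ∂μ := lintegral_mono fun a => enorm_tsum_le_tsum_enorm
    _ = ∑' i, ∫⁻ a, ‖F i a‖ₑ ∂μ := lintegral_tsum fun i => (hF i).1.enorm
    _ = ENNReal.ofReal (∑' i, ∫ a, ‖F i a‖ ∂μ) := by
        rw [ENNReal.ofReal_tsum_of_nonneg (fun i => integral_nonneg fun _ => norm_nonneg _) hs]
        exact tsum_congr h1
    _ < ⊤ := ENNReal.ofReal_lt_top

lemma mellin_exp (j : ℕ) {c : ℝ} (hc : 0 < c) :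
    ∫ x in Ioi (0 : ℝ), x ^ j * exp (-(c * x)) = j.factorial / c ^ (j + 1) := by
  have h := integral_rpow_mul_exp_neg_mul_Ioi (a := j + 1) (by positivity) hc
  rw [Gamma_nat_eq_factorial, add_sub_cancel_right] at h
  simp only [rpow_natCast] at h
  rw [h, show ((j : ℝ) + 1) = ((j + 1 : ℕ) : ℝ) by push_cast; ring, rpow_natCast, one_div_pow]
  field_simp

lemma mellin_exp_int (j : ℕ) {c : ℝ} (hc : 0 < c) :
    IntegrableOn (fun x : ℝ => x ^ j * exp (-(c * x))) (Ioi 0) :=
  .of_integral_ne_zero (by rw [mellin_exp j hc]; positivity)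

lemma cmellin {c : ℂ} (hc : 0 < c.re) :
    IntegrableOn (fun x : ℝ => (x : ℂ) * Complex.exp (-(c * x))) (Ioi 0) ∧
    ∫ x in Ioi (0 : ℝ), ‖(x : ℂ) * Complex.exp (-(c * x))‖ = 1 / c.re ^ 2 ∧
    ∫ x in Ioi (0 : ℝ), (x : ℂ) * Complex.exp (-(c * x)) = 1 / c ^ 2 := by
  have hn : ∀ x ∈ Ioi (0 : ℝ), ‖(x : ℂ) * Complex.exp (-(c * x))‖ = x ^ 1 * exp (-(c.re * x)) := by
    intro x hx
    rw [norm_mul, Complex.norm_exp, Complex.norm_real, Real.norm_of_nonneg (le_of_lt hx)]
    simp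
  have hi : IntegrableOn (fun x : ℝ => (x : ℂ) * Complex.exp (-(c * x))) (Ioi 0) := by
    refine (mellin_exp_int 1 hc).mono' (Continuous.aestronglyMeasurable (by fun_prop)) ?_
    filter_upwards [ae_restrict_mem measurableSet_Ioi] with x hx using (hn x hx).le
  have hc0 : c ≠ 0 := by rintro rfl; simp at hc
  refine ⟨hi, ?_, ?_⟩
  · rw [setIntegral_congr_fun measurableSet_Ioi hn, mellin_exp 1 hc]; simp
  · have h := integral_Ioi_of_hasDerivAt_of_tendsto' (a := 0) (m := 0)
      (f := fun x : ℝ => -((x : ℂ) / c + 1 / c ^ 2) * Complex.exp (-(c * x))) (fun x _ => ?_) hi ?_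
    · rw [h]; simp
    · have h1 : HasDerivAt (fun x : ℝ => (x : ℂ)) 1 x := Complex.ofRealCLM.hasDerivAt
      have h2 := (((h1.div_const c).add_const (1 / c ^ 2)).neg).mul ((h1.const_mul c).neg.cexp)
      refine h2.congr_deriv ?_
      simp only [Pi.neg_apply]
      field_simp; ring
    · have h1 : Tendsto (fun x : ℝ => x ^ 1 * exp (-(c.re * x))) atTop (𝓝 0) := by
        have := (tendsto_pow_mul_exp_neg_atTop_nhds_zero 1).comp (tendsto_id.const_mul_atTop hc)
        have := this.const_mul (c.re)⁻¹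
        rw [mul_zero] at this
        refine this.congr fun x => ?_
        simp only [Function.comp, id]; field_simp
      have h2 : Tendsto (fun x : ℝ => exp (-(c.re * x))) atTop (𝓝 0) :=
        tendsto_exp_atBot.comp (tendsto_neg_atTop_atBot.comp (tendsto_id.const_mul_atTop hc))
      have h3 := (h1.const_mul ‖c‖⁻¹).add (h2.const_mul ‖1 / c ^ 2‖)
      simp only [mul_zero, add_zero] at h3
      refine squeeze_zero_norm' ?_ h3
      filter_upwards [eventually_gt_atTop 0] with x hx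
      rw [norm_mul, norm_neg, Complex.norm_exp]
      have h4 : ‖(x : ℂ) / c + 1 / c ^ 2‖ ≤ ‖c‖⁻¹ * x + ‖1 / c ^ 2‖ := by
        refine (norm_add_le _ _).trans (le_of_eq ?_)
        rw [norm_div, Complex.norm_real, Real.norm_of_nonneg hx.le]; ring
      have h5 : (-(c * x)).re = -(c.re * x) := by simp
      rw [h5]
      calc _ ≤ (‖c‖⁻¹ * x + ‖1 / c ^ 2‖) * exp (-(c.re * x)) := by gcongr
        _ = _ := by ring

/-- splitting a sum over the integers into even and odd indices -/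
lemma hasSum_even_odd {f : ℤ → ℝ} (hf : Summable f) :
    HasSum (fun j : ℤ => f (2 * j) + f (2 * j + 1)) (∑' k, f k) ∧
      (Summable fun j : ℤ => f (2 * j)) ∧ Summable fun j : ℤ => f (2 * j + 1) := by
  have h1 : Summable fun j : ℤ => f (2 * j) :=
    hf.comp_injective (i := fun j : ℤ => 2 * j) fun a b h => by simpa using h
  have h2 : Summable fun j : ℤ => f (2 * j + 1) :=
    hf.comp_injective (i := fun j : ℤ => 2 * j + 1) fun a b h => by simpa using h
  refine ⟨?_, h1, h2⟩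
  have h3 : HasSum f ((∑' j : ℤ, f (2 * j)) + ∑' j : ℤ, f (2 * j + 1)) := by
    have hc : IsCompl (range fun j : ℤ => 2 * j) (range fun j : ℤ => 2 * j + 1) := by
      rw [isCompl_iff]
      constructor
      · rw [Set.disjoint_left]; rintro _ ⟨a, rfl⟩ ⟨b, h⟩; simp only at h; omega
      · rw [codisjoint_iff, eq_top_iff]
        intro k _
        rcases Int.even_or_odd' k with ⟨a, h | h⟩
        · exact Or.inl ⟨a, h.symm⟩
        · exact Or.inr ⟨a, h.symm⟩
    refine HasSum.add_isCompl hc ?_ ?_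
    · exact (Function.Injective.hasSum_range_iff fun a b h => by simpa using h).2 h1.hasSum
    · exact (Function.Injective.hasSum_range_iff fun a b h => by simpa using h).2 h2.hasSum
  rw [h3.tsum_eq]
  exact h1.hasSum.add h2.hasSum

end Pool.Agent.Lib.MP_870895_nt
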